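import Pool.Agent.Helper4.SW.L2

/-!
S-world: the inequality (F1) and its reduction to spiders with two legs.
-/

set_option autoImplicit false

namespace Pool.Agent.Helper4.SW

open Pool.Agent.Helper6.HL hiding X
open Finset Polynomial

variable {q : ℕ} {w : Fin q → ℝ} {y : ℝ}

/-- monotonicity of the action of a nonnegative polynomial against a constant -/
theorem hat_mul_le_const (h : Hyp w y) {p r : ℝ[X]} (hp : NN p) {a : ℝ}
    (hr : ∀ k, hat w r k ≤ a) (k : Fin q) : hat w (p * r) k ≤ a * hat w p k := by
  rw [hat_mul]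
  have h1 := aeval_mono h.nn hp (f := hat w r) (g := fun _ => a) hr k
  have h2 : aeval (K' w) p (fun _ : Fin q => a) k = a * hat w p k := by
    rw [aeval_const]
  rw [h2] at h1
  exact h1

/-- (L2) for an arbitrary nonempty rest -/
theorem L2_rest (h : Hyp w y) {t : Fin q} (ht : Top w t) (a b j : ℕ) (J : List ℕ) :
    0 ≤ E w (fun c => (w c - y) * ch w y (a + 1) c * ch w y (b + 1) c *
      ((st w y (R (j :: J))).a - L w (st w y (R (j :: J))).p -
        (w t - w c) * hat w (st w y (R (j :: J))).p c)) := by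
  set α := (st w y (R J)).a with hα
  set π := (st w y (R J)).p with hπ
  have hα0 : 0 ≤ α := (st_nonneg h.nn h.hy.le _).1
  have e : st w y (R (j :: J)) = ⟨l w y (j + 1) * α, psi w y (j + 1) * π⟩ := by
    have : R (j :: J) = (B.path (j + 1)).app (R J) := rfl
    rw [this, st_app]
    rfl
  rw [e]
  simp only
  have hle : ∀ k, hat w (psi w y (j + 1) * π) k ≤ α * hat w (psi w y (j + 1)) k := fun k =>
    hat_mul_le_const h (psi_NN h.nn h.hy.le _) (fun k => by linarith [R_defect h J k]) k
  have hL : L w (psi w y (j + 1) * π) ≤ α * l w y (j + 2) := by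
    rw [l_succ w y (j + 1), L_def, L_def, ← E_const_mul]
    exact E_mono h.nn hle
  refine le_trans (mul_nonneg hα0 (L2_leg h ht a b j)) ?_
  rw [← E_const_mul]
  refine E_mono h.nn fun c => ?_
  have hX : 0 ≤ (w c - y) * ch w y (a + 1) c * ch w y (b + 1) c :=
    mul_nonneg (mul_nonneg (sub_nonneg.2 (h.lt c).le) (ch_pos h a c).le) (ch_pos h b c).le
  have hD : α * (l w y (j + 1) - l w y (j + 2) - (w t - w c) * hat w (psi w y (j + 1)) c) ≤
      l w y (j + 1) * α - L w (psi w y (j + 1) * π) -
        (w t - w c) * hat w (psi w y (j + 1) * π) c := by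
    have h1 := mul_le_mul_of_nonneg_left (hle c) (sub_nonneg.2 (ht c))
    linarith
  have := mul_le_mul_of_nonneg_left hD hX
  linarith

/-- `p(K') x` for `x` the function `w` -/
theorem aeval_w (h : Hyp w y) (p : ℝ[X]) (c : Fin q) : aeval (K' w) p w c =
    hat w p c - L w p + w c * hat w p c := by
  have e : w = (fun _ : Fin q => (1 : ℝ)) - K' w (fun _ => 1) := by
    funext i
    rw [Pi.sub_apply, K'_apply, E_one h]
    ring
  have e2 : aeval (K' w) p w = hat w p - K' w (hat w p) := by
    refine (congrArg (fun v => aeval (K' w) p v) e).trans ?_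
    rw [map_sub, ← hat_def]
    congr 1
    rw [hat_def, ← Module.End.mul_apply, ← Module.End.mul_apply]
    have : aeval (K' w) p * K' w = K' w * aeval (K' w) p := by
      have h1 : aeval (K' w) (p * Polynomial.X) = aeval (K' w) p * K' w := by rw [map_mul, aeval_X]
      have h2 : aeval (K' w) (Polynomial.X * p) = K' w * aeval (K' w) p := by rw [map_mul, aeval_X]
      rw [← h1, ← h2, mul_comm]
    rw [this]
  have e3 := congrFun e2 c
  rw [Pi.sub_apply, K'_apply] at e3
  rw [e3, L_def]
  ring

/-- (R): in the context `y Y = w t * G t` merging two legs in the presence of other legs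
decreases the weight -/
theorem R_merge (h : Hyp w y) {t : Fin q} (ht : Top w t) {Λ : ℝ[X]} (hΛ : NN Λ) {A : ℝ}
    (hA : y * A = w t * hat w Λ t) (a b j : ℕ) (J : List ℕ) :
    Z w y A Λ (.cons (R ((a + b + 1) :: j :: J)) .nil) ≤
      Z w y A Λ (.cons (R (a :: b :: j :: J)) .nil) := by
  have e1 : (st w y B.nil).a = 1 := rfl
  have e2 : (st w y B.nil).p = 1 := rfl
  rw [Z_cons, Z_cons, e1, e2, mul_one, mul_one, mul_one]
  have e3 : R (a :: b :: j :: J) = .cons (.path a) (.cons (.path b) (R (j :: J))) := rfl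
  have e4 : R ((a + b + 1) :: j :: J) = .cons (.path (a + b + 1)) (R (j :: J)) := rfl
  rw [e3, e4, Z_merge]
  refine le_add_of_nonneg_right (mul_nonneg h.hy.le ?_)
  set G := hat w Λ with hG
  have hcone : Cone w G := Cone.hat h.nn hΛ
  set s := R (j :: J) with hs
  set p := (st w y s).p with hp
  have hpNN : NN p := (st_nonneg h.nn h.hy.le _).2
  have hGt : 0 ≤ G t := hcone.nn t
  have hEG : G t ≤ E w G := by
    rw [← E_const h (G t)]
    exact E_mono h.nn fun i => hcone.anti i t (ht i)
  refine le_trans (mul_nonneg hGt (L2_rest h ht a b j J)) ?_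
  rw [← E_const_mul]
  refine E_mono h.nn fun c => ?_
  have hX : 0 ≤ (w c - y) * ch w y (a + 1) c * ch w y (b + 1) c :=
    mul_nonneg (mul_nonneg (sub_nonneg.2 (h.lt c).le) (ch_pos h a c).le) (ch_pos h b c).le
  have key : G t * ((st w y s).a - L w p - (w t - w c) * hat w p c) ≤
      L w Λ * (st w y s).a - hat w ((C (y * A) + Polynomial.X * Λ) * p) c := by
    have hdef : 0 ≤ (st w y s).a - hat w p c := R_defect h (j :: J) c
    have hsplit : hat w ((C (y * A) + Polynomial.X * Λ) * p) c =
        w t * G t * hat w p c + aeval (K' w) p (K' w G) c := by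
      rw [add_mul, map_add, Pi.add_apply, hA, hat_const_mul,
        show Polynomial.X * Λ * p = p * (Polynomial.X * Λ) by ring, hat_mul, hat_X_mul]
    have hmono : aeval (K' w) p (K' w G) c ≤
        aeval (K' w) p (fun i => E w G - G t * w i) c := by
      refine aeval_mono h.nn hpNN (fun i => ?_) c
      rw [K'_apply]
      have h1 := mul_le_mul_of_nonneg_left (hcone.anti i t (ht i)) (h.nn i)
      linarith
    have heq : aeval (K' w) p (fun i => E w G - G t * w i) c =
        E w G * hat w p c - G t * (hat w p c - L w p + w c * hat w p c) := by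
      have e : (fun i => E w G - G t * w i) = (fun _ : Fin q => E w G) - (G t) • w := by
        funext i
        simp
      rw [e, map_sub, map_smul, Pi.sub_apply, Pi.smul_apply, smul_eq_mul, aeval_const, aeval_w h]
    have hLΛ : L w Λ = E w G := rfl
    rw [hsplit, hLΛ]
    have h5 := mul_nonneg (sub_nonneg.2 hEG) hdef
    linarith
  have := mul_le_mul_of_nonneg_left key hX
  linarith

/-- merging all legs but one -/
theorem R_merge_all (h : Hyp w y) {t : Fin q} (ht : Top w t) {Λ : ℝ[X]} (hΛ : NN Λ) {A : ℝ}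
    (hA : y * A = w t * hat w Λ t) (c : ℕ) (J : List ℕ) : ∀ a : ℕ,
    Z w y A Λ (.cons (R [a + J.sum + J.length, c]) .nil) ≤
      Z w y A Λ (.cons (R (a :: (J ++ [c]))) .nil) := by
  induction J with
  | nil => intro a; exact le_rfl
  | cons b J ih =>
    intro a
    refine le_trans ?_ ((ih (a + b + 1)).trans ?_)
    · rw [show a + (b :: J).sum + (b :: J).length = a + b + 1 + J.sum + J.length by
        simp only [List.sum_cons, List.length_cons]; ring]
    · cases J with
      | nil => exact R_merge h ht hΛ hA a b c []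
      | cons j J => exact R_merge h ht hΛ hA a b j (J ++ [c])

/-! ### the values of spiders -/

theorem st_R_cons (a : ℕ) (J : List ℕ) : st w y (R (a :: J)) =
    ⟨l w y (a + 1) * (st w y (R J)).a, psi w y (a + 1) * (st w y (R J)).p⟩ := by
  have : R (a :: J) = (B.path (a + 1)).app (R J) := rfl
  rw [this, st_app]
  rfl

theorem sa_merge (h : Hyp w y) (a b : ℕ) (J : List ℕ) :
    sa w y (a :: b :: J) ≤ sa w y ((a + b + 1) :: J) := by
  rw [sa, sa, st_R_cons, st_R_cons, st_R_cons]
  simp only
  set π := (st w y (R J)).p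
  have hπ : NN π := (st_nonneg h.nn h.hy.le _).2
  rw [L_def, L_def, show psi w y (a + 1) * (psi w y (b + 1) * π) =
    π * (psi w y (a + 1) * psi w y (b + 1)) by ring,
    show psi w y (a + b + 1 + 1) * π = π * psi w y (a + b + 1 + 1) by ring]
  refine E_mono h.nn fun c => ?_
  rw [hat_mul w π (psi w y (a + 1) * psi w y (b + 1)), hat_mul w π (psi w y (a + b + 1 + 1))]
  refine aeval_mono h.nn hπ (fun i => ?_) c
  rw [(merge_id w y (a + 1) (b + 1)).1 i, show a + 1 + (b + 1) = a + b + 1 + 1 by ring]
  have : 0 ≤ (w i - y) * ch w y (a + 1) i * ch w y (b + 1) i :=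
    mul_nonneg (mul_nonneg (sub_nonneg.2 (h.lt i).le) (ch_pos h a i).le) (ch_pos h b i).le
  have := mul_nonneg h.hy.le this
  linarith

theorem sa_merge_all (h : Hyp w y) (J : List ℕ) : ∀ (a : ℕ) (J' : List ℕ),
    sa w y (a :: (J ++ J')) ≤ sa w y ((a + J.sum + J.length) :: J') := by
  induction J with
  | nil => intro a J'; exact le_rfl
  | cons b J ih =>
    intro a J'
    rw [List.cons_append]
    refine (sa_merge h a b _).trans ((ih (a + b + 1) J').trans (le_of_eq ?_))
    rw [show a + (b :: J).sum + (b :: J).length = a + b + 1 + J.sum + J.length by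
        simp only [List.sum_cons, List.length_cons]; ring]

theorem sa_single (m : ℕ) : sa w y [m] = l w y (m + 2) := by
  rw [sa, st_R_cons]
  have : (st w y (R [])).p = 1 := rfl
  simp only [this, mul_one]
  rw [← l_succ]

theorem sa_le (h : Hyp w y) (a : ℕ) (J : List ℕ) :
    sa w y (a :: J) ≤ l w y ((a :: J).sum + (a :: J).length + 1) := by
  have h1 := sa_merge_all h J a []
  rw [List.append_nil, sa_single] at h1
  refine h1.trans (le_of_eq ?_)
  rw [show (a :: J).sum + (a :: J).length + 1 = a + J.sum + J.length + 2 by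
    simp only [List.sum_cons, List.length_cons]; ring]

theorem hat_two (a b : ℕ) (i : Fin q) : hat w (st w y (R [a, b])).p i =
    hat w (psi w y (a + b + 2)) i - y * ((w i - y) * ch w y (a + 1) i * ch w y (b + 1) i) := by
  rw [st_R_cons, st_R_cons]
  have : (st w y (R [])).p = 1 := rfl
  simp only [this, mul_one]
  rw [(merge_id w y (a + 1) (b + 1)).1 i, show a + 1 + (b + 1) = a + b + 2 by ring]

theorem sa_two (a b : ℕ) : sa w y [a, b] = l w y (a + b + 3) -
    y * E w (fun i => (w i - y) * ch w y (a + 1) i * ch w y (b + 1) i) := by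
  rw [sa, L_def, show a + b + 3 = (a + b + 2) + 1 by ring, l_succ, L_def, ← E_const_mul, ← E_sub]
  congr 1
  funext i
  exact hat_two a b i

theorem sf_two (a b : ℕ) (i : Fin q) : sf w y [a, b] i = hat w (psi w y (a + b + 3)) i +
    y * (w i * ((w i - y) * ch w y (a + 1) i * ch w y (b + 1) i)) := by
  have h1 := sa_two (w := w) (y := y) a b
  rw [sa, L_def] at h1
  have ha : (st w y (R [a, b])).a = l w y (a + 1) * l w y (b + 1) := by
    rw [st_R_cons, st_R_cons]
    have : (st w y (R [])).a = 1 := rfl
    simp only [this, mul_one]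
  have h2 := (merge_id w y (a + 1) (b + 1)).2
  rw [show a + 1 + (b + 1) = a + b + 2 by ring] at h2
  have h3 : hat w (psi w y (a + b + 2 + 1)) i = y * l w y (a + b + 2) +
      (l w y (a + b + 2 + 1) - w i * hat w (psi w y (a + b + 2)) i) := by
    rw [psi_succ, map_add, Pi.add_apply, hat_C, hat_X_mul, K'_apply, l_succ w y (a + b + 2), L_def]
  rw [sf, K'_apply, h1, ha, hat_two, h2, show a + b + 3 = a + b + 2 + 1 by ring, h3]
  ring

variable (w y)

/-- the inequality (F1) -/
def F1at (J : List ℕ) (G : Fin q → ℝ) : Prop := 0 ≤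
  (l w y (J.sum + J.length + 1) * Pw w y 1 - Pw w y (J.sum + J.length + 2)) *
    (E w (fun i => G i * sf w y J i) - sa w y J * E w G) +
  (sa w y J * Pw w y 1 - Pw w y (J.sum + J.length + 2)) *
    E w (fun i => G i * kap w y (J.sum + J.length + 1) i)

variable {w y}

theorem X_pos (h : Hyp w y) (a b : ℕ) (i : Fin q) :
    0 < (w i - y) * ch w y (a + 1) i * ch w y (b + 1) i :=
  mul_pos (mul_pos (sub_pos.2 (h.lt i)) (ch_pos h a i)) (ch_pos h b i)

/-- consequence of (F1) for two legs -/
theorem F1_two_bound (h : Hyp w y) {t : Fin q} (ht : Top w t) {G : Fin q → ℝ} (hG : Cone w G)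
    (a b : ℕ) (hF : F1at w y [a, b] G) :
    Pw w y 1 * E w (fun i => G i * kap w y (a + b + 3) i) ≤
      (l w y (a + b + 3) * Pw w y 1 - Pw w y (a + b + 4)) * (w t * G t + E w G) := by
  rw [F1at] at hF
  simp only [List.sum_cons, List.sum_nil, List.length_cons, List.length_nil] at hF
  rw [show a + (b + 0) + (0 + 1 + 1) + 1 = a + b + 3 by ring,
    show a + (b + 0) + (0 + 1 + 1) + 2 = a + b + 4 by ring] at hF
  set X : Fin q → ℝ := fun i => (w i - y) * ch w y (a + 1) i * ch w y (b + 1) i with hX
  have e1 : E w (fun i => G i * sf w y [a, b] i) = l w y (a + b + 3) * E w G -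
      E w (fun i => G i * kap w y (a + b + 3) i) + y * E w (fun i => G i * (w i * X i)) := by
    have e : (fun i => G i * sf w y [a, b] i) = fun i => (l w y (a + b + 3) * G i -
        G i * kap w y (a + b + 3) i) + y * (G i * (w i * X i)) := by
      funext i; rw [sf_two, hat_psi_kap, hX]; ring
    rw [e, E_add', E_sub, E_const_mul, E_const_mul]
  have e2 : sa w y [a, b] = l w y (a + b + 3) - y * E w X := sa_two a b
  rw [e1, e2] at hF
  have hEX : 0 < E w X := E_pos h (X_pos h a b)
  have hle : E w (fun i => G i * (w i * X i)) ≤ w t * G t * E w X := by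
    rw [← E_const_mul]
    refine E_mono h.nn fun i => ?_
    have h1 := mul_le_mul_of_nonneg_right (hG.mono i t (ht i)) (X_pos h a b i).le
    rw [hX]
    simp only
    linarith
  have ht2 := t2_pos h (a + b + 2)
  rw [show a + b + 2 + 1 = a + b + 3 by ring, show a + b + 2 + 2 = a + b + 4 by ring] at ht2
  set t2 := l w y (a + b + 3) * Pw w y 1 - Pw w y (a + b + 4) with ht2'
  set K := E w (fun i => G i * kap w y (a + b + 3) i)
  have hy := h.hy
  have h3 : 0 ≤ y * (t2 * (E w (fun i => G i * (w i * X i)) + E w X * E w G) -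
      E w X * (Pw w y 1 * K)) := by
    have : y * (t2 * (E w (fun i => G i * (w i * X i)) + E w X * E w G) -
      E w X * (Pw w y 1 * K)) = t2 * (l w y (a + b + 3) * E w G - K +
        y * E w (fun i => G i * (w i * X i)) - (l w y (a + b + 3) - y * E w X) * E w G) +
      ((l w y (a + b + 3) - y * E w X) * Pw w y 1 - Pw w y (a + b + 4)) * K := by
      rw [ht2']; ring
    rw [this]
    exact hF
  have h4 := nonneg_of_mul_nonneg_right h3 hy
  have h5 := mul_le_mul_of_nonneg_left hle ht2.le
  refine le_of_mul_le_mul_left ?_ hEX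
  linarith

/-- (F1) for two legs implies (F1) for all spiders -/
theorem F1_of_two (h : Hyp w y) {Λ : ℝ[X]} (hΛ : NN Λ) (a c : ℕ) (J : List ℕ)
    (hF : F1at w y [a + J.sum + J.length, c] (hat w Λ)) :
    F1at w y (a :: (J ++ [c])) (hat w Λ) := by
  obtain ⟨t, ht⟩ := exists_top h
  have hcone := Cone.hat h.nn hΛ
  have hb := F1_two_bound h ht hcone _ c hF
  have hmerge := R_merge_all h ht hΛ (A := w t * hat w Λ t / y)
    (by rw [mul_div_cancel₀ _ h.hy.ne']) c J a
  have hsa := sa_merge_all h J a [c]
  rw [Z_sp, Z_sp, mul_div_cancel₀ _ h.hy.ne'] at hmerge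
  rw [F1at] at hF ⊢
  have n1 : (a :: (J ++ [c])).sum + (a :: (J ++ [c])).length + 1 =
      a + J.sum + J.length + c + 3 := by
    simp only [List.sum_cons, List.length_cons, List.sum_append, List.length_append,
      List.sum_nil, List.length_nil]; ring
  have n2 : (a :: (J ++ [c])).sum + (a :: (J ++ [c])).length + 2 =
      a + J.sum + J.length + c + 4 := by omega
  have n3 : [a + J.sum + J.length, c].sum + [a + J.sum + J.length, c].length + 1 =
      a + J.sum + J.length + c + 3 := by
    simp only [List.sum_cons, List.length_cons, List.sum_nil, List.length_nil]; ring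
  have n4 : [a + J.sum + J.length, c].sum + [a + J.sum + J.length, c].length + 2 =
      a + J.sum + J.length + c + 4 := by omega
  rw [n1, n2]
  rw [n3, n4] at hF
  set t2 := l w y (a + J.sum + J.length + c + 3) * Pw w y 1 -
    Pw w y (a + J.sum + J.length + c + 4) with ht2'
  have ht2 : 0 < t2 := t2_pos h (a + J.sum + J.length + c + 2)
  set K := E w (fun i => hat w Λ i * kap w y (a + J.sum + J.length + c + 3) i)
  set fJ := E w (fun i => hat w Λ i * sf w y (a :: (J ++ [c])) i)
  set fA := E w (fun i => hat w Λ i * sf w y [a + J.sum + J.length, c] i)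
  set sJ := sa w y (a :: (J ++ [c]))
  set sA := sa w y [a + J.sum + J.length, c]
  set r := Pw w y (a + J.sum + J.length + c + 4)
  set TG := w t * hat w Λ t
  set EG := E w (hat w Λ)
  have m1 := mul_le_mul_of_nonneg_left hmerge ht2.le
  have m2 := mul_nonneg (sub_nonneg.2 hsa) (sub_nonneg.2 hb)
  linarith

/-- every spider whose weight at the smallest part is large enough is good, if (F1) holds for the
two-legged spider obtained by merging all legs but one -/
theorem good_of_two (h : Hyp w y) (a c : ℕ) (J : List ℕ)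
    (hgood : Pw w y ((a :: (J ++ [c])).sum + (a :: (J ++ [c])).length + 2) ≤
      sa w y (a :: (J ++ [c])) * Pw w y 1)
    (hF : ∀ G : Fin q → ℝ, Cone w G → F1at w y [a + J.sum + J.length, c] G) :
    Good w y (.cons (R (a :: (J ++ [c]))) .nil) := by
  refine good_of_F1' h _ (by simp) hgood (sa_le h a _) fun Λ hΛ => ?_
  exact F1_of_two h hΛ a c J (hF _ (Cone.hat h.nn hΛ))

end Pool.Agent.Helper4.SW
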