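import Pool.Agent.Helper4.SW.Asm2
import Pool.Agent.Helper31.SW.Tau

/-!
S-world: spiders with two legs are never bad.
-/

set_option autoImplicit false

namespace Pool.Agent.Helper4.SW

open Pool.Agent.Helper6.HL hiding X
open Finset Polynomial

variable {q : ℕ} {w : Fin q → ℝ} {y : ℝ}

/-- polynomial inequality, even case -/
theorem T_even_aux {y r d g : ℝ} (hy : 0 ≤ y) (hr : 0 ≤ r) (hd : 0 ≤ d) (hg : 0 ≤ g) :
    y * ((y + r + d + y + g) + (y + r + d) + y) * (((y + r + d + y + g) + (y + r + d)) ^ 2 +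
      2 * y * ((y + r + d + y + g) + (y + r + d)) - (y + r + d + y + g) ^ 2 - (y + r + d) ^ 2) ≤
    ((y + r + d + y + g) + (y + r + d) + y - (y + r)) *
      (((y + r + d + y + g) + (y + r + d)) * ((y + r + d) + y) - (y + r + d) ^ 2) *
      ((y + r + d) + y + (y + r)) := by
  rw [← sub_nonneg]
  have e : ((y + r + d + y + g) + (y + r + d) + y - (y + r)) *
      (((y + r + d + y + g) + (y + r + d)) * ((y + r + d) + y) - (y + r + d) ^ 2) *
      ((y + r + d) + y + (y + r)) -
      y * ((y + r + d + y + g) + (y + r + d) + y) * (((y + r + d + y + g) + (y + r + d)) ^ 2 +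
      2 * y * ((y + r + d + y + g) + (y + r + d)) - (y + r + d + y + g) ^ 2 - (y + r + d) ^ 2) =
      1*(d^2*g^2) + 3*(d^3*g) + 2*(d^4) + 3*(r*d*g^2) + 11*(r*d^2*g) + 9*(r*d^3) + 2*(r^2*g^2) +
      12*(r^2*d*g) + 14*(r^2*d^2) + 4*(r^3*g) + 9*(r^3*d) + 2*(r^4) + 3*(y*d*g^2) +
      15*(y*d^2*g) + 15*(y*d^3) + 5*(y*r*g^2) + 37*(y*r*d*g) + 50*(y*r*d^2) + 20*(y*r^2*g) +
      50*(y*r^2*d) + 15*(y*r^3) + 2*(y^2*g^2) + 21*(y^2*d*g) + 36*(y^2*d^2) + 26*(y^2*r*g) +
      77*(y^2*r*d) + 36*(y^2*r^2) + 7*(y^3*g) + 30*(y^3*d) + 30*(y^3*r) + 5*(y^4) := by ring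
  rw [e]
  positivity

/-- polynomial inequality, odd case -/
theorem T_odd_aux {y r d g : ℝ} (hy : 0 ≤ y) (hr : 0 ≤ r) (hd : 0 ≤ d) (hg : 0 ≤ g) :
    y * (((y + r + d + y + g) + (y + r + d)) ^ 2 +
      2 * y * ((y + r + d + y + g) + (y + r + d)) - (y + r + d + y + g) ^ 2 - (y + r) ^ 2) *
      ((y + r + d + y + g) + (y + r + d)) ≤
    ((y + r + d + y + g) + y) * (((y + r + d) + y) * (y + r + d + y + g) * (y + r + d) +
      ((y + r + d + y + g) + (y + r + d)) * ((y + r) * ((y + r + d) + y - (y + r)) +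
        (y + r + d) * y)) := by
  rw [← sub_nonneg]
  have e : ((y + r + d + y + g) + y) * (((y + r + d) + y) * (y + r + d + y + g) * (y + r + d) +
      ((y + r + d + y + g) + (y + r + d)) * ((y + r) * ((y + r + d) + y - (y + r)) +
        (y + r + d) * y)) -
      y * (((y + r + d + y + g) + (y + r + d)) ^ 2 +
      2 * y * ((y + r + d + y + g) + (y + r + d)) - (y + r + d + y + g) ^ 2 - (y + r) ^ 2) *
      ((y + r + d + y + g) + (y + r + d)) =
      1*(d^2*g^2) + 2*(d^3*g) + 1*(d^4) + 3*(r*d*g^2) + 9*(r*d^2*g) + 6*(r*d^3) + 1*(r^2*g^2) +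
      9*(r^2*d*g) + 10*(r^2*d^2) + 2*(r^3*g) + 6*(r^3*d) + 1*(r^4) + 3*(y*d*g^2) +
      10*(y*d^2*g) + 6*(y*d^3) + 3*(y*r*g^2) + 26*(y*r*d*g) + 27*(y*r*d^2) + 11*(y*r^2*g) +
      29*(y*r^2*d) + 8*(y*r^3) + 11*(y^2*d*g) + 12*(y^2*d^2) + 13*(y^2*r*g) + 37*(y^2*r*d) +
      19*(y^2*r^2) + 8*(y^3*d) + 14*(y^3*r) := by ring
  rw [e]
  positivity

/-- supermultiplicativity at the top -/
theorem ch_prod (h : Hyp w y) {t : Fin q} (ht : Top w t) (j i : ℕ) :
    (∀ c, ch w y (i + 1) c * ch w y (j + 1) t ≤ ch w y (i + j + 1) c) ∧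
      E w (ch w y i) * ch w y (j + 1) t ≤ E w (ch w y (i + j)) := by
  induction i with
  | zero =>
    refine ⟨fun c => ?_, ?_⟩
    · simp only [zero_add, ch_one, one_mul]
      exact (Cone.ch h.nn h.hy.le (j + 1)).anti c t (ht c)
    · rw [ch_zero]
      have : E w (fun _ => (0 : ℝ)) = 0 := by simp [E]
      rw [this, zero_mul]
      exact E_nonneg h.nn (Cone.ch h.nn h.hy.le _).nn
  | succ i ih =>
    obtain ⟨h1, h2⟩ := ih
    have hT := (ch_pos h j t).le
    refine ⟨fun c => ?_, ?_⟩
    · rw [show i + 1 + 1 = i + 2 by ring, show i + 1 + j + 1 = i + j + 2 by ring, ch_succ_succ,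
        ch_succ_succ]
      have h3 : ch w y (j + 1) t * K' w (ch w y (i + 1)) c ≤ K' w (ch w y (i + j + 1)) c := by
        have e : K' w (ch w y (i + j + 1)) c - ch w y (j + 1) t * K' w (ch w y (i + 1)) c =
            K' w (fun d => ch w y (i + j + 1) d - ch w y (j + 1) t * ch w y (i + 1) d) c := by
          simp only [K'_apply, E_sub, E_const_mul]
          ring
        have h4 := K'_nonneg h.nn (f := fun d => ch w y (i + j + 1) d -
          ch w y (j + 1) t * ch w y (i + 1) d) (fun d => by linarith [h1 d]) c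
        linarith
      have h5 := mul_le_mul_of_nonneg_left h2 h.hy.le
      linarith
    · rw [show i + 1 + j = i + j + 1 by ring, mul_comm, ← E_const_mul]
      exact E_mono h.nn fun d => by linarith [h1 d]

theorem E_split (f : Fin q → ℝ) (t : Fin q) :
    E w f = w t * f t + ∑ d ∈ univ.erase t, w d * f d :=
  (add_sum_erase univ (fun d => w d * f d) (mem_univ t)).symm

theorem Eww_le (h : Hyp w y) (t : Fin q) : E w w ≤ w t ^ 2 + (1 - w t) ^ 2 := by
  rw [E_split w t]
  have h1 : ∑ d ∈ univ.erase t, w d * w d ≤ ∑ d ∈ univ.erase t, w d * (1 - w t) :=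
    sum_le_sum fun d hd => mul_le_mul_of_nonneg_left (le_compl h (ne_of_mem_erase hd)) (h.nn d)
  rw [← sum_mul, sum_erase h t] at h1
  nlinarith

theorem Eww_ge (h : Hyp w y) {t c : Fin q} (hc : c ≠ t) : w t ^ 2 + w c ^ 2 ≤ E w w := by
  have := le_E2 h.nn (f := w) h.nn (Ne.symm hc)
  nlinarith

theorem Pw_one' (h : Hyp w y) : Pw w y 1 = 1 + 2 * y - E w w := by
  have e : l w y 1 = 1 := by
    rw [l_succ' w y 0, zero_add, ch_one, ch_zero, E_one h]
    simp [E]
  rw [Pw_eq, e, l_two h]
  ring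

theorem ch_three (h : Hyp w y) (t : Fin q) :
    ch w y 3 t = 1 - E w w + y - w t * (1 - w t) := by
  rw [ch_succ w y 2, l_two h, ch_two h]

/-- the step of length two at the top -/
theorem Tj_top (h : Hyp w y) {t : Fin q} (ht : Top w t) (j : ℕ) :
    y * Pw w y 1 * ch w y (j + 1) t ≤ (1 + y - w t) * ch w y (j + 3) t := by
  have h1 := (ch_prod h ht j 2).1 t
  rw [show 2 + 1 = 3 by rfl, show 2 + j + 1 = j + 3 by ring, ch_three h] at h1
  have hV := ch_pos h j t
  have hB := top_half h ht
  have hy := h.hy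
  obtain ⟨c, hc⟩ := h.ne t
  have hys : y ≤ 1 - w t := (h.lt c).le.trans (le_compl h hc)
  have hs : 0 < 1 - w t := by linarith [w_lt_one h t]
  have h2 : y * Pw w y 1 ≤ (1 + y - w t) * (1 - E w w + y - w t * (1 - w t)) := by
    rw [Pw_one' h]
    have h3 := Eww_le h t
    have h4 : 0 ≤ 1 - w t := hs.le
    have h5 := mul_le_mul_of_nonneg_left h3 h4
    nlinarith [mul_nonneg (sub_nonneg.2 hys) hy.le, mul_nonneg (mul_nonneg h4 h4) (h.nn t),
      mul_nonneg (sub_nonneg.2 hys) h4]
  have h6 : (1 + y - w t) * ((1 - E w w + y - w t * (1 - w t)) * ch w y (j + 1) t) ≤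
      (1 + y - w t) * ch w y (j + 3) t :=
    mul_le_mul_of_nonneg_left h1 (by linarith)
  have h7 := mul_le_mul_of_nonneg_right h2 hV.le
  linarith

/-- lower bound for the Perron value -/
theorem lam_ge (h : Hyp w y) {t : Fin q} (ht : Top w t) {lam : ℝ}
    (hp : Pool.Agent.Helper31.SW.PerA w y lam) : 1 - w t + y ≤ lam := by
  by_contra hlt
  rw [not_le] at hlt
  have hl0 : 0 < lam := hp.1
  have hsum := Pool.Agent.Helper31.SW.PerA.sum hp
  set μ := 1 - w t + y with hμ
  have hμ0 : 0 < μ := hl0.trans hlt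
  have hy := h.hy
  have hB := top_half h ht
  have hs : 0 < 1 - w t := by linarith [w_lt_one h t]
  have h1 : y / (μ + y) < y / (lam + y) :=
    div_lt_div_of_pos_left hy (by linarith) (by linarith)
  have h2 : ∑ i, w i / (μ + w i) ≤ ∑ i, w i / (lam + w i) := sum_le_sum fun i _ =>
    div_le_div_of_nonneg_left (h.nn i) (by linarith [h.nn i]) (by linarith [h.nn i])
  have h3 : w t / (1 + y) + (1 - w t) / (μ + (1 - w t)) ≤ ∑ i, w i / (μ + w i) := by
    rw [← add_sum_erase univ (fun i => w i / (μ + w i)) (mem_univ t)]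
    refine add_le_add (le_of_eq ?_) ?_
    · rw [hμ]; congr 1; ring
    · rw [← sum_erase h t, sum_div]
      refine sum_le_sum fun i hi => ?_
      have := le_compl h (ne_of_mem_erase hi)
      rw [← sum_erase h t] at this
      exact div_le_div_of_nonneg_left (h.nn i) (by linarith [h.nn i]) (by linarith)
  have h4 : (1 : ℝ) / 2 ≤ w t / (1 + y) := by
    rw [div_le_div_iff₀ (by norm_num) (by linarith)]
    linarith
  have h5 : (1 : ℝ) / 2 ≤ y / (μ + y) + (1 - w t) / (μ + (1 - w t)) := by
    rw [hμ, div_add_div _ _ (by positivity) (by positivity),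
      div_le_div_iff₀ (by norm_num) (by positivity)]
    nlinarith [mul_pos hs hy]
  linarith

/-- even positions: the big parts win against the smallest one -/
theorem even_y (h : Hyp w y) (c : Fin q) (n : ℕ) :
    y * E w (ch w y (2 * n)) ≤ w c * ch w y (2 * n + 1) c := by
  induction n with
  | zero =>
    rw [mul_zero, zero_add, ch_zero, ch_one]
    simp [E]
    exact h.nn c
  | succ n ih =>
    have h1 := l_succ' w y (2 * n)
    have h2 : ch w y (2 * n + 2) c = l w y (2 * n + 1) - w c * ch w y (2 * n + 1) c :=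
      ch_succ w y (2 * n + 1) c
    have h3 : ch w y (2 * n + 1 + 2) c = l w y (2 * n + 2) - w c * ch w y (2 * n + 2) c :=
      ch_succ w y (2 * n + 2) c
    have h4 := l_succ' w y (2 * n + 1)
    rw [show 2 * n + 1 + 1 = 2 * n + 2 by ring] at h4
    have h5 := le_E h.nn (Cone.ch h.nn h.hy.le (2 * n + 2)).nn c
    have h8 : E w (ch w y (2 * n + 1)) - ch w y (2 * n + 2) c =
        w c * ch w y (2 * n + 1) c - y * E w (ch w y (2 * n)) := by
      rw [h2, h1]; ring
    have h9 := mul_nonneg (sub_nonneg.2 (h.lt c).le) (sub_nonneg.2 h5)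
    have h10 := mul_nonneg (mul_nonneg (h.nn c) h.hy.le) (sub_nonneg.2 ih)
    have h11 : w c * ch w y (2 * n + 1 + 2) c - y * E w (ch w y (2 * n + 2)) =
      (w c - y) * (E w (ch w y (2 * n + 2)) - w c * ch w y (2 * n + 2) c) +
        w c * y * (E w (ch w y (2 * n + 1)) - ch w y (2 * n + 2) c) := by
      rw [h3, h4]; ring
    rw [h8] at h11
    rw [show 2 * (n + 1) = 2 * n + 2 by ring, show 2 * n + 2 + 1 = 2 * n + 1 + 2 by ring]
    linarith

theorem odd_y (h : Hyp w y) (c : Fin q) (n : ℕ) :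
    ch w y (2 * n + 2) c ≤ E w (ch w y (2 * n + 1)) := by
  have h1 := l_succ' w y (2 * n)
  have h2 : ch w y (2 * n + 2) c = l w y (2 * n + 1) - w c * ch w y (2 * n + 1) c :=
    ch_succ w y (2 * n + 1) c
  have h3 := even_y h c n
  linarith

theorem Tj (h : Hyp w y) {t : Fin q} (ht : Top w t) (j : ℕ) (c : Fin q) :
    y * Pw w y 1 * ch w y (j + 1) c ≤ (1 + y - w c) * ch w y (j + 3) t := by
  rcases eq_or_ne c t with rfl | hc
  · exact Tj_top h ht j
  have hy := h.hy
  have hB := top_half h ht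
  have hcs := le_compl h hc
  have hs : 0 < 1 - w t := by linarith [w_lt_one h t]
  have hct := ht c
  have hyc := h.lt c
  have hV := ch_pos h j c
  have hVt := ch_pos h j t
  set s := 1 - w t with hsd
  have hts : w t = 1 - s := by rw [hsd]; ring
  rcases Nat.even_or_odd j with hj | hj
  · -- even
    obtain ⟨lam, hp⟩ := Pool.Agent.Helper31.SW.exists_perA h
    have h1 := ((Pool.Agent.Helper31.SW.lim_alt h hp ht (j + 1)).1 (hj.add_one)).1 c
    have hl := lam_ge h ht hp
    rw [← hsd] at hl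
    have hl0 : 0 < lam := hp.1
    have h2 : (s + y + w c) * ch w y (j + 1) c ≤ (1 + y) * ch w y (j + 1) t := by
      have a1 : 0 < lam + w c := by linarith [h.pos c]
      refine le_of_mul_le_mul_left ?_ a1
      have a2 : (s + y + w c) * ((lam + w c) * ch w y (j + 1) c) ≤
          (s + y + w c) * ((lam + w t) * ch w y (j + 1) t) :=
        mul_le_mul_of_nonneg_left h1 (by linarith [h.pos c])
      have a3 : (s + y + w c) * (lam + w t) ≤ (lam + w c) * (1 + y) := by
        rw [hts]
        rw [hts] at hct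
        nlinarith [mul_nonneg (sub_nonneg.2 hl) (sub_nonneg.2 hct)]
      have a4 := mul_le_mul_of_nonneg_right a3 hVt.le
      linarith
    have h3 := (ch_prod h ht j 2).1 t
    rw [show 2 + 1 = 3 by rfl, show 2 + j + 1 = j + 3 by ring, ch_three h] at h3
    have h4 := Eww_le h t
    rw [← hsd] at h4
    have haux := T_even_aux hy.le (sub_nonneg.2 hyc.le) (sub_nonneg.2 hcs)
      (show 0 ≤ w t - (s + y) by linarith)
    have e1 : y + (w c - y) + (s - w c) = s := by ring
    have e2 : s + y + (w t - (s + y)) = w t := by ring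
    have e3 : y + (w c - y) = w c := by ring
    have e4 : w t + s = 1 := by rw [hsd]; ring
    rw [e1, e2, e3, e4] at haux
    -- monotonicity in `E w w`
    have h5 : y * (1 + y) * (1 + 2 * y - E w w) ≤
        (1 + y - w c) * (1 - E w w + y - w t * (1 - w t)) * (s + y + w c) := by
      have c1 : y * (1 + y) ≤ (1 + y - w c) * (s + y + w c) := by
        have b1 : (1 + y) / 2 ≤ 1 + y - w c := by linarith
        have b2 : 2 * y ≤ s + y + w c := by linarith
        have := mul_le_mul b1 b2 (by linarith) (by linarith)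
        linarith
      have c2 := mul_nonneg (sub_nonneg.2 h4) (sub_nonneg.2 c1)
      have c3 : (1 - E w w + y - w t * (1 - w t)) = (1 * (s + y) - s ^ 2) +
          (w t ^ 2 + s ^ 2 - E w w) := by rw [hsd]; ring
      rw [c3]
      linarith
    have h6 : 0 ≤ 1 + y - w c := by linarith [w_lt_one h c]
    have hch3 : 0 < ch w y 3 t := ch_pos h 2 t
    rw [ch_three h] at hch3
    rw [Pw_one' h]
    have g1 := mul_le_mul_of_nonneg_left h3 h6
    have g2 := mul_le_mul_of_nonneg_right h5 hV.le
    have g3 := mul_le_mul_of_nonneg_left h2 (mul_nonneg h6 hch3.le)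
    refine le_of_mul_le_mul_left ?_ (show 0 < 1 + y by linarith)
    have g4 := mul_le_mul_of_nonneg_left g1 (show 0 ≤ 1 + y by linarith)
    linarith
  · -- odd
    obtain ⟨n, rfl⟩ := hj
    have hVy := odd_y h c n
    rw [show 2 * n + 1 + 1 = 2 * n + 2 by ring, show 2 * n + 1 + 3 = 2 * n + 2 + 2 by ring] at *
    set V := ch w y (2 * n + 2) with hVd
    -- the two-step formula
    have f1 : ch w y (2 * n + 2 + 2) t = (s + y) * E w V + s * y * E w (ch w y (2 * n + 1)) -
        ∑ d ∈ univ.erase t, w d * (w d * V d) := by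
      have a1 : ch w y (2 * n + 2 + 2) t = y * E w V + K' w (ch w y (2 * n + 2 + 1)) t := by
        rw [ch_succ_succ]
      have a2 : ∀ d, ch w y (2 * n + 2 + 1) d = y * E w (ch w y (2 * n + 1)) + K' w V d := by
        intro d
        rw [show 2 * n + 2 + 1 = 2 * n + 1 + 2 by ring, ch_succ_succ]
      rw [a1, K'_apply, E_split (ch w y (2 * n + 2 + 1)) t, add_sub_cancel_left]
      have a3 : ∑ d ∈ univ.erase t, w d * ch w y (2 * n + 2 + 1) d =
          s * (y * E w (ch w y (2 * n + 1)) + E w V) - ∑ d ∈ univ.erase t, w d * (w d * V d) := by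
        rw [hsd, ← sum_erase h t, sum_mul, ← sum_sub_distrib]
        refine sum_congr rfl fun d _ => ?_
        rw [a2, K'_apply]
        ring
      rw [a3]
      ring
    have f2 : w t * V t * (s + y) + (s + y - w c) * (w c * V c) ≤
        (s + y) * E w V - ∑ d ∈ univ.erase t, w d * (w d * V d) := by
      have g0 : (s + y) * E w V - ∑ d ∈ univ.erase t, w d * (w d * V d) =
          w t * V t * (s + y) + ∑ d ∈ univ.erase t,
            ((s + y) * (w d * V d) - w d * (w d * V d)) := by
        rw [E_split V t, sum_sub_distrib, ← mul_sum]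
        ring
      rw [g0]
      refine add_le_add le_rfl ?_
      have g1 : (s + y - w c) * (w c * V c) = (s + y) * (w c * V c) - w c * (w c * V c) := by ring
      rw [g1]
      refine single_le_sum (f := fun d => (s + y) * (w d * V d) - w d * (w d * V d))
        (fun d hd => ?_) (mem_erase.2 ⟨hc, mem_univ c⟩)
      have g2 := le_compl h (ne_of_mem_erase hd)
      have g3 : 0 ≤ w d * V d := mul_nonneg (h.nn d) ((Cone.ch h.nn hy.le _).nn d)
      have g4 := mul_nonneg (show 0 ≤ s + y - w d by linarith) g3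
      linarith
    have f3 : s * V c ≤ V t := by
      have g1 := R2_le h ht (2 * n + 1) c
      rw [show 2 * n + 1 + 1 = 2 * n + 2 by ring, ← hsd] at g1
      have g2 := mul_nonneg (h.nn c) hVt.le
      linarith
    have haux := T_odd_aux hy.le (sub_nonneg.2 hyc.le) (sub_nonneg.2 hcs)
      (show 0 ≤ w t - (s + y) by linarith)
    have e1 : y + (w c - y) + (s - w c) = s := by ring
    have e2 : s + y + (w t - (s + y)) = w t := by ring
    have e3 : y + (w c - y) = w c := by ring
    have e4 : w t + s = 1 := by rw [hsd]; ring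
    rw [e1, e2, e3, e4] at haux
    have h5 : Pw w y 1 ≤ 1 + 2 * y - w t ^ 2 - w c ^ 2 := by
      rw [Pw_one' h]
      linarith [Eww_ge h hc]
    have h6 : V c * ((s + y) * w t * s + (w c * (s + y - w c) + s * y)) ≤
        ch w y (2 * n + 2 + 2) t := by
      have g1 := mul_le_mul_of_nonneg_left f3 (mul_nonneg (show 0 ≤ s + y by linarith) (h.nn t))
      have g2 := mul_le_mul_of_nonneg_left hVy (mul_nonneg hs.le hy.le)
      rw [f1]
      linarith
    have hpos : 0 ≤ V c * ((s + y) * w t * s + (w c * (s + y - w c) + s * y)) := by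
      have := h.pos t
      have := h.pos c
      have : 0 ≤ s + y - w c := by linarith
      positivity
    have g5 : (w t + y) * (V c * ((s + y) * w t * s + (w c * (s + y - w c) + s * y))) ≤
        (1 + y - w c) * ch w y (2 * n + 2 + 2) t :=
      mul_le_mul (by linarith) h6 hpos (by linarith [w_lt_one h c])
    have g6 := mul_le_mul_of_nonneg_right haux hV.le
    have g7 := mul_le_mul_of_nonneg_right (mul_le_mul_of_nonneg_left h5 hy.le) hV.le
    linarith

/-- (T) -/
theorem notBadTwo (h : Hyp w y) : NotBadTwo w y := by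
  intro a b hbad
  obtain ⟨t, ht⟩ := exists_top h
  rw [Bad] at hbad
  simp only [List.sum_cons, List.sum_nil, List.length_cons, List.length_nil] at hbad
  rw [show a + (b + 0) + (0 + 1 + 1) + 2 = 1 + (a + b + 3) by ring, sa_two] at hbad
  have h1 := t2_eq (w := w) (y := y) (a + b + 3)
  have h2 : y * Pw w y 1 * E w (fun i => (w i - y) * ch w y (a + 1) i * ch w y (b + 1) i) ≤
      E w (fun i => hat w (psi w y 1) i * kap w y (a + b + 3) i) := by
    rw [← E_const_mul]
    refine E_mono h.nn fun c => ?_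
    have e1 : hat w (psi w y 1) c = 1 + y - w c := by
      rw [hat_psi', ch_two h, ch_one]; ring
    have h3 := (ch_prod h ht (b + 2) a).1 c
    rw [show a + (b + 2) + 1 = a + b + 3 by ring, show b + 2 + 1 = b + 3 by ring] at h3
    have h4 := Tj h ht b c
    have hu : 0 ≤ w c - y := (sub_pos.2 (h.lt c)).le
    have ha := (ch_pos h a c).le
    have h5 : 0 ≤ 1 + y - w c := by linarith [w_lt_one h c, h.hy]
    rw [e1, kap]
    have h6 := mul_le_mul_of_nonneg_left h4 (mul_nonneg hu ha)
    have h7 := mul_le_mul_of_nonneg_left h3 (mul_nonneg hu h5)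
    linarith
  linarith

end Pool.Agent.Helper4.SW
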