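import Pool.Agent.Helper4.SW.F1

/-!
S-world: final assembly.  A spider `J` is bad if its weight at the smallest part is too small for
the deletion certificate.
-/

set_option autoImplicit false

namespace Pool.Agent.Helper4.SW

open Pool.Agent.Helper6.HL hiding X
open Finset Polynomial

variable {q : ℕ} (w : Fin q → ℝ) (y : ℝ)

/-- bad spiders -/
def Bad (J : List ℕ) : Prop := sa w y J * Pw w y 1 < Pw w y (J.sum + J.length + 2)

/-- (G) every spider that is not bad is good anywhere -/
def GoodG : Prop := ∀ J : List ℕ, 2 ≤ J.length → ¬ Bad w y J → Good w y (.cons (R J) .nil)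

/-- (T) spiders with two legs are never bad -/
def NotBadTwo : Prop := ∀ a b : ℕ, ¬ Bad w y [a, b]

/-- (C) `v - g`, all children of `g` are bad spiders -/
def GoodC : Prop := ∀ Js : List (List ℕ), Js ≠ [] → (∀ K ∈ Js, 3 ≤ K.length ∧ Bad w y K) →
  Good w y (.cons (Sp Js) .nil)

/-- (D1) `v - g`, the children of `g` are bad spiders and exactly one leg -/
def GoodD1 : Prop := ∀ (c : ℕ) (Js : List (List ℕ)), Js ≠ [] →
  (∀ K ∈ Js, 3 ≤ K.length ∧ Bad w y K) → Good w y (.cons ((Sp Js).app (R [c])) .nil)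

/-- (D2) a bad spider and two legs -/
def GoodD2 : Prop := ∀ (c d : ℕ) (J : List ℕ), 3 ≤ J.length → Bad w y J →
  Good w y (.cons (R J) (R [c, d]))

/-- (D) a bad spider and a leg, anywhere -/
def GoodD : Prop := ∀ (c : ℕ) (J : List ℕ), 3 ≤ J.length → Bad w y J →
  Good w y (.cons (R J) (R [c]))

variable {w y}

theorem D1_of_D (h : Hyp w y) (hD : GoodD w y) : GoodD1 w y := by
  intro c Js h0 h1
  cases Js with
  | nil => exact absurd rfl h0
  | cons K Ks =>
    obtain ⟨h2, h3⟩ := h1 K (by simp)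
    refine Good.cons_left h.nn h.hy.le ?_ .nil
    have e1 : Sim w y (B.app (.cons (R K) (R [c])) (Sp Ks)) ((Sp (K :: Ks)).app (R [c])) := by
      have a1 : B.app (.cons (R K) (R [c])) (Sp Ks) = .cons (R K) ((R [c]).app (Sp Ks)) := rfl
      have a2 : (Sp (K :: Ks)).app (R [c]) = .cons (R K) ((Sp Ks).app (R [c])) := rfl
      rw [a1, a2]
      exact Sim.cons (Sim.refl _) (Sim.app_comm _ _)
    exact Good.sim e1 ((hD c K h2 h3).app_right h.nn h.hy.le _)

theorem D2_of_D (h : Hyp w y) (hD : GoodD w y) : GoodD2 w y := by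
  intro c d J h2 h3
  have := (hD c J h2 h3).app_right h.nn h.hy.le (R [d])
  exact this

theorem Sp_good' (h : Hyp w y) (hG : GoodG w y) {Js : List (List ℕ)}
    (hJs : ∀ K ∈ Js, 2 ≤ K.length) (hex : ∃ K ∈ Js, ¬ Bad w y K) : Good w y (Sp Js) := by
  induction Js with
  | nil => simp at hex
  | cons K Ks ih =>
    by_cases hK : Bad w y K
    · obtain ⟨K', hK', hK'3⟩ := hex
      rw [List.mem_cons] at hK'
      rcases hK' with rfl | hK'
      · exact absurd hK hK'3
      · exact (ih (fun M hM => hJs M (by simp [hM])) ⟨K', hK', hK'3⟩).cons_right h.nn h.hy.le (R K)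
    · exact (hG K (hJs K (by simp)) hK).app_right h.nn h.hy.le (Sp Ks)

theorem G2_good' (h : Hyp w y) (hT : NotBadTwo w y) (hG : GoodG w y) (hC : GoodC w y)
    (hD1 : GoodD1 w y) (hD2 : GoodD2 w y) (g : B) (hg : G2 w y g) : Good w y (.cons g .nil) := by
  obtain ⟨Js, J, h0, h1, hsim⟩ := hg
  by_cases hex : ∃ K ∈ Js, ¬ Bad w y K
  · refine Good.cons_left h.nn h.hy.le (Good.sim hsim.symm ?_) .nil
    exact (Sp_good' h hG h1 hex).app_right h.nn h.hy.le (R J)
  have hbad : ∀ K ∈ Js, 3 ≤ K.length ∧ Bad w y K := fun K hK => by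
    have hb : Bad w y K := by
      by_contra hc
      exact hex ⟨K, hK, hc⟩
    refine ⟨?_, hb⟩
    have hl := h1 K hK
    by_contra hc
    obtain ⟨a, b, rfl⟩ : ∃ a b, K = [a, b] := by
      match K, hl, hc with
      | [a, b], _, _ => exact ⟨a, b, rfl⟩
      | a :: b :: c :: K, _, hc => exact absurd (by simp) hc
    exact hT a b hb
  match J with
  | [] =>
    refine Good.sim (Sim.cons hsim.symm (Sim.refl _)) ?_
    rw [R, app_nil]
    exact hC Js h0 hbad
  | [c] => exact Good.sim (Sim.cons hsim.symm (Sim.refl _)) (hD1 c Js h0 hbad)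
  | c :: d :: J' =>
    cases Js with
    | nil => exact absurd rfl h0
    | cons K Ks =>
      obtain ⟨h2, h3⟩ := hbad K (by simp)
      refine Good.cons_left h.nn h.hy.le (Good.sim hsim.symm ?_) .nil
      have e1 : Sim w y (B.app (.cons (R K) (R [c, d])) (B.app (Sp Ks) (R J')))
          (B.app (Sp (K :: Ks)) (R (c :: d :: J'))) := by
        have a1 : B.app (.cons (R K) (R [c, d])) (B.app (Sp Ks) (R J')) =
            .cons (R K) (B.app (B.app (R [c, d]) (Sp Ks)) (R J')) := by
          rw [app_assoc]; rfl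
        have a2 : B.app (Sp (K :: Ks)) (R (c :: d :: J')) =
            .cons (R K) (B.app (B.app (Sp Ks) (R [c, d])) (R J')) := by
          rw [app_assoc]; rfl
        rw [a1, a2]
        exact Sim.cons (Sim.refl _) (Sim.app (Sim.app_comm _ _) (Sim.refl _))
      exact Good.sim e1 ((hD2 c d K h2 h3).app_right h.nn h.hy.le _)

end Pool.Agent.Helper4.SW
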