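import Pool.Agent.Helper4.SW.Asm

/-!
S-world, case (A) (helper20): a terminal spider whose neighbour has degree two.
-/

set_option autoImplicit false

namespace Pool.Agent.Helper4.SW

open Pool.Agent.Helper6.HL hiding X
open Finset Polynomial

variable {q : ℕ} {w : Fin q → ℝ} {y : ℝ}

/-- symmetrisation of double sums -/
theorem dsum_nonneg (w : Fin q → ℝ) (c : Fin q → Fin q → ℝ)
    (h : ∀ i j, w i ≤ w j → 0 ≤ c i j + c j i) : 0 ≤ ∑ i, ∑ j, c i j := by
  have h1 : ∑ i, ∑ j, c i j = ∑ i, ∑ j, c j i := sum_comm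
  have h2 : 2 * ∑ i, ∑ j, c i j = ∑ i, ∑ j, (c i j + c j i) := by
    simp only [sum_add_distrib]
    linarith
  have h3 : 0 ≤ ∑ i, ∑ j, (c i j + c j i) := sum_nonneg fun i _ => sum_nonneg fun j _ => by
    rcases le_total (w i) (w j) with hij | hij
    · exact h i j hij
    · rw [add_comm]; exact h j i hij
  linarith

/-- Chebyshev's inequality with weights `u X`, `u Y`, `X / Y` increasing, `s` decreasing -/
theorem cheb (w : Fin q → ℝ) {u X Y s : Fin q → ℝ} (hu : ∀ i, 0 ≤ u i)
    (hXY : ∀ i j, w i ≤ w j → X i * Y j ≤ X j * Y i) (hs : ∀ i j, w i ≤ w j → s j ≤ s i) :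
    (∑ i, u i * X i * s i) * (∑ i, u i * Y i) ≤ (∑ i, u i * Y i * s i) * ∑ i, u i * X i := by
  have h := dsum_nonneg w (fun i j => u i * Y i * s i * (u j * X j) - u i * X i * s i * (u j * Y j))
    (fun i j hij => by
      have h1 : u i * Y i * s i * (u j * X j) - u i * X i * s i * (u j * Y j) +
          (u j * Y j * s j * (u i * X i) - u j * X j * s j * (u i * Y i)) =
          u i * u j * ((X j * Y i - X i * Y j) * (s i - s j)) := by ring
      rw [h1]
      exact mul_nonneg (mul_nonneg (hu i) (hu j))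
        (mul_nonneg (sub_nonneg.2 (hXY i j hij)) (sub_nonneg.2 (hs i j hij))))
  simp only [sum_sub_distrib, ← mul_sum, ← sum_mul] at h
  linarith

theorem E_def (f : Fin q → ℝ) : E w f = ∑ i, w i * f i := rfl

theorem L_C (h : Hyp w y) (r : ℝ) : L w (C r) = r := by
  rw [L_def, hat_C]
  exact E_const h r

theorem hat_const_mul (r : ℝ) (p : ℝ[X]) (k : Fin q) : hat w (C r * p) k = r * hat w p k := by
  rw [hat_C_mul]; rfl

/-- the value of the tree `v - g - c` in a context at `v` -/
theorem Z_chain (A : ℝ) (Λ : ℝ[X]) (c : B) : Z w y A Λ (.cons (.cons c .nil) .nil) =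
    Z w y (L w (C (y * A) + Polynomial.X * Λ)) (C (y * L w Λ) +
      Polynomial.X * (C (y * A) + Polynomial.X * Λ)) c := by
  have e1 : (st w y B.nil).a = 1 := rfl
  have e2 : (st w y B.nil).p = 1 := rfl
  rw [Z_cons, Z_cons, e1, e2]
  simp only [mul_one]

/-- moving a leg from the top of the chain down: the difference -/
theorem chain_leg (h : Hyp w y) (A : ℝ) (Λ : ℝ[X]) (b : ℕ) (s : B) :
    Z w y A Λ (.cons (.cons (.cons (.path b) s) .nil) .nil) =
      Z w y A Λ (.cons (.path b) (.cons (.cons s .nil) .nil)) +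
      y * E w (fun k => (w k - y) * ch w y (b + 1) k *
        (K' w (hat w Λ) k * ((st w y s).a - hat w (st w y s).p k) +
          K' w (hat w (st w y s).p) k * (hat w Λ k - A))) := by
  have e2 : Z w y A Λ (.cons (.path b) (.cons (.cons s .nil) .nil)) =
      Z w y (A * l w y (b + 1)) (Λ * psi w y (b + 1)) (.cons (.cons s .nil) .nil) := by
    have : Sim w y (.cons (.path b) (.cons (.cons s .nil) .nil))
        ((B.cons (.cons s .nil) .nil).app (B.path (b + 1))) :=
      Sim.app_comm (B.path (b + 1)) (.cons (.cons s .nil) .nil)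
    rw [this.Z_eq, Z_app]
    rfl
  have e3 : (st w y (B.cons (.path b) s)) = ⟨l w y (b + 1) * (st w y s).a,
      psi w y (b + 1) * (st w y s).p⟩ := st_app w y (B.path (b + 1)) s
  rw [e2, Z_chain, Z_chain, Z, Z, e3]
  simp only
  set P := (st w y s).a
  set F := (st w y s).p
  set lb := l w y (b + 1)
  set ψ := psi w y (b + 1)
  have hψ : ∀ k, hat w ψ k = lb - (w k - y) * ch w y (b + 1) k := hat_psi w y (b + 1)
  -- evaluate all the functionals
  have f1 : L w (C (y * A) + Polynomial.X * Λ) = y * A + L w (Polynomial.X * Λ) := by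
    rw [map_add, L_C h]
  have f2 : L w (C (y * (A * lb)) + Polynomial.X * (Λ * ψ)) =
      y * (A * lb) + L w (Polynomial.X * (Λ * ψ)) := by
    rw [map_add, L_C h]
  have f3 : L w ((C (y * L w Λ) + Polynomial.X * (C (y * A) + Polynomial.X * Λ)) * (ψ * F)) =
      y * L w Λ * L w (ψ * F) + y * A * L w (Polynomial.X * (ψ * F)) +
        L w (Polynomial.X * (Polynomial.X * Λ) * (ψ * F)) := by
    have : (C (y * L w Λ) + Polynomial.X * (C (y * A) + Polynomial.X * Λ)) * (ψ * F) =
        C (y * L w Λ) * (ψ * F) + C (y * A) * (Polynomial.X * (ψ * F)) +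
          Polynomial.X * (Polynomial.X * Λ) * (ψ * F) := by ring
    rw [this, map_add, map_add, L_C_mul, L_C_mul]
  have f4 : L w ((C (y * L w (Λ * ψ)) + Polynomial.X * (C (y * (A * lb)) +
      Polynomial.X * (Λ * ψ))) * F) =
      y * L w (Λ * ψ) * L w F + y * (A * lb) * L w (Polynomial.X * F) +
        L w (Polynomial.X * (Polynomial.X * Λ) * (ψ * F)) := by
    have : (C (y * L w (Λ * ψ)) + Polynomial.X * (C (y * (A * lb)) +
        Polynomial.X * (Λ * ψ))) * F =
        C (y * L w (Λ * ψ)) * F + C (y * (A * lb)) * (Polynomial.X * F) +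
          Polynomial.X * (Polynomial.X * Λ) * (ψ * F) := by ring
    rw [this, map_add, map_add, L_C_mul, L_C_mul]
  rw [f1, f2, f3, f4]
  have hδ : ∀ G : ℝ[X], lb * L w G - L w (G * ψ) =
      E w (fun k => (w k - y) * ch w y (b + 1) k * hat w G k) := by
    intro G
    rw [L_mul, L_def, ← E_const_mul, ← E_sub]
    congr 1
    funext k
    rw [hψ]
    ring
  have g1 := hδ (Polynomial.X * Λ)
  have g2 := hδ Λ
  have g3 := hδ F
  have g4 := hδ (Polynomial.X * F)
  have e4 : L w (Polynomial.X * (Λ * ψ)) = L w (Polynomial.X * Λ * ψ) := by rw [mul_assoc]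
  have e5 : L w (ψ * F) = L w (F * ψ) := by rw [mul_comm]
  have e6 : L w (Polynomial.X * (ψ * F)) = L w (Polynomial.X * F * ψ) := by
    rw [mul_comm ψ, mul_assoc]
  rw [e4, e5, e6]
  have e7 : E w (fun k => (w k - y) * ch w y (b + 1) k *
        (K' w (hat w Λ) k * (P - hat w F k) + K' w (hat w F) k * (hat w Λ k - A))) =
      P * E w (fun k => (w k - y) * ch w y (b + 1) k * hat w (Polynomial.X * Λ) k) +
      L w F * E w (fun k => (w k - y) * ch w y (b + 1) k * hat w Λ k) -
      L w Λ * E w (fun k => (w k - y) * ch w y (b + 1) k * hat w F k) -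
      A * E w (fun k => (w k - y) * ch w y (b + 1) k * hat w (Polynomial.X * F) k) := by
    rw [← E_const_mul, ← E_const_mul, ← E_const_mul, ← E_const_mul, ← E_add', ← E_sub, ← E_sub]
    congr 1
    funext k
    rw [hat_X_mul, hat_X_mul, K'_apply, K'_apply, L_def, L_def]
    ring
  rw [e7, ← g1, ← g2, ← g3, ← g4]
  ring

theorem aeval_const (p : ℝ[X]) (r : ℝ) (k : Fin q) :
    aeval (K' w) p (fun _ => r) k = r * hat w p k := by
  have : (fun _ : Fin q => r) = r • (fun _ => (1 : ℝ)) := by
    funext i; simp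
  rw [this, map_smul, ← hat_def]
  rfl

/-- (Λ p)^ ≤ a Λ^ when p^ ≤ a -/
theorem hat_mul_le (hw : ∀ i, 0 ≤ w i) {Λ p : ℝ[X]} (hΛ : NN Λ) {a : ℝ}
    (hp : ∀ k, hat w p k ≤ a) (k : Fin q) : hat w (Λ * p) k ≤ a * hat w Λ k := by
  rw [hat_mul, ← aeval_const]
  exact aeval_mono hw hΛ hp k

theorem caseA (h : Hyp w y) : CaseA w y := by
  intro a b J A Λ hA hΛ
  have hw := h.nn
  have hy := h.hy.le
  set p := (st w y (R J)).a with hp
  set φ := (st w y (R J)).p with hφ
  have hpφ := st_nonneg hw hy (R J)
  have hdef := R_defect h J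
  have hb : Cone w (hat w Λ) := Cone.hat hw hΛ
  -- the weights
  set u : Fin q → ℝ := fun k => w k * ((w k - y) * ch w y (b + 1) k) with hu
  have hu0 : ∀ k, 0 ≤ u k := fun k => mul_nonneg (hw k)
    (mul_nonneg (sub_nonneg.2 (h.lt k).le) ((Cone.ch hw hy _).nn k))
  set F := (st w y (R (a :: J))).p with hF
  have hFn : NN F := (st_nonneg hw hy _).2
  have hFc : Cone w (K' w (hat w F)) := (Cone.hat hw hFn).K' hw
  by_cases hm : 0 ≤ ∑ k, u k * (w k * ch w y (a + 1) k) * (A - hat w Λ k)
  · -- merge
    refine ⟨.cons (.cons (R ((a + b + 1) :: J)) .nil) .nil, ⟨?_, Or.inl ?_⟩, ?_⟩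
    · simp only [R, B.size, B.size_path]; omega
    · have h1 := lv_R ((a + b + 1) :: J)
      have h2 := lv_R (a :: b :: J)
      rw [List.length_cons] at h1 h2
      rw [List.length_cons] at h2
      simp only [lv, h1, h2]
      omega
    · rw [Z_chain, Z_chain, R, R, R, Z_merge]
      refine le_add_of_nonneg_right (mul_nonneg hy ?_)
      set Aw := L w (C (y * A) + Polynomial.X * Λ) with hAw
      set Γw := (C (y * L w Λ) + Polynomial.X * (C (y * A) + Polynomial.X * Λ)) with hΓw
      have hΛL := L_nonneg hw hΛ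
      have hΓ1 : NN (C (y * A) + Polynomial.X * Λ) := (NN.C (mul_nonneg hy hA)).add (NN.X.mul hΛ)
      have hΓn : NN Γw := (NN.C (mul_nonneg hy hΛL)).add (NN.X.mul hΓ1)
      have hAwv : Aw = y * A + E w (K' w (hat w Λ)) := by
        rw [hAw, map_add, L_C h, L_def, hat_X_mul]
      have hΓv : ∀ k, hat w Γw k = y * L w Λ + (Aw - w k * (y * A + K' w (hat w Λ) k)) := by
        intro k
        rw [hΓw, map_add, Pi.add_apply, hat_C, hat_X_mul, K'_apply, ← L_def, ← hAw, map_add,
          hat_C, hat_X_mul, Pi.add_apply]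
      have key : ∀ k, (Aw - hat w Γw k) = (w k - y) * K' w (hat w Λ) k +
          w k * y * (A - hat w Λ k) := by
        intro k
        rw [hΓv, K'_apply, L_def]
        ring
      have hge : ∀ k, p * (Aw - hat w Γw k) ≤ Aw * p - hat w (Γw * φ) k := by
        intro k
        have := hat_mul_le hw hΓn (fun k => sub_nonneg.1 (hdef k)) k
        linarith
      calc (0 : ℝ) ≤ p * (y * ∑ k, u k * (w k * ch w y (a + 1) k) * (A - hat w Λ k)) +
            p * ∑ k, u k * ch w y (a + 1) k * ((w k - y) * K' w (hat w Λ) k) := by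
            refine add_nonneg (mul_nonneg hpφ.1 (mul_nonneg hy hm))
              (mul_nonneg hpφ.1 (sum_nonneg fun k _ => ?_))
            exact mul_nonneg (mul_nonneg (hu0 k) ((Cone.ch hw hy _).nn k))
              (mul_nonneg (sub_nonneg.2 (h.lt k).le) ((hb.K' hw).nn k))
        _ = ∑ k, w k * ((w k - y) * ch w y (a + 1) k * ch w y (b + 1) k *
              (p * (Aw - hat w Γw k))) := by
            rw [mul_sum, mul_sum, mul_sum, ← sum_add_distrib]
            refine sum_congr rfl fun k _ => ?_
            rw [key k]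
            simp only [hu]
            ring
        _ ≤ _ := by
            rw [E]
            refine sum_le_sum fun k _ => mul_le_mul_of_nonneg_left ?_ (hw k)
            refine mul_le_mul_of_nonneg_left (hge k) ?_
            exact mul_nonneg (mul_nonneg (sub_nonneg.2 (h.lt k).le) ((Cone.ch hw hy _).nn k))
              ((Cone.ch hw hy _).nn k)
  · -- leg `b` to `v`
    rw [not_le] at hm
    have hsim : Sim w y (.cons (.cons (R (a :: b :: J)) .nil) .nil)
        (.cons (.cons (.cons (.path b) (R (a :: J))) .nil) .nil) :=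
      Sim.cons (Sim.cons (Sim.swap _ _ _) (Sim.refl _)) (Sim.refl _)
    refine ⟨.cons (.path b) (.cons (.cons (R (a :: J)) .nil) .nil), ⟨?_, ?_⟩, ?_⟩
    · simp only [R, B.size, B.size_path]; omega
    · have h3 := lv_path b
      simp only [lv, td, B.size, R, B.size_path]
      right
      constructor <;> omega
    · rw [hsim.Z_eq, chain_leg h]
      refine le_add_of_nonneg_right (mul_nonneg hy ?_)
      have hdefF := R_defect h (a :: J)
      have h1 : 0 ≤ ∑ k, u k * (K' w (hat w F) k) * (hat w Λ k - A) := by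
        have hc := cheb w (u := u) (X := fun k => w k * ch w y (a + 1) k)
          (Y := fun k => K' w (hat w F) k) (s := fun k => hat w Λ k - A) hu0
          (fun i j hij => by
            have a1 := (Cone.ch hw hy (a + 1)).mono i j hij
            have a2 := hFc.anti i j hij
            exact mul_le_mul a1 a2 (hFc.nn j)
              (mul_nonneg (hw j) ((Cone.ch hw hy (a + 1)).nn j)))
          (fun i j hij => sub_le_sub_right (hb.anti i j hij) A)
        have hpos : 0 < ∑ k, u k * (w k * ch w y (a + 1) k) * (hat w Λ k - A) := by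
          have : ∑ k, u k * (w k * ch w y (a + 1) k) * (hat w Λ k - A) =
              - ∑ k, u k * (w k * ch w y (a + 1) k) * (A - hat w Λ k) := by
            rw [← sum_neg_distrib]
            exact sum_congr rfl fun k _ => by ring
          rw [this]
          linarith
        have hY : 0 ≤ ∑ k, u k * K' w (hat w F) k :=
          sum_nonneg fun k _ => mul_nonneg (hu0 k) (hFc.nn k)
        have hX : 0 < ∑ k, u k * (w k * ch w y (a + 1) k) := by
          have hX0 : ∀ k ∈ (univ : Finset (Fin q)), 0 ≤ u k * (w k * ch w y (a + 1) k) :=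
            fun k _ => mul_nonneg (hu0 k) (mul_nonneg (hw k) ((Cone.ch hw hy _).nn k))
          rcases (sum_nonneg hX0).lt_or_eq with h0 | h0
          · exact h0
          · exfalso
            have h00 := (sum_eq_zero_iff_of_nonneg hX0).1 h0.symm
            have : ∑ k, u k * (w k * ch w y (a + 1) k) * (hat w Λ k - A) = 0 :=
              sum_eq_zero fun k hk => by rw [h00 k hk, zero_mul]
            linarith
        have h2 : 0 ≤ (∑ k, u k * K' w (hat w F) k * (hat w Λ k - A)) *
            ∑ k, u k * (w k * ch w y (a + 1) k) := le_trans (mul_nonneg hpos.le hY) hc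
        exact nonneg_of_mul_nonneg_left h2 hX
      have h2 : 0 ≤ ∑ k, u k * (K' w (hat w Λ) k *
          ((st w y (R (a :: J))).a - hat w F k)) := sum_nonneg fun k _ =>
        mul_nonneg (hu0 k) (mul_nonneg ((hb.K' hw).nn k) (hdefF k))
      have e1 : E w (fun k => (w k - y) * ch w y (b + 1) k *
          (K' w (hat w Λ) k * ((st w y (R (a :: J))).a - hat w F k) +
          K' w (hat w F) k * (hat w Λ k - A))) =
          ∑ k, u k * (K' w (hat w Λ) k * ((st w y (R (a :: J))).a - hat w F k)) +
            ∑ k, u k * (K' w (hat w F) k) * (hat w Λ k - A) := by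
        rw [E, ← sum_add_distrib]
        refine sum_congr rfl fun k _ => ?_
        simp only [hu]
        ring
      rw [e1]
      exact add_nonneg h2 h1

end Pool.Agent.Helper4.SW
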