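import Pool.Agent.Helper4.SW.Asm
import Pool.Agent.Helper4.SW.CaseA

/-!
S-world: the absolute version of the reduction.  `Good F`: in every context, the path inequality for
all smaller trees and for all trees of the same size with fewer leaves (or smaller total depth)
implies it for `F` in this context.
-/

set_option autoImplicit false

namespace Pool.Agent.Helper4.SW

open Pool.Agent.Helper6.HL hiding X
open Finset Polynomial

variable {q : ℕ} (w : Fin q → ℝ) (y : ℝ)

/-- the weight of the path with `k + 1` vertices -/
noncomputable def Pw (k : ℕ) : ℝ := W w y (B.path k)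

/-- `F` is good in every context; `k` is the number of vertices of the context -/
def Good (F : B) : Prop := ∀ (A : ℝ) (Λ : ℝ[X]) (k : ℕ), 0 ≤ A → NN Λ →
  (∀ F' : B, F'.size < F.size → Pw w y (k + F'.size) ≤ Z w y A Λ F') →
  (∀ F' : B, Lt F' F → Pw w y (k + F'.size) ≤ Z w y A Λ F') →
  Pw w y (k + F.size) ≤ Z w y A Λ F

variable {w y}

theorem Imp.good {F : B} (h : Imp w y F) : Good w y F := by
  intro A Λ k hA hΛ _ h2
  obtain ⟨F', h3, h4⟩ := h A Λ hA hΛ
  have := h2 F' h3
  rw [h3.1] at this
  exact this.trans h4

theorem Good.sim {F G : B} (h : Sim w y F G) (hF : Good w y F) : Good w y G := by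
  intro A Λ k hA hΛ h1 h2
  rw [← h.1, ← h.Z_eq]
  refine hF A Λ k hA hΛ (fun F' hF' => h1 F' (h.1 ▸ hF')) fun F' hF' => h2 F' ?_
  obtain ⟨h3, h4⟩ := hF'
  exact ⟨h3.trans h.1, by rw [← h.2.1, ← h.2.2.1]; exact h4⟩

theorem Good.app_right (hw : ∀ i, 0 ≤ w i) (hy : 0 ≤ y) {F : B} (hF : Good w y F) (G : B) :
    Good w y (F.app G) := by
  intro A Λ k hA hΛ h1 h2
  obtain ⟨h3, h4⟩ := st_nonneg hw hy G
  have e : ∀ F' : B, k + (F'.app G).size = (k + G.size) + F'.size := fun F' => by
    rw [B.size_app]; omega
  rw [e, Z_app]
  refine hF _ _ (k + G.size) (mul_nonneg hA h3) (hΛ.mul h4) (fun F' hF' => ?_) fun F' hF' => ?_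
  · rw [← e, ← Z_app]
    exact h1 _ (by rw [B.size_app, B.size_app]; omega)
  · rw [← e, ← Z_app]
    exact h2 _ (hF'.app_right G)

theorem Good.app_left (hw : ∀ i, 0 ≤ w i) (hy : 0 ≤ y) {F : B} (hF : Good w y F) (G : B) :
    Good w y (G.app F) := (hF.app_right hw hy G).sim (Sim.app_comm _ _)

theorem Good.cons_left (hw : ∀ i, 0 ≤ w i) (hy : 0 ≤ y) {c : B} (hF : Good w y c) (s : B) :
    Good w y (.cons c s) := by
  intro A Λ k hA hΛ h1 h2
  obtain ⟨h3, h4⟩ := st_nonneg hw hy s
  have e : ∀ c' : B, k + (B.cons c' s).size = (k + s.size + 1) + c'.size := fun c' => by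
    simp only [B.size]; omega
  rw [e, Z_cons]
  refine hF _ _ (k + s.size + 1) (L_nonneg hw (hΛ.mul h4))
    ((NN.C (mul_nonneg (mul_nonneg hy hA) h3)).add ((NN.X.mul hΛ).mul h4))
    (fun c' hc' => ?_) fun c' hc' => ?_
  · rw [← e, ← Z_cons]
    exact h1 _ (by simp only [B.size]; omega)
  · rw [← e, ← Z_cons]
    exact h2 _ (hc'.cons_left s)

theorem Good.cons_right (hw : ∀ i, 0 ≤ w i) (hy : 0 ≤ y) {s : B} (hF : Good w y s) (c : B) :
    Good w y (.cons c s) := hF.app_left hw hy (.cons c .nil)

/-- the three possibilities for a rooted tree, if every vertex of type `G2` is good -/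
theorem trichotomy' (hw : ∀ i, 0 ≤ w i) (hy : 0 ≤ y)
    (hG : ∀ g, G2 w y g → Good w y (.cons g .nil)) (F : B) :
    (∃ J, Sim w y F (R J)) ∨ G2 w y F ∨ Good w y F := by
  induction F with
  | nil => exact Or.inl ⟨[], Sim.refl _⟩
  | cons c s ihc ihs =>
    rcases ihc with ⟨J, hJ⟩ | hc | hc
    · rcases ihs with ⟨J', hJ'⟩ | ⟨Js, J', h0, h1, h2⟩ | hs
      · by_cases hl : J.length < 2
        · obtain ⟨k, hk⟩ := R_short hl
          refine Or.inl ⟨k :: J', ?_⟩
          rw [R, ← hk]
          exact Sim.cons hJ hJ'
        · refine Or.inr (Or.inl ⟨[J], J', by simp, ?_, ?_⟩)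
          · intro K hK
            rw [List.mem_singleton] at hK
            subst hK
            omega
          · exact Sim.cons hJ hJ'
      · by_cases hl : J.length < 2
        · obtain ⟨k, hk⟩ := R_short hl
          refine Or.inr (Or.inl ⟨Js, k :: J', h0, h1, ?_⟩)
          have e1 : Sim w y (.cons c s) (.cons (.path k) ((Sp Js).app (R J'))) :=
            Sim.cons (hk ▸ hJ) h2
          have e2 : Sim w y (.cons (.path k) ((Sp Js).app (R J')))
              ((Sp Js).app (R (k :: J'))) := by
            have e3 : (B.cons (.path k) ((Sp Js).app (R J'))) =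
                (B.app (.cons (.path k) .nil) (Sp Js)).app (R J') := by
              rw [app_assoc]; rfl
            have e4 : (Sp Js).app (R (k :: J')) =
                ((Sp Js).app (.cons (.path k) .nil)).app (R J') := by
              rw [app_assoc]; rfl
            rw [e3, e4]
            exact Sim.app (Sim.app_comm _ _) (Sim.refl _)
          exact e1.trans e2
        · refine Or.inr (Or.inl ⟨J :: Js, J', by simp, ?_, ?_⟩)
          · intro K hK
            rw [List.mem_cons] at hK
            rcases hK with hK | hK
            · subst hK; omega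
            · exact h1 K hK
          · exact Sim.cons hJ h2
      · exact Or.inr (Or.inr (hs.cons_right hw hy c))
    · exact Or.inr (Or.inr ((hG c hc).app_right hw hy s))
    · exact Or.inr (Or.inr (hc.cons_left hw hy s))

theorem main_ind' (h : Hyp w y) (hG : ∀ g, G2 w y g → Good w y (.cons g .nil)) (N : ℕ)
    (hN : ∀ F : B, F.size < N → W w y (B.path F.size) ≤ W w y F) :
    ∀ n m : ℕ, ∀ d : B, d.size + 1 = N → max 1 (lv d) = n → td d = m →
      W w y (B.path (d.size + 1)) ≤ W w y (.cons d .nil) := by
  intro n
  induction n using Nat.strong_induction_on with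
  | _ n ihn =>
  intro m
  induction m using Nat.strong_induction_on with
  | _ m ihm =>
  intro d hdN hn hm
  -- the common step
  have step : Good w y (.cons d .nil) → W w y (B.path (d.size + 1)) ≤ W w y (.cons d .nil) := by
    intro hI
    have e0 : (B.cons d .nil).size = d.size + 1 := by simp [B.size]
    have hmain := hI 1 1 0 zero_le_one NN.one
    rw [zero_add, e0, ← W_eq_Z] at hmain
    refine hmain (fun F' hF' => ?_) fun F' hF' => ?_
    · rw [zero_add, ← W_eq_Z]
      exact hN F' (by omega)
    · obtain ⟨hs, hlt⟩ := hF'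
      rw [zero_add, ← W_eq_Z, Pw]
      cases F' with
      | nil => simp [B.size] at hs
      | cons c s =>
        cases s with
        | nil =>
          simp only [B.size, add_zero] at hs
          have hs' : c.size = d.size := by omega
          simp only [lv, td, add_zero] at hlt
          have e1 : (B.cons c .nil).size = c.size + 1 := by simp [B.size]
          rw [e1]
          rcases hlt with h1 | ⟨h1, h2⟩
          · exact ihn (max 1 (lv c)) (by omega) (td c) c (by omega) rfl rfl
          · exact ihm (td c) (by omega) c (by omega) (by omega) rfl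
        | cons a t =>
          obtain ⟨d', h1, h2, h3⟩ := reroot (w := w) (y := y) c (.cons a t)
          rw [← h2, ← h1]
          have hs1 : d'.size = d.size := by
            have e1 : (B.cons d' .nil).size = d'.size + 1 := by simp [B.size]
            omega
          have e1 : (B.cons d' .nil).size = d'.size + 1 := by simp [B.size]
          rw [e1]
          have h4 : lv (.cons c (.cons a t)) ≤ lv (.cons d .nil) := by omega
          have h5 : 1 ≤ lv (B.cons a t) := lv_pos (by simp only [B.size]; omega)
          have h6 : lv (B.cons c (.cons a t)) = max 1 (lv c) + lv (B.cons a t) := rfl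
          have h7 : lv (B.cons d .nil) = max 1 (lv d) + 0 := rfl
          exact ihn (max 1 (lv d')) (by omega) (td d') d' (by omega) rfl rfl
  rcases trichotomy' h.nn h.hy.le hG d with ⟨J, hJ⟩ | hd | hd
  · by_cases hl : J.length < 2
    · obtain ⟨k, hk⟩ := R_short hl
      rw [hk] at hJ
      have e1 : d.size = k := by rw [hJ.1, B.size_path]
      have e2 : W w y (.cons d .nil) = W w y (B.path (k + 1)) := by
        rw [W_eq_Z, W_eq_Z]
        exact (Sim.cons hJ (Sim.refl .nil)).Z_eq 1 1
      rw [e1, e2]
    · obtain ⟨a, b, J', rfl⟩ : ∃ a b J', J = a :: b :: J' := by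
        match J, hl with
        | [], hl => simp at hl
        | [_], hl => simp at hl
        | a :: b :: J', _ => exact ⟨a, b, J', rfl⟩
      · have e1 : W w y (.cons d .nil) = Z w y 1 1 (R (a :: b :: 0 :: J')) := by
          rw [W_eq_Z, (Sim.cons hJ (Sim.refl .nil)).Z_eq 1 1, ← W_eq_Z, W_flip, W_eq_Z]
          have a1 : Sim w y (B.app (R [0]) (B.app (R [a, b]) (R J')))
              (B.app (R [a, b]) (B.app (R [0]) (R J'))) := by
            rw [← app_assoc, ← app_assoc]
            exact Sim.app (Sim.app_comm _ _) (Sim.refl _)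
          exact a1.Z_eq 1 1
        have e2 : W w y (.cons (R ((a + b + 1) :: J')) .nil) =
            Z w y 1 1 (R ((a + b + 1) :: 0 :: J')) := by
          rw [W_flip, W_eq_Z]
          have a1 : Sim w y (B.app (R [0]) (B.app (R [a + b + 1]) (R J')))
              (B.app (R [a + b + 1]) (B.app (R [0]) (R J'))) := by
            rw [← app_assoc, ← app_assoc]
            exact Sim.app (Sim.app_comm _ _) (Sim.refl _)
          exact a1.Z_eq 1 1
        have e3 : d.size = (R ((a + b + 1) :: J')).size := by
          rw [hJ.1]
          simp only [R, B.size, B.size_path]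
          omega
        rw [e1]
        refine le_trans ?_ (spider_merge h a b (0 :: J'))
        rw [← e2, e3]
        have l1 := lv_R ((a + b + 1) :: J')
        have l2 : lv d = J'.length + 2 := by
          rw [hJ.2.1, lv_R]; simp
        rw [List.length_cons] at l1
        exact ihn (max 1 (lv (R ((a + b + 1) :: J')))) (by omega) _ _ (by omega) rfl rfl
  · exact step (hG d hd)
  · exact step (hd.cons_left h.nn h.hy.le .nil)

/-- the S-world inequality if every vertex of type `G2` is good -/
theorem SW_of_good (h : Hyp w y) (hG : ∀ g, G2 w y g → Good w y (.cons g .nil)) (F : B) :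
    W w y (B.path F.size) ≤ W w y F := by
  generalize hN : F.size = N
  induction N using Nat.strong_induction_on generalizing F with
  | _ N ih =>
  cases F with
  | nil => subst hN; exact le_rfl
  | cons c s =>
    obtain ⟨d, h1, h2, _⟩ := reroot (w := w) (y := y) c s
    have e1 : (B.cons d .nil).size = d.size + 1 := by simp [B.size]
    have e2 : d.size + 1 = N := by omega
    rw [← h2, ← e2]
    exact main_ind' h hG N (fun F' hF' => ih F'.size hF' F' rfl) _ _ d e2 rfl rfl

variable (w y)

/-- a vertex with two leg children and nothing else, anywhere -/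
def GoodTwo : Prop := ∀ a b : ℕ, Good w y (.cons (R [a, b]) .nil)

/-- a vertex with a leg child and a terminal spider child with at least three legs, anywhere -/
def GoodL : Prop := ∀ (c : ℕ) (J : List ℕ), 3 ≤ J.length → Good w y (.cons (R J) (R [c]))

/-- `v - g` where all the children of `g` are terminal spiders with at least three legs, at least
two of them -/
def GoodS : Prop := ∀ (J₁ J₂ : List ℕ) (Js : List (List ℕ)), 3 ≤ J₁.length → 3 ≤ J₂.length →
  (∀ K ∈ Js, 3 ≤ K.length) → Good w y (.cons (Sp (J₁ :: J₂ :: Js)) .nil)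

variable {w y}

/-- a spider with two legs among the children -/
theorem Sp_good (h : Hyp w y) (h2 : GoodTwo w y) {Js : List (List ℕ)}
    (hJs : ∀ K ∈ Js, 2 ≤ K.length) (hex : ∃ K ∈ Js, K.length < 3) : Good w y (Sp Js) := by
  induction Js with
  | nil => simp at hex
  | cons K Ks ih =>
    by_cases hK : K.length < 3
    · have hK2 := hJs K (by simp)
      obtain ⟨a, b, rfl⟩ : ∃ a b, K = [a, b] := by
        match K, hK, hK2 with
        | [a, b], _, _ => exact ⟨a, b, rfl⟩
      exact (h2 a b).app_right h.nn h.hy.le (Sp Ks)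
    · obtain ⟨K', hK', hK'3⟩ := hex
      rw [List.mem_cons] at hK'
      rcases hK' with rfl | hK'
      · exact absurd hK'3 hK
      · exact (ih (fun M hM => hJs M (by simp [hM])) ⟨K', hK', hK'3⟩).cons_right h.nn h.hy.le (R K)

theorem G2_good (h : Hyp w y) (h2 : GoodTwo w y) (hL : GoodL w y) (hS : GoodS w y) (g : B)
    (hg : G2 w y g) : Good w y (.cons g .nil) := by
  obtain ⟨Js, J, h0, h1, hsim⟩ := hg
  by_cases hex : ∃ K ∈ Js, K.length < 3
  · refine Good.cons_left h.nn h.hy.le (Good.sim hsim.symm ?_) .nil
    exact (Sp_good h h2 h1 hex).app_right h.nn h.hy.le (R J)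
  have h3 : ∀ K ∈ Js, 3 ≤ K.length := fun K hK => by
    by_contra hc
    exact hex ⟨K, hK, by omega⟩
  cases Js with
  | nil => exact absurd rfl h0
  | cons K Ks =>
    have hK : 3 ≤ K.length := h3 K (by simp)
    cases J with
    | nil =>
      refine Good.sim (Sim.cons hsim.symm (Sim.refl _)) ?_
      rw [R, app_nil]
      cases Ks with
      | nil =>
        match K, hK with
        | a :: b :: J, _ => exact (caseA h a b J).good
      | cons K' Ks =>
        exact hS K K' Ks hK (h3 K' (by simp)) fun M hM => h3 M (by simp [hM])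
    | cons c J' =>
      refine Good.cons_left h.nn h.hy.le (Good.sim hsim.symm ?_) .nil
      have e1 : Sim w y (B.app (.cons (R K) (R [c])) (B.app (Sp Ks) (R J')))
          (B.app (Sp (K :: Ks)) (R (c :: J'))) := by
        have a1 : B.app (.cons (R K) (R [c])) (B.app (Sp Ks) (R J')) =
            .cons (R K) (B.app (B.app (R [c]) (Sp Ks)) (R J')) := by
          rw [app_assoc]; rfl
        have a2 : B.app (Sp (K :: Ks)) (R (c :: J')) =
            .cons (R K) (B.app (B.app (Sp Ks) (R [c])) (R J')) := by
          rw [app_assoc]; rfl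
        rw [a1, a2]
        exact Sim.cons (Sim.refl _) (Sim.app (Sim.app_comm _ _) (Sim.refl _))
      exact Good.sim e1 ((hL c K hK).app_right h.nn h.hy.le _)

end Pool.Agent.Helper4.SW
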