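import Pool.Agent.Helper4.SW.Star

/-!
S-world, case (L) with a leaf sibling (helper20, helper31).
-/

set_option autoImplicit false

namespace Pool.Agent.Helper4.SW

open Pool.Agent.Helper6.HL hiding X
open Finset Polynomial

variable {q : ℕ} {w : Fin q → ℝ} {y : ℝ}

/-- Chebyshev: two decreasing functions, total mass one -/
theorem cheb_E (h : Hyp w y) {f g : Fin q → ℝ} (hf : ∀ i j, w i ≤ w j → f j ≤ f i)
    (hg : ∀ i j, w i ≤ w j → g j ≤ g i) : E w f * E w g ≤ E w (fun i => f i * g i) := by
  have h1 := dsum_nonneg w (fun i j => w i * w j * (f i * g i) - w i * w j * (f i * g j))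
    (fun i j hij => by
      have e : w i * w j * (f i * g i) - w i * w j * (f i * g j) +
          (w j * w i * (f j * g j) - w j * w i * (f j * g i)) =
          w i * w j * ((f i - f j) * (g i - g j)) := by ring
      rw [e]
      exact mul_nonneg (mul_nonneg (h.nn i) (h.nn j))
        (mul_nonneg (sub_nonneg.2 (hf i j hij)) (sub_nonneg.2 (hg i j hij))))
  simp only [sum_sub_distrib] at h1
  have e1 : ∑ i, ∑ j, w i * w j * (f i * g i) = E w (fun i => f i * g i) := by
    have : ∀ i, ∑ j, w i * w j * (f i * g i) = w i * (f i * g i) := by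
      intro i
      have : ∀ j, w i * w j * (f i * g i) = w j * (w i * (f i * g i)) := fun j => by ring
      simp only [this, ← sum_mul, h.one, one_mul]
    simp only [this]
    rfl
  have e2 : ∑ i, ∑ j, w i * w j * (f i * g j) = E w f * E w g := by
    simp only [E, sum_mul_sum]
    exact sum_congr rfl fun i _ => sum_congr rfl fun j _ => by ring
  rw [e1, e2] at h1
  linarith

theorem st_cons (c s : B) : st w y (.cons c s) = ⟨L w (st w y c).p * (st w y s).a,
    (C (y * (st w y c).a) + Polynomial.X * (st w y c).p) * (st w y s).p⟩ := rfl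

theorem st_one (c : B) : st w y (.cons c .nil) = ⟨L w (st w y c).p,
    C (y * (st w y c).a) + Polynomial.X * (st w y c).p⟩ := by
  rw [st_cons]
  have e1 : (st w y B.nil).a = 1 := rfl
  have e2 : (st w y B.nil).p = 1 := rfl
  rw [e1, e2, mul_one, mul_one]

theorem st_path (j : ℕ) : st w y (B.path j) = ⟨l w y j, psi w y j⟩ := rfl

/-- moving the leg `b` of `w` to the leaf child of `g` -/
theorem Z_leaf (A : ℝ) (Λ : ℝ[X]) (b : ℕ) (s : B) (h : Hyp w y) :
    Z w y A Λ (.cons (.cons (.path b) s) (.path 1)) =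
      Z w y A Λ (.cons s (.path (b + 2))) + y * (A * (E w (fun k => hat w (psi w y (b + 1)) k *
        hat w (st w y s).p k) - E w (hat w (psi w y (b + 1))) * E w (hat w (st w y s).p)) +
        L w (Polynomial.X * Λ * ((C (l w y (b + 1)) - psi w y (b + 1)) *
          (C (st w y s).a - (st w y s).p)))) := by
  have e3 : (st w y (B.cons (.path b) s)) = ⟨l w y (b + 1) * (st w y s).a,
      psi w y (b + 1) * (st w y s).p⟩ := st_app w y (B.path (b + 1)) s
  have e1 : (B.cons (.cons (.path b) s) (.path 1)) =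
      (B.cons (.cons (.path b) s) .nil).app (.path 1) := rfl
  have e2 : (B.cons s (.path (b + 2))) = (B.cons s .nil).app (.path (b + 2)) := rfl
  have e4 : psi w y 1 = C y + Polynomial.X := by
    rw [psi_succ, l_zero, psi_zero, mul_one, mul_one]
  have e5 : psi w y (b + 2) = C (y * l w y (b + 1)) + Polynomial.X * psi w y (b + 1) :=
    psi_succ w y (b + 1)
  have e6 : l w y (b + 2) = E w (hat w (psi w y (b + 1))) := by rw [l_succ, L_def]
  have e7 : l w y 1 = 1 := by rw [l_succ, psi_zero, L_def, hat_one, E_one h]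
  rw [e1, e2, Z, Z, st_app, st_app, st_path, st_path, e4, e5, e6, e7, st_one, st_one, e3]
  simp only
  set P := (st w y s).a
  set F := (st w y s).p
  set lb := l w y (b + 1)
  set ψ := psi w y (b + 1)
  have f1 : L w (ψ * F) = E w (fun k => hat w ψ k * hat w F k) := L_mul w _ _
  have f2 : L w F = E w (hat w F) := rfl
  have f3 : Λ * ((C (y * (lb * P)) + Polynomial.X * (ψ * F)) * (C y + Polynomial.X)) =
      Λ * ((C (y * P) + Polynomial.X * F) * (C (y * lb) + Polynomial.X * ψ)) +
      C y * (Polynomial.X * Λ * ((C lb - ψ) * (C P - F))) := by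
    simp only [map_mul]
    ring
  rw [f3, map_add, L_C_mul, f1, f2]
  ring

theorem L_nonneg_of_hat (h : Hyp w y) {Λ p r : ℝ[X]} (hΛ : NN Λ) (hp : ∀ k, 0 ≤ hat w p k)
    (hr : ∀ k, 0 ≤ hat w r k) : 0 ≤ L w (Λ * (p * r)) := by
  have e1 : Λ * (p * r) = p * (Λ * r) := by ring
  rw [e1, L_mul]
  refine E_nonneg h.nn fun k => mul_nonneg (hp k) ?_
  rw [hat_mul]
  exact aeval_nonneg h.nn hΛ hr k

theorem leg_defect (h : Hyp w y) (j : ℕ) (k : Fin q) :
    0 ≤ hat w (C (l w y j) - psi w y j) k := by
  rw [map_sub, hat_C, Pi.sub_apply, hat_psi, sub_sub_cancel]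
  exact mul_nonneg (sub_nonneg.2 (h.lt k).le) ((Cone.ch h.nn h.hy.le _).nn k)

/-- a leaf child and a spider child: the leg `b` goes to the leaf -/
theorem leaf_case (h : Hyp w y) (b : ℕ) (J : List ℕ) (hJ : J ≠ []) :
    Imp w y (.cons (R (b :: J)) (R [0])) := by
  intro A Λ hA hΛ
  have hp := st_nonneg h.nn h.hy.le (R J)
  refine ⟨.cons (R J) (.path (b + 2)), ⟨?_, Or.inl ?_⟩, ?_⟩
  · simp only [R, B.size, B.size_path]; omega
  · have h1 := lv_path (b + 1)
    have h2 := lv_R J
    have h3 := lv_R (b :: J)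
    have h4 : 1 ≤ J.length := List.length_pos_iff.2 hJ
    rw [List.length_cons] at h3
    have e1 : lv (B.cons (R J) (.path (b + 2))) = max 1 (lv (R J)) + (max 1 (lv (B.path (b + 1))) + 0) :=
      rfl
    have e2 : lv (B.cons (R (b :: J)) (R [0])) = max 1 (lv (R (b :: J))) + (max 1 0 + 0) := rfl
    rw [e1, e2]
    omega
  · have e : (B.cons (R (b :: J)) (R [0])) = .cons (.cons (.path b) (R J)) (.path 1) := rfl
    rw [e, Z_leaf A Λ b (R J) h]
    refine le_add_of_nonneg_right (mul_nonneg h.hy.le (add_nonneg (mul_nonneg hA ?_) ?_))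
    · exact sub_nonneg.2 (cheb_E h (Cone.hat h.nn (psi_NN h.nn h.hy.le _)).anti
        (Cone.hat h.nn hp.2).anti)
    · refine L_nonneg_of_hat h (NN.X.mul hΛ) (leg_defect h _) fun k => ?_
      rw [map_sub, hat_C, Pi.sub_apply]
      exact R_defect h J k

end Pool.Agent.Helper4.SW
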