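import Mathlib

set_option autoImplicit false

namespace Pool.Agent.Helper4.SW

/-- polynomial inequality (L4), in nonnegative variables -/
theorem L4_aux {y r d g : ℝ} (hy : 0 ≤ y) (hr : 0 ≤ r) (hd : 0 ≤ d) (hg : 0 ≤ g) :
    0 ≤ (y + r + d + y + g) ^ 2 * (y + r + d) ^ 2 * (y + r + d + y + g - y) ^ 2 -
      (y + r - y) * ((y + r + d + y + g) + (y + r + d) - (y + r)) ^ 2 *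
      (((y + r + d + y + g) * (y + r + d) + (y + r + d) * ((y + r + d + y + g) + (y + r + d)) -
        (y + r) ^ 2 + y * ((y + r + d + y + g) + (y + r + d))) * ((y + r + d + y + g) - (y + r)) -
        (y + r + d + y + g) * (y + r + d) * ((y + r + d + y + g) - y)) := by
  have e : (y + r + d + y + g) ^ 2 * (y + r + d) ^ 2 * (y + r + d + y + g - y) ^ 2 -
      (y + r - y) * ((y + r + d + y + g) + (y + r + d) - (y + r)) ^ 2 *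
      (((y + r + d + y + g) * (y + r + d) + (y + r + d) * ((y + r + d + y + g) + (y + r + d)) -
        (y + r) ^ 2 + y * ((y + r + d + y + g) + (y + r + d))) * ((y + r + d + y + g) - (y + r)) -
        (y + r + d + y + g) * (y + r + d) * ((y + r + d + y + g) - y)) =
      (d^2*(d^2-r*d-3*r^2)^2+g*4*d*(d^2-1/2*r^2)^2+y*8*d*(d^2-3/4*r*d-33/32*r^2)^2+
       y*g*(2*d^2*(d-r)^2+4*(d^2-1/2*r^2)^2)+y^2*26*(d^2-6/13*r*d-18/169*r^2)^2+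
       y^2*g*d*(d-3*r)^2+y^3*d*10*(d-r)^2+y^4*(d-3*r)^2) +
      ((1:ℝ)*(d^2*g^4) + (4:ℝ)*(d^3*g^3) + (6:ℝ)*(d^4*g^2) + (1:ℝ)*(r*d*g^4) + (5:ℝ)*(r*d^2*g^3) + (6:ℝ)*(r*d^3*g^2) + (2:ℝ)*(r^2*d*g^3) + (3:ℝ)*(r^2*d^2*g^2) + (2:ℝ)*(r^3*g^3) + (12:ℝ)*(r^3*d*g^2) + (19:ℝ)*(r^3*d^2*g) + (4:ℝ)*(r^3*d^3) + (6:ℝ)*(r^4*g^2) + (21:ℝ)*(r^4*d*g) + (11:ℝ)*(r^4*d^2) + (6:ℝ)*(r^5*g) + (11:ℝ)*(r^5*d) + (2:ℝ)*(r^6) + (2:ℝ)*(y*d*g^4) + (14:ℝ)*(y*d^2*g^3) + (30:ℝ)*(y*d^3*g^2) + (20:ℝ)*(y*d^4*g) + (6:ℝ)*(y*r*d*g^3) + (13:ℝ)*(y*r*d^2*g^2) + (1:ℝ)*(y*r^2*g^3) + (8:ℝ)*(y*r^2*d*g^2) + (16:ℝ)*(y*r^3*g^2) + (58:ℝ)*(y*r^3*d*g) + (309/8:ℝ)*(y*r^3*d^2) + (28:ℝ)*(y*r^4*g) + (5823/128:ℝ)*(y*r^4*d) + (14:ℝ)*(y*r^5) + (1:ℝ)*(y^2*g^4) + (16:ℝ)*(y^2*d*g^3) + (55:ℝ)*(y^2*d^2*g^2)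 + (65:ℝ)*(y^2*d^3*g) + (1:ℝ)*(y^2*r*g^3) + (10:ℝ)*(y^2*r*d*g^2) + (6:ℝ)*(y^2*r^2*g^2) + (5:ℝ)*(y^2*r^2*d*g) + (41:ℝ)*(y^2*r^3*g) + (12412/169:ℝ)*(y^2*r^3*d) + (76247/2197:ℝ)*(y^2*r^4) + (6:ℝ)*(y^3*g^3) + (44:ℝ)*(y^3*d*g^2) + (82:ℝ)*(y^3*d^2*g) + (34:ℝ)*(y^3*d^3) + (3:ℝ)*(y^3*r*g^2) + (12:ℝ)*(y^3*r^2*g) + (6:ℝ)*(y^3*r^2*d) + (35:ℝ)*(y^3*r^3) + (13:ℝ)*(y^4*g^2) + (50:ℝ)*(y^4*d*g) + (40:ℝ)*(y^4*d^2) + (2:ℝ)*(y^4*r*g) + (12:ℝ)*(y^5*g) + (20:ℝ)*(y^5*d) + (4:ℝ)*(y^6)) := by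
    ring
  rw [e]
  positivity

end Pool.Agent.Helper4.SW
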