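import Pool.Agent.Helper4.SW.Cert
import Pool.Agent.Helper4.SW.L4

/-!
S-world: the deletion certificate inequality (F1) for spiders with an odd leg reduces to spiders
with two legs.  Region B.
-/

set_option autoImplicit false

namespace Pool.Agent.Helper4.SW

open Pool.Agent.Helper6.HL hiding X
open Finset Polynomial

theorem L4 {x y s t : ℝ} (hy : 0 ≤ y) (hyx : y ≤ x) (hxs : x ≤ s) (hst : t = 1 - s)
    (hB : s + y ≤ t) : (x - y) * (1 - x) ^ 2 *
      ((t * s + s - x ^ 2 + y) * (t - x) - t * s * (t - y)) ≤ t ^ 2 * s ^ 2 * (t - y) ^ 2 := by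
  have h := L4_aux hy (sub_nonneg.2 hyx) (sub_nonneg.2 hxs) (sub_nonneg.2 hB)
  have e1 : y + (x - y) = x := by ring
  have e2 : x + (s - x) = s := by ring
  have e3 : s + y + (t - (s + y)) = t := by ring
  rw [e1, e2, e3] at h
  have e4 : t + s = 1 := by linarith
  have e5 : t + s - x = 1 - x := by rw [e4]
  rw [e5, e4, mul_one, mul_one] at h
  linarith

variable {q : ℕ} {w : Fin q → ℝ} {y : ℝ}

theorem exists_top (h : Hyp w y) : ∃ t, Top w t := by
  have : Nonempty (Fin q) := ⟨⟨0, lt_of_lt_of_le two_pos h.two⟩⟩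
  obtain ⟨t, ht⟩ := Finite.exists_max w
  exact ⟨t, ht⟩

theorem top_half (h : Hyp w y) {t : Fin q} (ht : Top w t) : 1 + y < 2 * w t := by
  obtain ⟨i, hi⟩ := h.half
  exact lt_of_lt_of_le hi (by linarith [ht i])

theorem ch_two (h : Hyp w y) (i : Fin q) : ch w y 2 i = 1 - w i := by
  have e : l w y 1 = 1 := by
    rw [l_succ' w y 0, zero_add, ch_one, ch_zero, E_one h]
    simp [E]
  rw [ch_succ w y 1, e, ch_one, mul_one]

theorem l_two (h : Hyp w y) : l w y 2 = 1 - E w w + y := by
  rw [l_succ' w y 1, ch_one, E_one h, mul_one]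
  have : E w (ch w y (1 + 1)) = 1 - E w w := by
    have e : ch w y (1 + 1) = fun i => 1 - w i := funext fun i => ch_two h i
    rw [e, E_sub, E_one h]
  rw [this]

/-- the other parts sum to `1 - w t` -/
theorem sum_erase (h : Hyp w y) (t : Fin q) : ∑ i ∈ univ.erase t, w i = 1 - w t := by
  rw [sum_erase_eq_sub (mem_univ t), h.one]

theorem le_compl (h : Hyp w y) {t c : Fin q} (hc : c ≠ t) : w c ≤ 1 - w t := by
  rw [← sum_erase h t]
  exact single_le_sum (fun i _ => h.nn i) (mem_erase.2 ⟨hc, mem_univ c⟩)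

/-- even positions: `ch` at the top is at least a fixed multiple of the leg weight -/
theorem T2_le (h : Hyp w y) {t : Fin q} (ht : Top w t) (j : ℕ) :
    l w y (j + 1) * (1 - w t) ≤ ch w y (j + 1) t * l w y 2 := by
  rw [← ch_two h t]
  cases j with
  | zero =>
    have h1 := (top_alt h ht 1 0).2.2
    rw [Ds, sg, pow_zero, one_mul] at h1
    simp only [zero_add] at h1 ⊢
    linarith [mul_comm (l w y 1) (ch w y 2 t), mul_comm (ch w y 1 t) (l w y 2)]
  | succ m =>
    have h1 := (top_alt h ht m 1).2.2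
    rw [Ds, sg, pow_one] at h1
    rw [show 1 + m + 1 = m + 1 + 1 by ring] at h1
    linarith

theorem R2_le (h : Hyp w y) {t : Fin q} (ht : Top w t) (j : ℕ) (c : Fin q) :
    ch w y (j + 1) c * (1 - w t) ≤ ch w y (j + 1) t * (1 - w c) := by
  rw [← ch_two h t, ← ch_two h c]
  cases j with
  | zero =>
    have h1 := (Cone.ch h.nn h.hy.le 2).anti c t (ht c)
    rw [zero_add, ch_one]
    linarith
  | succ m =>
    have h1 := (top_alt h ht m 1).1 c
    rw [De, sg, pow_one] at h1
    rw [show 1 + m + 1 = m + 1 + 1 by ring] at h1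
    linarith

theorem w_lt_one (h : Hyp w y) (i : Fin q) : w i < 1 := by
  obtain ⟨j, hj⟩ := h.ne i
  have := le_compl h hj
  linarith [h.pos j]

/-- bound of `l_2` by one other part -/
theorem l_two_le (h : Hyp w y) {t c : Fin q} (hc : c ≠ t) :
    l w y 2 ≤ w t * (1 - w t) + (1 - w t) - w c ^ 2 + y := by
  rw [l_two h]
  have h1 := le_E2 h.nn (f := w) h.nn hc
  nlinarith

/-- (L2) for a rest consisting of one leg -/
theorem L2_leg (h : Hyp w y) {t : Fin q} (ht : Top w t) (a b j : ℕ) :
    0 ≤ E w (fun c => (w c - y) * ch w y (a + 1) c * ch w y (b + 1) c *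
      (l w y (j + 1) - l w y (j + 2) - (w t - w c) * hat w (psi w y (j + 1)) c)) := by
  set s := 1 - w t with hs
  have hs0 : 0 < s := by linarith [w_lt_one h t]
  have hB : s + y ≤ w t := by linarith [top_half h ht]
  set A := ch w y (a + 1) t with hA
  set Bt := ch w y (b + 1) t with hBt
  set Ct := ch w y (j + 1) t with hCt
  have hA0 : 0 < A := ch_pos h a t
  have hB0 : 0 < Bt := ch_pos h b t
  have hC0 : 0 < Ct := ch_pos h j t
  have ht0 := h.pos t
  have hut : 0 < w t - y := by linarith [h.lt t]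
  set Q := w t ^ 2 * (w t - y) ^ 2 * (A * Bt * Ct) with hQ
  have hQ0 : 0 < Q := by positivity
  -- `l_{j+1} - l_{j+2} = E kap`
  have hM : l w y (j + 1) - l w y (j + 2) = E w (kap w y (j + 1)) := by
    rw [l_succ w y (j + 1), L_def]
    have e : hat w (psi w y (j + 1)) = fun i => l w y (j + 1) - kap w y (j + 1) i :=
      funext fun i => hat_psi_kap w y (j + 1) i
    rw [e, E_sub, E_const h]
    ring
  have hMt : w t * ((w t - y) * Ct) ≤ l w y (j + 1) - l w y (j + 2) := by
    rw [hM]
    exact le_E h.nn (fun i => kap_nonneg h (j + 1) i) t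
  -- the terms
  set f : Fin q → ℝ := fun c => w c * ((w c - y) * ch w y (a + 1) c * ch w y (b + 1) c *
      (l w y (j + 1) - l w y (j + 2) - (w t - w c) * hat w (psi w y (j + 1)) c)) with hf
  have hft : Q ≤ f t := by
    rw [hf]
    simp only [sub_self, zero_mul, sub_zero]
    have h1 := mul_le_mul_of_nonneg_left hMt
      (mul_nonneg (mul_nonneg ht0.le (mul_nonneg hut.le hA0.le)) hB0.le)
    rw [hQ]
    linarith
  have hfc : ∀ c, c ≠ t → - (w c * (Q / s)) ≤ f c := by
    intro c hc
    have hc0 := h.pos c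
    have huc : 0 < w c - y := by linarith [h.lt c]
    have hcs : w c ≤ s := le_compl h hc
    have hct : w c ≤ w t := ht c
    have h1c : 0 < 1 - w c := by linarith [w_lt_one h c]
    -- bracket
    have hbr : w t * ((w t - y) * Ct) - (w t - w c) * l w y (j + 1) ≤
        l w y (j + 1) - l w y (j + 2) - (w t - w c) * hat w (psi w y (j + 1)) c := by
      have h1 : hat w (psi w y (j + 1)) c ≤ l w y (j + 1) := by
        rw [hat_psi_kap]
        linarith [kap_nonneg h (j + 1) c]
      have h2 := mul_le_mul_of_nonneg_left h1 (sub_nonneg.2 hct)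
      linarith
    have hAc0 : 0 ≤ ch w y (a + 1) c := (ch_pos h a c).le
    have hBc0 : 0 ≤ ch w y (b + 1) c := (ch_pos h b c).le
    have hpos : 0 ≤ w c * ((w c - y) * ch w y (a + 1) c * ch w y (b + 1) c) :=
      mul_nonneg hc0.le (mul_nonneg (mul_nonneg huc.le hAc0) hBc0)
    have hstep : w c * ((w c - y) * ch w y (a + 1) c * ch w y (b + 1) c) *
        (w t * ((w t - y) * Ct) - (w t - w c) * l w y (j + 1)) ≤ f c := by
      have := mul_le_mul_of_nonneg_left hbr hpos
      rw [hf]
      simp only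
      linarith
    refine le_trans ?_ hstep
    rcases le_total ((w t - w c) * l w y (j + 1)) (w t * ((w t - y) * Ct)) with hcase | hcase
    · have h1 := mul_nonneg hpos (sub_nonneg.2 hcase)
      have h2 : 0 ≤ w c * (Q / s) := by positivity
      linarith
    · -- `l_{j+1} ≤ Ct l_2 / s`
      have hl : l w y (j + 1) * s ≤ Ct * l w y 2 := T2_le h ht j
      have hAc : ch w y (a + 1) c * s ≤ A * (1 - w c) := R2_le h ht a c
      have hBc : ch w y (b + 1) c * s ≤ Bt * (1 - w c) := R2_le h ht b c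
      have hAB : ch w y (a + 1) c * ch w y (b + 1) c * s ^ 2 ≤ A * Bt * (1 - w c) ^ 2 := by
        have := mul_le_mul hAc hBc (mul_nonneg hBc0 hs0.le) (mul_nonneg hA0.le h1c.le)
        linarith
      have hl2 := l_two_le h hc
      rw [← hs] at hl2
      have hpoly := L4 h.hy.le (h.lt c).le hcs (by rw [hs]; ring : w t = 1 - s) hB
      -- the bracket times s
      have g1 : ((w t - w c) * l w y (j + 1) - w t * ((w t - y) * Ct)) * s ≤
          Ct * ((w t * s + s - w c ^ 2 + y) * (w t - w c) - w t * s * (w t - y)) := by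
        have g2 := mul_le_mul_of_nonneg_left hl (sub_nonneg.2 hct)
        have g3 := mul_le_mul_of_nonneg_left hl2 (mul_nonneg (sub_nonneg.2 hct) hC0.le)
        nlinarith
      have g0 : 0 ≤ ((w t - w c) * l w y (j + 1) - w t * ((w t - y) * Ct)) * s :=
        mul_nonneg (sub_nonneg.2 hcase) hs0.le
      have g4 : (ch w y (a + 1) c * ch w y (b + 1) c * s ^ 2) *
          (((w t - w c) * l w y (j + 1) - w t * ((w t - y) * Ct)) * s) ≤
          (A * Bt * (1 - w c) ^ 2) *
          (Ct * ((w t * s + s - w c ^ 2 + y) * (w t - w c) - w t * s * (w t - y))) :=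
        mul_le_mul hAB g1 g0 (mul_nonneg (mul_nonneg hA0.le hB0.le) (sq_nonneg _))
      have g5 := mul_le_mul_of_nonneg_left g4 huc.le
      have g6 := mul_le_mul_of_nonneg_left hpoly (mul_nonneg (mul_nonneg hA0.le hB0.le) hC0.le)
      have g7 : (w c - y) * (ch w y (a + 1) c * ch w y (b + 1) c) *
          ((w t - w c) * l w y (j + 1) - w t * ((w t - y) * Ct)) * s ^ 3 ≤ Q * s ^ 2 := by
        rw [hQ]
        linarith
      have g8 : (w c - y) * (ch w y (a + 1) c * ch w y (b + 1) c) *
          ((w t - w c) * l w y (j + 1) - w t * ((w t - y) * Ct)) ≤ Q / s := by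
        rw [le_div_iff₀ hs0]
        have hs2 : 0 < s ^ 2 := by positivity
        refine le_of_mul_le_mul_right ?_ hs2
        linarith
      have g9 := mul_le_mul_of_nonneg_left g8 hc0.le
      linarith
  -- summation
  have hE : E w (fun c => (w c - y) * ch w y (a + 1) c * ch w y (b + 1) c *
      (l w y (j + 1) - l w y (j + 2) - (w t - w c) * hat w (psi w y (j + 1)) c)) = ∑ c, f c := rfl
  rw [hE, ← add_sum_erase univ f (mem_univ t)]
  have hsum : ∑ c ∈ univ.erase t, - (w c * (Q / s)) ≤ ∑ c ∈ univ.erase t, f c :=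
    sum_le_sum fun c hc => hfc c (ne_of_mem_erase hc)
  rw [sum_neg_distrib, ← sum_mul, sum_erase h t, ← hs, mul_div_cancel₀ _ hs0.ne'] at hsum
  linarith

end Pool.Agent.Helper4.SW
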