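import Pool.Agent.Helper4.SW.Ctx

/-!
The S-world inequality for one big part (`q = 1`).
-/

set_option autoImplicit false

namespace Pool.Agent.Helper4.SW

open Pool.Agent.Helper6.HL hiding X
open Finset Polynomial

theorem K'_one (w : Fin 1 → ℝ) : K' w = 0 := by
  refine LinearMap.ext fun f => funext fun i => ?_
  rw [K'_apply, E, Fin.sum_univ_one, Subsingleton.elim i 0]
  simp

theorem hat_coeff (w : Fin 1 → ℝ) (p : ℝ[X]) (i : Fin 1) : hat w p i = p.coeff 0 := by
  rw [hat_def, K'_one, aeval_def, eval₂_at_zero]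
  simp [Module.algebraMap_end_apply]

theorem L_coeff (w : Fin 1 → ℝ) (h1 : w 0 = 1) (p : ℝ[X]) : L w p = p.coeff 0 := by
  rw [L_def, E, Fin.sum_univ_one, hat_coeff, h1, one_mul]

theorem st_one_exp (w : Fin 1 → ℝ) (h1 : w 0 = 1) (y : ℝ) (F : B) : ∃ e o : ℕ,
    e + o = F.size ∧ (st w y F).a = y ^ e ∧ (st w y F).p.coeff 0 = y ^ o := by
  induction F with
  | nil => exact ⟨0, 0, rfl, by simp [st], by simp [st]⟩
  | cons c s ihc ihs =>
    obtain ⟨e1, o1, h1', a1, p1⟩ := ihc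
    obtain ⟨e2, o2, h2', a2, p2⟩ := ihs
    refine ⟨o1 + e2, 1 + e1 + o2, ?_, ?_, ?_⟩
    · simp only [B.size]; omega
    · simp only [st]
      rw [L_coeff w h1, p1, a2, pow_add]
    · simp only [st]
      rw [mul_coeff_zero, coeff_add, coeff_C_zero, mul_coeff_zero, coeff_X_zero, zero_mul,
        add_zero, a1, p2]
      ring

theorem st_one_path (w : Fin 1 → ℝ) (h1 : w 0 = 1) (y : ℝ) (k : ℕ) :
    (st w y (B.path k)).a = y ^ (k / 2) ∧ (st w y (B.path k)).p.coeff 0 = y ^ ((k + 1) / 2) := by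
  induction k with
  | zero => exact ⟨by simp [st, B.path], by simp [st, B.path]⟩
  | succ k ih =>
    obtain ⟨a1, p1⟩ := ih
    rw [B.path]
    simp only [st]
    refine ⟨?_, ?_⟩
    · rw [L_coeff w h1, p1, mul_one]
    · rw [mul_coeff_zero, coeff_add, coeff_C_zero, mul_coeff_zero, coeff_X_zero, zero_mul,
        add_zero, a1, coeff_one_zero, mul_one, ← pow_succ']
      congr 1
      omega

theorem pow_conv {y : ℝ} (h0 : 0 ≤ y) (h1 : y ≤ 1) {a b c d : ℕ} (h : a + b = c + d)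
    (hac : a ≤ c) (had : a ≤ d) : y ^ c + y ^ d ≤ y ^ a + y ^ b := by
  obtain ⟨m, rfl⟩ := Nat.exists_eq_add_of_le hac
  obtain rfl : b = d + m := by omega
  have e1 : y ^ m ≤ 1 := pow_le_one₀ h0 h1
  have e2 : y ^ d ≤ y ^ a := pow_le_pow_of_le_one h0 h1 had
  have := mul_nonneg (sub_nonneg.2 e1) (sub_nonneg.2 e2)
  rw [pow_add, pow_add]
  nlinarith

theorem SW_one (w : Fin 1 → ℝ) (h1 : w 0 = 1) (y : ℝ) (h0 : 0 ≤ y) (hy : y ≤ 1) (F : B) :
    W w y (B.path F.size) ≤ W w y F := by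
  obtain ⟨e, o, hs, ha, hp⟩ := st_one_exp w h1 y F
  obtain ⟨pa, pp⟩ := st_one_path w h1 y F.size
  rw [W, W, L_coeff w h1, L_coeff w h1, ha, hp, pa, pp, ← pow_succ', ← pow_succ']
  rcases le_total (e + 1) o with h | h
  · exact pow_conv h0 hy (by omega) (by omega) (by omega) |>.trans_eq (add_comm _ _ |>.trans (add_comm _ _))
  · have := pow_conv h0 hy (a := o) (b := e + 1) (c := F.size / 2 + 1) (d := (F.size + 1) / 2)
      (by omega) (by omega) (by omega)
    linarith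

end Pool.Agent.Helper4.SW
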