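import Pool.Agent.Helper4.SW.Tool
import Pool.Agent.Helper4.SW.One

/-!
S-world: assembly of the S-world inequality (and of the frozen statement) from three local
domination lemmas.
-/

set_option autoImplicit false

namespace Pool.Agent.Helper4.SW

open Pool.Agent.Helper6.HL hiding X
open Finset Polynomial

variable {q : ℕ} (w : Fin q → ℝ) (y : ℝ)

/-- (A) chain `v - g - w` with `g` of degree two and `w` a terminal spider: the tree with root
`v` can be improved in every context at `v` -/
def CaseA : Prop := ∀ (a b : ℕ) (J : List ℕ),
  Imp w y (.cons (.cons (R (a :: b :: J)) .nil) .nil)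

/-- (L) a vertex with a leg child and a terminal spider child can be improved in every context -/
def CaseL : Prop := ∀ (c : ℕ) (J : List ℕ), 2 ≤ J.length → Imp w y (.cons (R J) (R [c]))

/-- (S) `v - g` where all the children of `g` are terminal spiders, at least two of them: the tree
with root `v` can be improved in every context at `v` -/
def CaseS : Prop := ∀ (J₁ J₂ : List ℕ) (Js : List (List ℕ)), 2 ≤ J₁.length → 2 ≤ J₂.length →
  (∀ K ∈ Js, 2 ≤ K.length) → Imp w y (.cons (Sp (J₁ :: J₂ :: Js)) .nil)

variable {w y}

theorem G2_imp (h : Hyp w y) (hA : CaseA w y) (hL : CaseL w y) (hS : CaseS w y) (g : B)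
    (hg : G2 w y g) : Imp w y (.cons g .nil) := by
  obtain ⟨Js, J, h0, h1, h2⟩ := hg
  cases Js with
  | nil => exact absurd rfl h0
  | cons K Ks =>
    have hK : 2 ≤ K.length := h1 K (by simp)
    cases J with
    | nil =>
      refine Imp.sim (Sim.cons h2.symm (Sim.refl _)) ?_
      rw [R, app_nil]
      cases Ks with
      | nil =>
        match K, hK with
        | a :: b :: J, _ => exact hA a b J
      | cons K' Ks =>
        exact hS K K' Ks hK (h1 K' (by simp)) fun M hM => h1 M (by simp [hM])
    | cons c J' =>
      refine Imp.cons_left h.nn h.hy.le (Imp.sim h2.symm ?_) .nil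
      have e1 : Sim w y (B.app (.cons (R K) (R [c])) (B.app (Sp Ks) (R J')))
          (B.app (Sp (K :: Ks)) (R (c :: J'))) := by
        have a1 : B.app (.cons (R K) (R [c])) (B.app (Sp Ks) (R J')) =
            .cons (R K) (B.app (B.app (R [c]) (Sp Ks)) (R J')) := by
          rw [app_assoc]; rfl
        have a2 : B.app (Sp (K :: Ks)) (R (c :: J')) =
            .cons (R K) (B.app (B.app (Sp Ks) (R [c])) (R J')) := by
          rw [app_assoc]; rfl
        rw [a1, a2]
        exact Sim.cons (Sim.refl _) (Sim.app (Sim.app_comm _ _) (Sim.refl _))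
      exact Imp.sim e1 ((hL c K hK).app_right h.nn h.hy.le _)

theorem size_R_pos (a : ℕ) (J : List ℕ) : 0 < (R (a :: J)).size := by
  simp only [R, B.size]; omega

theorem lv_path (k : ℕ) : lv (B.path k) ≤ 1 := by
  induction k with
  | zero => simp [B.path, lv]
  | succ k ih => simp only [B.path, lv]; omega

theorem lv_R (J : List ℕ) : lv (R J) = J.length := by
  induction J with
  | nil => rfl
  | cons j J ih =>
    have := lv_path j
    simp only [R, lv, ih, List.length_cons]
    omega

theorem main_ind (h : Hyp w y) (hG : ∀ g, G2 w y g → Imp w y (.cons g .nil)) :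
    ∀ n m : ℕ, ∀ d : B, max 1 (lv d) = n → td d = m →
      W w y (B.path (d.size + 1)) ≤ W w y (.cons d .nil) := by
  intro n
  induction n using Nat.strong_induction_on with
  | _ n ihn =>
  intro m
  induction m using Nat.strong_induction_on with
  | _ m ihm =>
  intro d hn hm
  -- the common step
  have step : Imp w y (.cons d .nil) → W w y (B.path (d.size + 1)) ≤ W w y (.cons d .nil) := by
    intro hI
    obtain ⟨F', ⟨hs, hlt⟩, hZ⟩ := hI 1 1 zero_le_one NN.one
    rw [← W_eq_Z, ← W_eq_Z] at hZ
    refine le_trans ?_ hZ
    cases F' with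
    | nil => simp [B.size] at hs
    | cons c s =>
      cases s with
      | nil =>
        simp only [B.size, add_zero] at hs
        have hs' : c.size = d.size := by omega
        simp only [lv, td, add_zero] at hlt
        rw [← hs']
        rcases hlt with h1 | ⟨h1, h2⟩
        · exact ihn (max 1 (lv c)) (by omega) (td c) c rfl rfl
        · exact ihm (td c) (by omega) c (by omega) rfl
      | cons a t =>
        obtain ⟨d', h1, h2, h3⟩ := reroot (w := w) (y := y) c (.cons a t)
        rw [← h2]
        have hs1 : d'.size = d.size := by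
          have e1 : (B.cons d' .nil).size = d'.size + 1 := by simp [B.size]
          have e2 : (B.cons d .nil).size = d.size + 1 := by simp [B.size]
          omega
        rw [← hs1]
        have h4 : lv (.cons c (.cons a t)) ≤ lv (.cons d .nil) := by omega
        have h5 : 1 ≤ lv (B.cons a t) := lv_pos (by simp only [B.size]; omega)
        have h6 : lv (B.cons c (.cons a t)) = max 1 (lv c) + lv (B.cons a t) := rfl
        have h7 : lv (B.cons d .nil) = max 1 (lv d) + 0 := rfl
        exact ihn (max 1 (lv d')) (by omega) (td d') d' rfl rfl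
  rcases trichotomy h.nn h.hy.le hG d with ⟨J, hJ⟩ | hd | hd
  · by_cases hl : J.length < 2
    · obtain ⟨k, hk⟩ := R_short hl
      rw [hk] at hJ
      have e1 : d.size = k := by rw [hJ.1, B.size_path]
      have e2 : W w y (.cons d .nil) = W w y (B.path (k + 1)) := by
        rw [W_eq_Z, W_eq_Z]
        exact (Sim.cons hJ (Sim.refl .nil)).Z_eq 1 1
      rw [e1, e2]
    · obtain ⟨a, b, J', rfl⟩ : ∃ a b J', J = a :: b :: J' := by
        match J, hl with
        | [], hl => simp at hl
        | [_], hl => simp at hl
        | a :: b :: J', _ => exact ⟨a, b, J', rfl⟩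
      · have e1 : W w y (.cons d .nil) = Z w y 1 1 (R (a :: b :: 0 :: J')) := by
          rw [W_eq_Z, (Sim.cons hJ (Sim.refl .nil)).Z_eq 1 1, ← W_eq_Z, W_flip, W_eq_Z]
          have a1 : Sim w y (B.app (R [0]) (B.app (R [a, b]) (R J')))
              (B.app (R [a, b]) (B.app (R [0]) (R J'))) := by
            rw [← app_assoc, ← app_assoc]
            exact Sim.app (Sim.app_comm _ _) (Sim.refl _)
          exact a1.Z_eq 1 1
        have e2 : W w y (.cons (R ((a + b + 1) :: J')) .nil) =
            Z w y 1 1 (R ((a + b + 1) :: 0 :: J')) := by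
          rw [W_flip, W_eq_Z]
          have a1 : Sim w y (B.app (R [0]) (B.app (R [a + b + 1]) (R J')))
              (B.app (R [a + b + 1]) (B.app (R [0]) (R J'))) := by
            rw [← app_assoc, ← app_assoc]
            exact Sim.app (Sim.app_comm _ _) (Sim.refl _)
          exact a1.Z_eq 1 1
        have e3 : d.size = (R ((a + b + 1) :: J')).size := by
          rw [hJ.1]
          simp only [R, B.size, B.size_path]
          omega
        rw [e1]
        refine le_trans ?_ (spider_merge h a b (0 :: J'))
        rw [← e2, e3]
        have l1 := lv_R ((a + b + 1) :: J')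
        have l2 : lv d = J'.length + 2 := by
          rw [hJ.2.1, lv_R]; simp
        rw [List.length_cons] at l1
        exact ihn (max 1 (lv (R ((a + b + 1) :: J')))) (by omega) _ _ rfl rfl
  · exact step (hG d hd)
  · exact step (hd.cons_left h.nn h.hy.le .nil)

/-- the S-world inequality from the three local lemmas -/
theorem SW_of_cases (h : Hyp w y) (hA : CaseA w y) (hL : CaseL w y) (hS : CaseS w y) (F : B) :
    W w y (B.path F.size) ≤ W w y F := by
  cases F with
  | nil => exact le_rfl
  | cons c s =>
    obtain ⟨d, h1, h2, _⟩ := reroot (w := w) (y := y) c s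
    rw [← h2, ← h1]
    have e1 : (B.cons d .nil).size = d.size + 1 := by simp [B.size]
    rw [e1]
    exact main_ind h (G2_imp h hA hL hS) _ _ d rfl rfl

end Pool.Agent.Helper4.SW
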