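import Pool.Agent.Helper6.HL.Link

/-!
S-world: states `(a, p)` with `p` a real polynomial, hat map, path functional, and the proof that
the real weighted number of proper colourings is at least the S-world weight.
-/

set_option autoImplicit false

namespace Pool.Agent.Helper4.SW

open Pool.Agent.Helper6.HL hiding X
open Finset Polynomial

variable {q : ℕ} (w : Fin q → ℝ)

/-- `E f = sum w_i f_i` -/
noncomputable def E (f : Fin q → ℝ) : ℝ := ∑ i, w i * f i

theorem E_add (f g : Fin q → ℝ) : E w (f + g) = E w f + E w g := by
  simp only [E, Pi.add_apply, mul_add, sum_add_distrib]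

theorem E_smul (r : ℝ) (f : Fin q → ℝ) : E w (r • f) = r * E w f := by
  simp only [E, Pi.smul_apply, smul_eq_mul, mul_sum]
  exact sum_congr rfl fun i _ => by ring

/-- the operator `K' f = E f - w f` -/
noncomputable def K' : Module.End ℝ (Fin q → ℝ) where
  toFun f := fun i => E w f - w i * f i
  map_add' f g := by
    funext i
    simp only [E_add, Pi.add_apply]
    ring
  map_smul' r f := by
    funext i
    simp only [E_smul, Pi.smul_apply, smul_eq_mul, RingHom.id_apply]
    ring

theorem K'_apply (f : Fin q → ℝ) (i : Fin q) : K' w f i = E w f - w i * f i := rfl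

/-- the hat map -/
noncomputable def hat : ℝ[X] →ₗ[ℝ] (Fin q → ℝ) :=
  (LinearMap.applyₗ (fun _ => (1 : ℝ))).comp (Polynomial.aeval (K' w)).toLinearMap

theorem hat_def (p : ℝ[X]) : hat w p = Polynomial.aeval (K' w) p (fun _ => 1) := rfl

theorem hat_one : hat w 1 = fun _ => 1 := by
  rw [hat_def, map_one]; rfl

theorem hat_mul (p r : ℝ[X]) : hat w (p * r) = Polynomial.aeval (K' w) p (hat w r) := by
  rw [hat_def, map_mul]; rfl

theorem hat_X_mul (p : ℝ[X]) : hat w (X * p) = K' w (hat w p) := by
  rw [hat_mul, aeval_X]

theorem hat_C_mul (r : ℝ) (p : ℝ[X]) : hat w (C r * p) = r • hat w p := by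
  rw [hat_mul, aeval_C]; rfl

theorem hat_C (r : ℝ) : hat w (C r) = fun _ => r := by
  have := hat_C_mul w r 1
  rw [mul_one, hat_one] at this
  rw [this]
  funext i
  simp

/-- `hat` of a power of `X` is the path message -/
theorem hat_X_pow (k : ℕ) : hat w (X ^ k) = M w (B.path k) := by
  induction k with
  | zero =>
    rw [pow_zero, hat_one]; rfl
  | succ k ih =>
    rw [pow_succ', hat_X_mul, ih]
    funext i
    rw [K'_apply, B.path, M_cons', M_nil, mul_one]
    rfl

/-- the path functional -/
noncomputable def L : ℝ[X] →ₗ[ℝ] ℝ where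
  toFun p := E w (hat w p)
  map_add' p r := by rw [map_add, E_add]
  map_smul' r p := by rw [map_smul, E_smul]; rfl

theorem L_def (p : ℝ[X]) : L w p = E w (hat w p) := rfl

/-- self-adjointness of `K'` -/
theorem E_K'_mul (f g : Fin q → ℝ) :
    E w (fun i => K' w f i * g i) = E w (fun i => f i * K' w g i) := by
  have key : ∀ f g : Fin q → ℝ, E w (fun i => K' w f i * g i) =
      E w f * E w g - ∑ i, w i * (w i * (f i * g i)) := by
    intro f g
    have h : ∀ i, w i * (K' w f i * g i) =
        E w f * (w i * g i) - w i * (w i * (f i * g i)) := by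
      intro i; rw [K'_apply]; ring
    rw [E, sum_congr rfl fun i _ => h i, sum_sub_distrib, ← mul_sum]
    rfl
  have h2 : E w (fun i => f i * K' w g i) = E w (fun i => K' w g i * f i) := by
    congr 1
    funext i
    ring
  rw [h2, key, key, mul_comm (E w f)]
  congr 1
  exact sum_congr rfl fun i _ => by ring

theorem E_aeval_mul (p : ℝ[X]) (f g : Fin q → ℝ) :
    E w (fun i => aeval (K' w) p f i * g i) = E w (fun i => f i * aeval (K' w) p g i) := by
  induction p using Polynomial.induction_on' with
  | add p r hp hr =>
    have h1 : ∀ i, aeval (K' w) (p + r) f i * g i =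
        aeval (K' w) p f i * g i + aeval (K' w) r f i * g i := by
      intro i
      rw [map_add]
      simp only [LinearMap.add_apply, Pi.add_apply]
      ring
    have h2 : ∀ i, f i * aeval (K' w) (p + r) g i =
        f i * aeval (K' w) p g i + f i * aeval (K' w) r g i := by
      intro i
      rw [map_add]
      simp only [LinearMap.add_apply, Pi.add_apply]
      ring
    have e1 : E w (fun i => aeval (K' w) (p + r) f i * g i) =
        E w (fun i => aeval (K' w) p f i * g i) + E w (fun i => aeval (K' w) r f i * g i) := by
      rw [← E_add]; congr 1; funext i; exact h1 i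
    have e2 : E w (fun i => f i * aeval (K' w) (p + r) g i) =
        E w (fun i => f i * aeval (K' w) p g i) + E w (fun i => f i * aeval (K' w) r g i) := by
      rw [← E_add]; congr 1; funext i; exact h2 i
    rw [e1, e2, hp, hr]
  | monomial n r =>
    have key : ∀ (n : ℕ) (f g : Fin q → ℝ), E w (fun i => ((K' w) ^ n) f i * g i) =
        E w (fun i => f i * ((K' w) ^ n) g i) := by
      intro n
      induction n with
      | zero => intro f g; simp
      | succ n ih =>
        intro f g
        have h1 : ∀ i, ((K' w) ^ (n + 1)) f i * g i = ((K' w) ^ n) (K' w f) i * g i := by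
          intro i; rw [pow_succ]; rfl
        have h2 : ∀ i, f i * ((K' w) ^ (n + 1)) g i = f i * K' w (((K' w) ^ n) g) i := by
          intro i; rw [pow_succ']; rfl
        simp only [h1, h2]
        rw [ih, E_K'_mul]
    have h1 : ∀ i, aeval (K' w) (monomial n r) f i * g i = r * (((K' w) ^ n) f i * g i) := by
      intro i
      rw [aeval_monomial]
      simp only [Module.End.mul_apply, Module.algebraMap_end_apply, Pi.smul_apply, smul_eq_mul]
      ring
    have h2 : ∀ i, f i * aeval (K' w) (monomial n r) g i = r * (f i * ((K' w) ^ n) g i) := by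
      intro i
      rw [aeval_monomial]
      simp only [Module.End.mul_apply, Module.algebraMap_end_apply, Pi.smul_apply, smul_eq_mul]
      ring
    have e1 : E w (fun i => aeval (K' w) (monomial n r) f i * g i) =
        r * E w (fun i => ((K' w) ^ n) f i * g i) := by
      rw [← E_smul]; congr 1; funext i; exact h1 i
    have e2 : E w (fun i => f i * aeval (K' w) (monomial n r) g i) =
        r * E w (fun i => f i * ((K' w) ^ n) g i) := by
      rw [← E_smul]; congr 1; funext i; exact h2 i
    rw [e1, e2, key]

/-- `L (p r) = E (p^ r^)` -/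
theorem L_mul (p r : ℝ[X]) : L w (p * r) = E w (fun i => hat w p i * hat w r i) := by
  rw [L_def, hat_mul]
  have h := E_aeval_mul w p (hat w r) (fun _ => 1)
  simp only [mul_one] at h
  rw [show (fun i => aeval (K' w) p (hat w r) i) = aeval (K' w) p (hat w r) from rfl] at h
  rw [h]
  congr 1
  funext i
  rw [← hat_def]
  ring

/-- the path weights -/
theorem L_X_pow (k : ℕ) : L w (X ^ k) = Pool.Agent.Helper6.HL.X w w (B.path k) := by
  rw [L_def, hat_X_pow]
  rfl

/-- S-world states -/
@[ext] structure St where
  a : ℝ
  p : ℝ[X]

/-- the S-world state of a forest; `y` is the weight of the smallest part -/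
noncomputable def st (y : ℝ) : B → St
  | .nil => ⟨1, 1⟩
  | .cons c s => ⟨L w (st y c).p * (st y s).a,
      (C (y * (st y c).a) + Polynomial.X * (st y c).p) * (st y s).p⟩

/-- the S-world weight of a tree -/
noncomputable def W (y : ℝ) (F : B) : ℝ := y * (st w y F).a + L w (st w y F).p

end Pool.Agent.Helper4.SW
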