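import Mathlib

/-!
A correlation inequality: for `f, F` decreasing in `x` and `B f F = ∑ x f * ∑ x F - ∑ x² f F`,
`B 1 1 * B f F ≤ B 1 f * B 1 F`.
-/

set_option autoImplicit false

namespace Pool.Agent.Helper4.SW

open Finset

variable {ι : Type*} [Fintype ι] [DecidableEq ι]

/-- the three-point inequality, ordered -/
theorem three_ord {a b c f1 f2 f3 g1 g2 g3 : ℝ} (ha : 0 ≤ a) (hab : a ≤ b) (hbc : b ≤ c)
    (hf1 : f2 ≤ f1) (hf2 : f3 ≤ f2) (hg1 : g2 ≤ g1) (hg2 : g3 ≤ g2) :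
    0 ≤ (a + b - c) * ((f1 - f2) * (g1 - g2)) + (b + c - a) * ((f2 - f3) * (g2 - g3)) +
      (a + c - b) * ((f1 - f3) * (g1 - g3)) := by
  have h1 := sub_nonneg.2 hf1
  have h2 := sub_nonneg.2 hf2
  have h3 := sub_nonneg.2 hg1
  have h4 := sub_nonneg.2 hg2
  have e : (a + b - c) * ((f1 - f2) * (g1 - g2)) + (b + c - a) * ((f2 - f3) * (g2 - g3)) +
      (a + c - b) * ((f1 - f3) * (g1 - g3)) =
      2 * a * ((f1 - f2) * (g1 - g2)) + 2 * c * ((f2 - f3) * (g2 - g3)) +
      (a + (c - b)) * ((f1 - f2) * (g2 - g3) + (f2 - f3) * (g1 - g2)) := by ring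
  rw [e]
  have hc : 0 ≤ c := ha.trans (hab.trans hbc)
  exact add_nonneg (add_nonneg (mul_nonneg (by linarith) (mul_nonneg h1 h3))
    (mul_nonneg (by linarith) (mul_nonneg h2 h4)))
    (mul_nonneg (add_nonneg ha (sub_nonneg.2 hbc))
      (add_nonneg (mul_nonneg h1 h4) (mul_nonneg h2 h3)))

omit [DecidableEq ι] in
theorem tri_sum (a b g : ι → ℝ) : ∑ c, ∑ d, ∑ e, a c * b d * g e =
    (∑ c, a c) * (∑ d, b d) * (∑ e, g e) := by
  simp only [← mul_sum, ← sum_mul]

/-- the three-point sum -/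
def T3 (x f g : ι → ℝ) (c d e : ι) : ℝ :=
  (x c + x d - x e) * ((f c - f d) * (g c - g d)) +
  (x d + x e - x c) * ((f d - f e) * (g d - g e)) +
  (x c + x e - x d) * ((f c - f e) * (g c - g e))

omit [Fintype ι] [DecidableEq ι] in
theorem T3_nonneg {x f g : ι → ℝ} (hx : ∀ i, 0 ≤ x i)
    (hf : ∀ i j, x i ≤ x j → f j ≤ f i) (hg : ∀ i j, x i ≤ x j → g j ≤ g i) (c d e : ι) :
    0 ≤ T3 x f g c d e := by
  have key : ∀ i j k : ι, x i ≤ x j → x j ≤ x k → 0 ≤ T3 x f g i j k := fun i j k h1 h2 =>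
    three_ord (hx i) h1 h2 (hf _ _ h1) (hf _ _ h2) (hg _ _ h1) (hg _ _ h2)
  have s1 : ∀ i j k, T3 x f g i j k = T3 x f g j i k := fun i j k => by
    simp only [T3]; ring
  have s2 : ∀ i j k, T3 x f g i j k = T3 x f g i k j := fun i j k => by
    simp only [T3]; ring
  rcases le_total (x c) (x d) with h1 | h1 <;> rcases le_total (x d) (x e) with h2 | h2 <;>
    rcases le_total (x c) (x e) with h3 | h3
  · exact key c d e h1 h2
  · exact key c d e h1 h2
  · rw [s2]; exact key c e d h3 h2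
  · rw [s2, s1]; exact key e c d h3 h1
  · rw [s1]; exact key d c e h1 h3
  · rw [s1, s2]; exact key d e c h2 h3
  · rw [s1, s2, s1]; exact key e d c h2 h1
  · rw [s1, s2, s1]; exact key e d c h2 h1

/-- the correlation inequality -/
theorem lor {x f g : ι → ℝ} (hx : ∀ i, 0 ≤ x i)
    (hf : ∀ i j, x i ≤ x j → f j ≤ f i) (hg : ∀ i j, x i ≤ x j → g j ≤ g i) :
    ((∑ i, x i * f i) * (∑ i, x i * g i) - ∑ i, x i ^ 2 * (f i * g i)) *
        ((∑ i, x i) ^ 2 - ∑ i, x i ^ 2) ≤
      ((∑ i, x i) * (∑ i, x i * f i) - ∑ i, x i ^ 2 * f i) *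
        ((∑ i, x i) * (∑ i, x i * g i) - ∑ i, x i ^ 2 * g i) := by
  set S := ∑ i, x i with hS
  set M := ∑ i, x i ^ 2 with hM
  set F1 := ∑ i, x i * f i with hF1
  set G1 := ∑ i, x i * g i with hG1
  set F2 := ∑ i, x i ^ 2 * f i with hF2
  set G2 := ∑ i, x i ^ 2 * g i with hG2
  set Q := ∑ i, x i * (f i * g i) with hQ
  set Q2 := ∑ i, x i ^ 2 * (f i * g i) with hQ2
  -- the sum over distinct triples
  have hT : 0 ≤ ∑ c, ∑ d, ∑ e, (if c = d ∨ d = e ∨ c = e then 0 else
      x c * x d * x e * T3 x f g c d e) := by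
    refine sum_nonneg fun c _ => sum_nonneg fun d _ => sum_nonneg fun e _ => ?_
    split_ifs
    · exact le_rfl
    · exact mul_nonneg (mul_nonneg (mul_nonneg (hx c) (hx d)) (hx e)) (T3_nonneg hx hf hg c d e)
  have hP : 0 ≤ ∑ c, ∑ d, x c ^ 2 * x d ^ 2 * ((f c - f d) * (g c - g d)) := by
    refine sum_nonneg fun c _ => sum_nonneg fun d _ => mul_nonneg
      (mul_nonneg (sq_nonneg _) (sq_nonneg _)) ?_
    rcases le_total (x c) (x d) with h | h
    · exact mul_nonneg (sub_nonneg.2 (hf _ _ h)) (sub_nonneg.2 (hg _ _ h))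
    · exact mul_nonneg_of_nonpos_of_nonpos (sub_nonpos.2 (hf _ _ h)) (sub_nonpos.2 (hg _ _ h))
  -- pointwise: distinct triples = all triples - the three diagonals
  have hpt : ∀ c d e : ι, (if c = d ∨ d = e ∨ c = e then 0 else x c * x d * x e * T3 x f g c d e) =
      x c * x d * x e * T3 x f g c d e -
        (if c = d then x c * x d * x e * T3 x f g c d e else 0) -
        (if d = e then x c * x d * x e * T3 x f g c d e else 0) -
        (if c = e then x c * x d * x e * T3 x f g c d e else 0) := by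
    intro c d e
    by_cases h1 : c = d <;> by_cases h2 : d = e <;> by_cases h3 : c = e
    · subst h1 h2
      simp [T3]
    · exact absurd (h1.trans h2) h3
    · exact absurd (h1.symm.trans h3) h2
    · subst h1; simp [h2, T3]
    · exact absurd (h3.trans h2.symm) h1
    · subst h2; simp [h1, T3]
    · subst h3; simp [h1, h2]
    · simp [h1, h2, h3]
  have a0 : ∑ c, ∑ d, ∑ e, x c * x d * x e * ((x c + x d - x e) * ((f c - f d) * (g c - g d))) =
      2 * S ^ 2 * Q2 - 2 * S * (F2 * G1 + F1 * G2) + 2 * M * (F1 * G1) := by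
    have hm : ∀ c d e, x c * x d * x e * ((x c + x d - x e) * ((f c - f d) * (g c - g d))) =
        (x c ^ 2 * (f c * g c)) * x d * x e - (x c ^ 2 * f c) * (x d * g d) * x e -
        (x c ^ 2 * g c) * (x d * f d) * x e + (x c ^ 2) * (x d * (f d * g d)) * x e +
        (x c * (f c * g c)) * (x d ^ 2) * x e - (x c * f c) * (x d ^ 2 * g d) * x e -
        (x c * g c) * (x d ^ 2 * f d) * x e + (x c) * (x d ^ 2 * (f d * g d)) * x e -
        (x c * (f c * g c)) * x d * x e ^ 2 + (x c * f c) * (x d * g d) * x e ^ 2 +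
        (x c * g c) * (x d * f d) * x e ^ 2 - x c * (x d * (f d * g d)) * x e ^ 2 := by
      intro c d e; ring
    simp only [hm, sum_add_distrib, sum_sub_distrib, tri_sum, ← hS, ← hM, ← hF1, ← hG1, ← hF2,
      ← hG2, ← hQ, ← hQ2]
    ring
  have a1 : ∑ c, ∑ d, ∑ e, x c * x d * x e * ((x d + x e - x c) * ((f d - f e) * (g d - g e))) =
      ∑ c, ∑ d, ∑ e, x c * x d * x e * ((x c + x d - x e) * ((f c - f d) * (g c - g d))) := by
    rw [sum_comm]
    refine sum_congr rfl fun d _ => ?_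
    rw [sum_comm]
    refine sum_congr rfl fun e _ => sum_congr rfl fun c _ => by ring
  have a2 : ∑ c, ∑ d, ∑ e, x c * x d * x e * ((x c + x e - x d) * ((f c - f e) * (g c - g e))) =
      ∑ c, ∑ d, ∑ e, x c * x d * x e * ((x c + x d - x e) * ((f c - f d) * (g c - g d))) := by
    refine sum_congr rfl fun c _ => ?_
    rw [sum_comm]
    refine sum_congr rfl fun e _ => sum_congr rfl fun d _ => by ring
  have aP : ∑ c, ∑ d, x c ^ 2 * x d ^ 2 * ((f c - f d) * (g c - g d)) =
      2 * (M * Q2 - F2 * G2) := by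
    have hm : ∀ c d, x c ^ 2 * x d ^ 2 * ((f c - f d) * (g c - g d)) =
        (x c ^ 2 * (f c * g c)) * x d ^ 2 - (x c ^ 2 * f c) * (x d ^ 2 * g d) -
        (x c ^ 2 * g c) * (x d ^ 2 * f d) + (x c ^ 2) * (x d ^ 2 * (f d * g d)) := by
      intro c d; ring
    simp only [hm, sum_add_distrib, sum_sub_distrib, ← sum_mul_sum, ← hM, ← hF2, ← hG2, ← hQ2]
    ring
  have b1 : ∑ c, ∑ d, ∑ e, (if c = d then x c * x d * x e * T3 x f g c d e else 0) =
      2 * ∑ c, ∑ d, x c ^ 2 * x d ^ 2 * ((f c - f d) * (g c - g d)) := by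
    rw [mul_sum]
    refine sum_congr rfl fun c _ => ?_
    rw [mul_sum, sum_comm]
    refine sum_congr rfl fun e _ => ?_
    rw [sum_ite_eq]
    simp only [mem_univ, if_true, T3]
    ring
  have b2 : ∑ c, ∑ d, ∑ e, (if d = e then x c * x d * x e * T3 x f g c d e else 0) =
      2 * ∑ c, ∑ d, x c ^ 2 * x d ^ 2 * ((f c - f d) * (g c - g d)) := by
    rw [mul_sum]
    refine sum_congr rfl fun c _ => ?_
    rw [mul_sum]
    refine sum_congr rfl fun d _ => ?_
    rw [sum_ite_eq]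
    simp only [mem_univ, if_true, T3]
    ring
  have b3 : ∑ c, ∑ d, ∑ e, (if c = e then x c * x d * x e * T3 x f g c d e else 0) =
      2 * ∑ c, ∑ d, x c ^ 2 * x d ^ 2 * ((f c - f d) * (g c - g d)) := by
    rw [mul_sum]
    refine sum_congr rfl fun c _ => ?_
    rw [mul_sum]
    refine sum_congr rfl fun d _ => ?_
    rw [sum_ite_eq]
    simp only [mem_univ, if_true, T3]
    ring
  have hT3 : ∀ c d e, x c * x d * x e * T3 x f g c d e =
      x c * x d * x e * ((x c + x d - x e) * ((f c - f d) * (g c - g d))) +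
      x c * x d * x e * ((x d + x e - x c) * ((f d - f e) * (g d - g e))) +
      x c * x d * x e * ((x c + x e - x d) * ((f c - f e) * (g c - g e))) := by
    intro c d e; simp only [T3]; ring
  have eT : ∑ c, ∑ d, ∑ e, x c * x d * x e * T3 x f g c d e =
      3 * (2 * S ^ 2 * Q2 - 2 * S * (F2 * G1 + F1 * G2) + 2 * M * (F1 * G1)) := by
    simp only [hT3, sum_add_distrib]
    rw [a1, a2, a0]
    ring
  simp only [hpt, sum_sub_distrib] at hT
  rw [b1, b2, b3, aP, eT] at hT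
  rw [aP] at hP
  nlinarith [hT, hP]

end Pool.Agent.Helper4.SW
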