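import Pool.Agent.Helper4.SW.Tool

/-!
Top alternation: comparison of the functions `ch n` at the largest part with the other parts.
-/

set_option autoImplicit false

namespace Pool.Agent.Helper4.SW

open Pool.Agent.Helper6.HL hiding X
open Finset Polynomial

variable {q : ℕ} (w : Fin q → ℝ) (y : ℝ)

/-- minors of `ch` -/
noncomputable def De (m n : ℕ) (i j : Fin q) : ℝ :=
  ch w y (n + m + 1) i * ch w y (n + 1) j - ch w y (n + m + 1) j * ch w y (n + 1) i

/-- minors against the smallest part -/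
noncomputable def Dy (m n : ℕ) (i : Fin q) : ℝ :=
  ch w y (n + m + 1) i * E w (ch w y n) - E w (ch w y (n + m)) * ch w y (n + 1) i

/-- minors against the total -/
noncomputable def Ds (m n : ℕ) (i : Fin q) : ℝ :=
  ch w y (n + m + 1) i * l w y (n + 1) - l w y (n + m + 1) * ch w y (n + 1) i

theorem Ds_eq (m n : ℕ) (i : Fin q) : Ds w y m n i = E w (De w y m n i) + y * Dy w y m n i := by
  have h : De w y m n i = fun j => ch w y (n + m + 1) i * ch w y (n + 1) j -
      ch w y (n + 1) i * ch w y (n + m + 1) j := by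
    funext j; rw [De]; ring
  rw [h, E_sub, E_const_mul, E_const_mul, Ds, Dy, l_succ', l_succ']
  ring

theorem De_zero (m : ℕ) (i j : Fin q) : De w y m 0 i j = ch w y (m + 1) i - ch w y (m + 1) j := by
  rw [De]
  simp only [zero_add, ch_one]
  ring

theorem Dy_zero (m : ℕ) (i : Fin q) : Dy w y m 0 i = - E w (ch w y m) := by
  rw [Dy]
  simp only [zero_add, ch_one, ch_zero]
  simp [E]

/-- one step of the minors -/
theorem De_succ (m n : ℕ) (i j : Fin q) : De w y m (n + 1) i j =
    - w i * Ds w y m n i + w j * Ds w y m n j + w i * w j * De w y m n i j := by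
  simp only [De, Ds]
  rw [show n + 1 + m + 1 = (n + m + 1) + 1 by ring, ch_succ w y (n + m + 1), ch_succ w y (n + m + 1),
    ch_succ w y (n + 1), ch_succ w y (n + 1)]
  ring

theorem Ey_succ (n : ℕ) : E w (ch w y (n + 1)) = l w y (n + 1) - y * E w (ch w y n) := by
  rw [l_succ']; ring

theorem Dy_succ (m n : ℕ) (i : Fin q) : Dy w y m (n + 1) i =
    - w i * Ds w y m n i + y * (E w (ch w y (n + m)) * l w y (n + 1) -
      l w y (n + m + 1) * E w (ch w y n)) + w i * y * Dy w y m n i := by
  simp only [Dy, Ds]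
  rw [show n + 1 + m + 1 = (n + m + 1) + 1 by ring, show n + 1 + m = (n + m) + 1 by ring,
    ch_succ w y (n + m + 1), ch_succ w y (n + 1), Ey_succ, Ey_succ]
  ring

/-- the second form of one step -/
theorem De_succ' (m n : ℕ) (i j : Fin q) : ch w y (n + 1) i * De w y m (n + 1) i j =
    - (w i * ch w y (n + 1) i - w j * ch w y (n + 1) j) * Ds w y m n i -
      w j * (l w y (n + 1) - w i * ch w y (n + 1) i) * De w y m n i j := by
  rw [De_succ]
  simp only [De, Ds]
  ring

theorem Dy_succ' (m n : ℕ) (i : Fin q) : ch w y (n + 1) i * Dy w y m (n + 1) i =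
    - (w i * ch w y (n + 1) i - y * E w (ch w y n)) * Ds w y m n i -
      y * (l w y (n + 1) - w i * ch w y (n + 1) i) * Dy w y m n i := by
  rw [Dy_succ]
  simp only [Dy, Ds]
  ring

variable {w y}

theorem Hyp.ne (h : Hyp w y) (i : Fin q) : ∃ j, j ≠ i := by
  have : Nontrivial (Fin q) := Fin.nontrivial_iff_two_le.2 h.two
  exact exists_ne i

theorem ch_pos (h : Hyp w y) (n : ℕ) (i : Fin q) : 0 < ch w y (n + 1) i := by
  induction n generalizing i with
  | zero => rw [zero_add, ch_one]; exact one_pos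
  | succ n ih =>
    rw [ch_succ_succ]
    simp only [K'_apply]
    obtain ⟨j, hj⟩ := h.ne i
    have h1 := le_E2 h.nn (Cone.ch h.nn h.hy.le (n + 1)).nn hj
    have h2 := mul_pos (h.pos j) (ih j)
    have h3 := mul_nonneg h.hy.le (E_nonneg h.nn (Cone.ch h.nn h.hy.le n).nn)
    linarith

theorem l_pos (h : Hyp w y) (n : ℕ) : 0 < l w y n := by
  cases n with
  | zero => rw [l_zero]; exact one_pos
  | succ n =>
    have : Nonempty (Fin q) := ⟨⟨0, lt_of_lt_of_le two_pos h.two⟩⟩
    obtain ⟨i⟩ := this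
    rw [l_succ']
    have h1 := le_E h.nn (Cone.ch h.nn h.hy.le (n + 1)).nn i
    have h2 := mul_pos (h.pos i) (ch_pos h n i)
    have h3 := mul_nonneg h.hy.le (E_nonneg h.nn (Cone.ch h.nn h.hy.le n).nn)
    linarith

theorem ch_sub (h : Hyp w y) (n : ℕ) (i : Fin q) : 0 < l w y (n + 1) - w i * ch w y (n + 1) i := by
  rw [← ch_succ]
  exact ch_pos h (n + 1) i

/-- the top part -/
def Top (w : Fin q → ℝ) (t : Fin q) : Prop := ∀ i, w i ≤ w t

/-- the smallest part never exceeds the top one, if `w t (1 - w t) ≥ y` -/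
theorem top_y (h : Hyp w y) {t : Fin q} (ht : y ≤ w t * (1 - w t)) (n : ℕ) :
    y * E w (ch w y n) ≤ w t * ch w y (n + 1) t ∧
      y * E w (ch w y (n + 1)) ≤ w t * ch w y (n + 2) t := by
  induction n with
  | zero =>
    refine ⟨?_, ?_⟩
    · rw [ch_zero, ch_one]
      simp [E]
      exact h.nn t
    · have e0 : E w (fun _ => (0 : ℝ)) = 0 := by simp [E]
      rw [ch_succ_succ, zero_add, ch_one, ch_zero]
      simp only [K'_apply, E_one h, e0]
      linarith
  | succ n ih =>
    refine ⟨ih.2, ?_⟩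
    have h1 := l_succ' w y n
    have h2 : ch w y (n + 2) t = l w y (n + 1) - w t * ch w y (n + 1) t := ch_succ w y (n + 1) t
    have h3 : ch w y (n + 1 + 2) t = l w y (n + 2) - w t * ch w y (n + 2) t :=
      ch_succ w y (n + 2) t
    have h4 := l_succ' w y (n + 1)
    rw [show n + 1 + 1 = n + 2 by ring] at h4 ⊢
    have h5 := le_E h.nn (Cone.ch h.nn h.hy.le (n + 2)).nn t
    have h6 := h.lt t
    have h7 := ih.1
    have h8 : E w (ch w y (n + 1)) - ch w y (n + 2) t = w t * ch w y (n + 1) t - y * E w (ch w y n) := by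
      rw [h2, h1]; ring
    have h9 := mul_nonneg (sub_nonneg.2 h6.le) (sub_nonneg.2 h5)
    have h10 := mul_nonneg (mul_nonneg (h.nn t) h.hy.le) (sub_nonneg.2 h7)
    have h11 : w t * ch w y (n + 1 + 2) t - y * E w (ch w y (n + 2)) =
      (w t - y) * (E w (ch w y (n + 2)) - w t * ch w y (n + 2) t) +
        w t * y * (E w (ch w y (n + 1)) - ch w y (n + 2) t) := by
      rw [h3, h4]; ring
    rw [h8] at h11
    nlinarith

/-- sign `(-1)^n` -/
def sg (n : ℕ) : ℝ := (-1) ^ n

theorem sg_succ (n : ℕ) : sg (n + 1) = - sg n := by rw [sg, sg, pow_succ]; ring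

theorem sg_sq (n : ℕ) : sg n * sg n = 1 := by
  rw [sg, ← mul_pow]; simp

/-- top alternation when `w t (1 - w t) ≥ y` -/
theorem top_alt1 (h : Hyp w y) {t : Fin q} (htop : Top w t) (ht : y ≤ w t * (1 - w t)) (m n : ℕ) :
    (∀ j, sg n * De w y m n t j ≤ 0) ∧ sg n * Dy w y m n t ≤ 0 ∧ sg n * Ds w y m n t ≤ 0 := by
  have key : ∀ n, (∀ j, sg n * De w y m n t j ≤ 0) → sg n * Dy w y m n t ≤ 0 →
      sg n * Ds w y m n t ≤ 0 := by
    intro n h1 h2
    rw [Ds_eq, mul_add, ← E_const_mul]
    have e1 : E w (fun i => sg n * De w y m n t i) ≤ 0 :=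
      sum_nonpos fun i _ => mul_nonpos_of_nonneg_of_nonpos (h.nn i) (h1 i)
    have e2 := mul_nonpos_of_nonneg_of_nonpos h.hy.le h2
    nlinarith
  induction n with
  | zero =>
    have h1 : ∀ j, sg 0 * De w y m 0 t j ≤ 0 := fun j => by
      rw [De_zero, sg, pow_zero, one_mul, sub_nonpos]
      exact (Cone.ch h.nn h.hy.le (m + 1)).anti j t (htop j)
    have h2 : sg 0 * Dy w y m 0 t ≤ 0 := by
      rw [Dy_zero, sg, pow_zero, one_mul]
      exact neg_nonpos.2 (E_nonneg h.nn (Cone.ch h.nn h.hy.le m).nn)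
    exact ⟨h1, h2, key 0 h1 h2⟩
  | succ n ih =>
    obtain ⟨i1, i2, i3⟩ := ih
    have hp := ch_pos h n t
    have h1 : ∀ j, sg (n + 1) * De w y m (n + 1) t j ≤ 0 := fun j => by
      refine nonpos_of_mul_nonpos_right ?_ hp
      have e1 : ch w y (n + 1) t * (sg (n + 1) * De w y m (n + 1) t j) =
          (w t * ch w y (n + 1) t - w j * ch w y (n + 1) j) * (sg n * Ds w y m n t) +
          w j * (l w y (n + 1) - w t * ch w y (n + 1) t) * (sg n * De w y m n t j) := by
        rw [sg_succ]
        linear_combination (- sg n) * De_succ' w y m n t j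
      rw [e1]
      have a1 := mul_nonpos_of_nonneg_of_nonpos (sub_nonneg.2 ((Cone.ch h.nn h.hy.le (n + 1)).mono j t
        (htop j))) i3
      have a2 := mul_nonpos_of_nonneg_of_nonpos (mul_nonneg (h.nn j) (ch_sub h n t).le) (i1 j)
      linarith
    have h2 : sg (n + 1) * Dy w y m (n + 1) t ≤ 0 := by
      refine nonpos_of_mul_nonpos_right ?_ hp
      have e1 : ch w y (n + 1) t * (sg (n + 1) * Dy w y m (n + 1) t) =
          (w t * ch w y (n + 1) t - y * E w (ch w y n)) * (sg n * Ds w y m n t) +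
          y * (l w y (n + 1) - w t * ch w y (n + 1) t) * (sg n * Dy w y m n t) := by
        rw [sg_succ]
        linear_combination (- sg n) * Dy_succ' w y m n t
      rw [e1]
      have a1 := mul_nonpos_of_nonneg_of_nonpos (sub_nonneg.2 (top_y h ht n).1) i3
      have a2 := mul_nonpos_of_nonneg_of_nonpos (mul_nonneg h.hy.le (ch_sub h n t).le) i2
      linarith
    exact ⟨h1, h2, key _ h1 h2⟩

/-- the identity for the minors of the smallest part -/
theorem Dsy_eq (m n : ℕ) : E w (ch w y (n + m)) * l w y (n + 1) -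
    l w y (n + m + 1) * E w (ch w y n) = - E w (Dy w y m n) := by
  have e : Dy w y m n = fun i => E w (ch w y n) * ch w y (n + m + 1) i -
      E w (ch w y (n + m)) * ch w y (n + 1) i := by
    funext i; rw [Dy]; ring
  rw [e, E_sub, E_const_mul, E_const_mul, l_succ', l_succ']
  ring

/-- top alternation for two big parts -/
theorem top_alt2 (h : Hyp w y) {t s : Fin q} (hts : t ≠ s) (hall : ∀ j, j = t ∨ j = s)
    (hst : w s ≤ w t) (m n : ℕ) :
    sg n * De w y m n t s ≤ 0 ∧ sg n * (w t * Dy w y m n t + w s * Dy w y m n s) ≤ 0 ∧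
      sg n * (w t * Dy w y m n t - w s * Dy w y m n s) ≤ 0 := by
  have hE : ∀ f : Fin q → ℝ, E w f = w t * f t + w s * f s := by
    intro f
    have hu : (univ : Finset (Fin q)) = {t, s} := by
      ext j
      simpa using hall j
    rw [E, hu, sum_pair hts]
  induction n with
  | zero =>
    rw [De_zero, Dy_zero, Dy_zero, sg, pow_zero, one_mul, one_mul, one_mul]
    have h1 := (Cone.ch h.nn h.hy.le (m + 1)).anti s t hst
    have h2 := E_nonneg h.nn (Cone.ch h.nn h.hy.le m).nn
    have h3 := mul_nonneg (h.nn t) h2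
    have h4 := mul_nonneg (h.nn s) h2
    have h5 := mul_nonneg (sub_nonneg.2 hst) h2
    refine ⟨by linarith, by linarith, by linarith⟩
  | succ n ih =>
    obtain ⟨i1, i2, i3⟩ := ih
    have a1 : Ds w y m n t = w s * De w y m n t s + y * Dy w y m n t := by
      rw [Ds_eq, hE]
      have : De w y m n t t = 0 := by rw [De]; ring
      rw [this]; ring
    have a2 : Ds w y m n s = - (w t * De w y m n t s) + y * Dy w y m n s := by
      rw [Ds_eq, hE]
      have : De w y m n s s = 0 := by rw [De]; ring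
      rw [this]
      have : De w y m n s t = - De w y m n t s := by rw [De, De]; ring
      rw [this]; ring
    have a3 : E w (Dy w y m n) = w t * Dy w y m n t + w s * Dy w y m n s := hE _
    have e1 : De w y m (n + 1) t s = - (w t * w s * De w y m n t s) -
        y * (w t * Dy w y m n t - w s * Dy w y m n s) := by
      rw [De_succ, a1, a2]; ring
    have e2 : Dy w y m (n + 1) t = - (w t * w s * De w y m n t s) -
        y * (w t * Dy w y m n t + w s * Dy w y m n s) := by
      rw [Dy_succ, Dsy_eq, a1, a3]; ring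
    have e3 : Dy w y m (n + 1) s = (w t * w s * De w y m n t s) -
        y * (w t * Dy w y m n t + w s * Dy w y m n s) := by
      rw [Dy_succ, Dsy_eq, a2, a3]; ring
    rw [sg_succ, e1, e2, e3]
    have p1 := mul_nonneg (h.nn t) (h.nn s)
    have b1 := mul_nonpos_of_nonneg_of_nonpos p1 i1
    have b2 := mul_nonpos_of_nonneg_of_nonpos h.hy.le i2
    have b3 := mul_nonpos_of_nonneg_of_nonpos h.hy.le i3
    have c1 := mul_nonpos_of_nonneg_of_nonpos (sub_nonneg.2 hst) b1
    have c2 := mul_nonpos_of_nonneg_of_nonpos (add_nonneg (h.nn t) (h.nn s)) b1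
    have c3 := mul_nonpos_of_nonneg_of_nonpos (sub_nonneg.2 hst) b2
    have c4 := mul_nonpos_of_nonneg_of_nonpos (add_nonneg (h.nn t) (h.nn s)) b2
    refine ⟨?_, ?_, ?_⟩ <;> nlinarith

theorem top_alt (h : Hyp w y) {t : Fin q} (htop : Top w t) (m n : ℕ) :
    (∀ j, sg n * De w y m n t j ≤ 0) ∧ sg n * Dy w y m n t ≤ 0 ∧ sg n * Ds w y m n t ≤ 0 := by
  by_cases ht : y ≤ w t * (1 - w t)
  · exact top_alt1 h htop ht m n
  · -- only two big parts
    obtain ⟨i0, hi0⟩ := h.half
    have hh : 1 + y < 2 * w t := lt_of_lt_of_le hi0 (by linarith [htop i0])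
    obtain ⟨s, hs⟩ := h.ne t
    have hall : ∀ j, j = t ∨ j = s := by
      intro j
      by_contra hj
      rw [not_or] at hj
      apply ht
      have h3 := sum_le_sum_of_subset_of_nonneg (subset_univ ({t, s, j} : Finset (Fin q)))
        (f := w) (fun k _ _ => h.nn k)
      rw [sum_insert (by simp [Ne.symm hs, Ne.symm hj.1]), sum_pair (Ne.symm hj.2), h.one] at h3
      have h4 := h.lt s
      have h5 := h.lt j
      nlinarith [h.hy]
    obtain ⟨c1, c2, c3⟩ := top_alt2 h (Ne.symm hs) hall (htop s) m n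
    have d1 : sg n * Dy w y m n t ≤ 0 := by
      refine nonpos_of_mul_nonpos_right ?_ (h.pos t)
      nlinarith
    have d0 : ∀ j, sg n * De w y m n t j ≤ 0 := by
      intro j
      rcases hall j with rfl | rfl
      · have : De w y m n j j = 0 := by rw [De]; ring
        rw [this, mul_zero]
      · exact c1
    refine ⟨d0, d1, ?_⟩
    rw [Ds_eq, mul_add, ← E_const_mul]
    have e1 : E w (fun i => sg n * De w y m n t i) ≤ 0 :=
      sum_nonpos fun i _ => mul_nonpos_of_nonneg_of_nonpos (h.nn i) (d0 i)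
    have e2 := mul_nonpos_of_nonneg_of_nonpos h.hy.le d1
    nlinarith

end Pool.Agent.Helper4.SW
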