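import Pool.Agent.Helper4.SW.Good
import Pool.Agent.Helper4.SW.Path
import Pool.Agent.Helper4.SW.Lor
import Pool.Agent.Helper4.SW.Leaf

/-!
S-world: size-changing certificates (helper20, helper6).
-/

set_option autoImplicit false

namespace Pool.Agent.Helper4.SW

open Pool.Agent.Helper6.HL hiding X
open Finset Polynomial

variable {q : ℕ} (w : Fin q → ℝ) (y : ℝ)

/-- `l j - psi j ^ = (x - y) chi_{j-1}` -/
noncomputable def kap (j : ℕ) : Fin q → ℝ := fun i => (w i - y) * ch w y j i

theorem hat_psi_kap (j : ℕ) (i : Fin q) : hat w (psi w y j) i = l w y j - kap w y j i :=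
  hat_psi w y j i

theorem Pw_eq (k : ℕ) : Pw w y k = y * l w y k + l w y (k + 1) := by
  rw [Pw, W, l_succ]; rfl

theorem ZZ_step (j k : ℕ) : y * (l w y (j + 1) * l w y k) + L w (psi w y (j + 1) * psi w y k) =
    y * (l w y j * l w y (k + 1)) + L w (psi w y j * psi w y (k + 1)) := by
  have h1 : L w (psi w y (j + 1) * psi w y k) =
      y * l w y j * L w (psi w y k) + L w (Polynomial.X * psi w y j * psi w y k) := by
    rw [psi_succ, add_mul, map_add, L_C_mul]
  have h2 : L w (psi w y j * psi w y (k + 1)) =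
      y * l w y k * L w (psi w y j) + L w (Polynomial.X * psi w y j * psi w y k) := by
    rw [psi_succ, mul_add, map_add, mul_comm (psi w y j), L_C_mul]
    congr 2
    ring
  rw [h1, h2, l_succ, l_succ]
  ring

/-- the path through the junction of two legs -/
theorem Pw_add' (j k : ℕ) : Pw w y (j + k) =
    y * (l w y j * l w y k) + L w (psi w y j * psi w y k) := by
  induction j generalizing k with
  | zero => rw [zero_add, l_zero, psi_zero, one_mul, one_mul]; rfl
  | succ j ih => rw [ZZ_step, ← ih]; congr 1; ring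

theorem Pw_add (j k : ℕ) : Pw w y (j + k) = y * (l w y j * l w y k) +
    E w (fun i => hat w (psi w y j) i * hat w (psi w y k) i) := by
  rw [Pw_add', L_mul]

/-- the full functions: value `l j` at the smallest part -/
noncomputable def fs (j : ℕ) : Fin (q + 1) → ℝ := Fin.cons (l w y j) (hat w (psi w y j))

theorem fs_zero (j : ℕ) : fs w y j 0 = l w y j := rfl

theorem fs_succ (j : ℕ) (i : Fin q) : fs w y j i.succ = hat w (psi w y j) i := rfl

theorem al_zero' : al w y 0 = y := rfl

theorem al_succ' (i : Fin q) : al w y i.succ = w i := rfl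

/-- inner products of the full functions -/
theorem Pw_add_fs (j k : ℕ) : Pw w y (j + k) = ∑ i, al w y i * (fs w y j i * fs w y k i) := by
  rw [Pw_add, Fin.sum_univ_succ]
  rfl

theorem Pw_fs (k : ℕ) : Pw w y k = ∑ i, al w y i * fs w y k i := by
  have := Pw_add_fs w y 0 k
  rw [zero_add] at this
  rw [this]
  refine sum_congr rfl fun i _ => ?_
  congr 1
  refine Fin.cases ?_ (fun j => ?_) i
  · rw [fs_zero, l_zero, one_mul]
  · rw [fs_succ, psi_zero, hat_one, one_mul]

theorem fs_step (k : ℕ) (i : Fin (q + 1)) : fs w y (k + 1) i = Pw w y k - al w y i * fs w y k i := by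
  refine Fin.cases ?_ (fun j => ?_) i
  · rw [fs_zero, fs_zero, al_zero', Pw_eq]; ring
  · rw [fs_succ, fs_succ, al_succ', Pw_eq, psi_succ, map_add, hat_C, hat_X_mul, Pi.add_apply,
      K'_apply, l_succ, L_def]
    ring

variable {w y}

theorem kap_nonneg (h : Hyp w y) (j : ℕ) (i : Fin q) : 0 ≤ kap w y j i :=
  mul_nonneg (sub_nonneg.2 (h.lt i).le) ((Cone.ch h.nn h.hy.le j).nn i)

theorem kap_mono (h : Hyp w y) (j : ℕ) (a b : Fin q) (hab : w a ≤ w b) :
    kap w y j a ≤ kap w y j b :=
  (Cone.ch h.nn h.hy.le j).sub_mono h.hy.le a b hab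

theorem fs_anti (h : Hyp w y) (k : ℕ) (a b : Fin (q + 1)) (hab : al w y a ≤ al w y b) :
    fs w y k b ≤ fs w y k a := by
  refine Fin.cases (motive := fun a => al w y a ≤ al w y b → fs w y k b ≤ fs w y k a)
    (fun hab => ?_) (fun a hab => ?_) a hab
  · refine Fin.cases le_rfl (fun j => ?_) b
    rw [fs_zero, fs_succ, hat_psi_kap]
    linarith [kap_nonneg h k j]
  · refine Fin.cases (motive := fun b => al w y a.succ ≤ al w y b → fs w y k b ≤ fs w y k a.succ)
      (fun hab => ?_) (fun b hab => ?_) b hab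
    · rw [al_succ', al_zero'] at hab
      exact absurd (h.lt a) (not_lt.2 hab)
    · exact (Cone.hat h.nn (psi_NN h.nn h.hy.le k)).anti a b hab

theorem al_nonneg (h : Hyp w y) (i : Fin (q + 1)) : 0 ≤ al w y i := by
  refine Fin.cases h.hy.le (fun j => h.nn j) i

theorem Pw_pos (h : Hyp w y) (k : ℕ) : 0 < Pw w y k := by
  rw [Pw_eq]
  exact add_pos (mul_pos h.hy (l_pos h k)) (l_pos h (k + 1))

theorem al_sum (h : Hyp w y) : ∑ i, al w y i = 1 + y := by
  rw [Fin.sum_univ_succ]
  have : ∑ i : Fin q, al w y i.succ = ∑ i, w i := rfl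
  rw [this, h.one, al_zero', add_comm]

theorem Pw_zero (h : Hyp w y) : Pw w y 0 = 1 + y := by
  rw [Pw_eq, l_zero, zero_add]
  have : l w y 1 = 1 := by
    rw [l_succ' w y 0, zero_add, ch_one, ch_zero, E_one h]
    simp [E]
  rw [this]; ring

theorem Pw_one (h : Hyp w y) : Pw w y 1 = (∑ i, al w y i) ^ 2 - ∑ i, al w y i ^ 2 := by
  rw [Pw_fs, al_sum h]
  have : ∀ i, al w y i * fs w y 1 i = (1 + y) * al w y i - al w y i ^ 2 := by
    intro i
    have e := fs_step w y 0 i
    rw [zero_add, Pw_zero h] at e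
    rw [e]
    have e0 : fs w y 0 i = 1 := by
      refine Fin.cases ?_ (fun j => ?_) i
      · rw [fs_zero, l_zero]
      · rw [fs_succ, psi_zero, hat_one]
    rw [e0]; ring
  rw [sum_congr rfl fun i _ => this i, sum_sub_distrib, ← mul_sum, al_sum h]
  ring

/-- the path weights: `P_{m+N} / P_m` is largest for `m = 2` -/
theorem Pw_ratio (h : Hyp w y) (k N : ℕ) : Pw w y (k + N) * Pw w y 1 ≤ Pw w y (1 + N) * Pw w y k := by
  have f0 : ∀ i, fs w y 0 i = 1 := by
    intro i
    refine Fin.cases ?_ (fun j => ?_) i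
    · rw [fs_zero, l_zero]
    · rw [fs_succ, psi_zero, hat_one]
  cases k with
  | zero =>
    -- Chebyshev
    have hc : 0 ≤ ∑ i, ∑ j, al w y i * al w y j *
        ((fs w y 1 i - fs w y 1 j) * (fs w y N i - fs w y N j)) := by
      refine sum_nonneg fun i _ => sum_nonneg fun j _ => mul_nonneg
        (mul_nonneg (al_nonneg h i) (al_nonneg h j)) ?_
      rcases le_total (al w y i) (al w y j) with hij | hij
      · exact mul_nonneg (sub_nonneg.2 (fs_anti h 1 _ _ hij)) (sub_nonneg.2 (fs_anti h N _ _ hij))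
      · exact mul_nonneg_of_nonpos_of_nonpos (sub_nonpos.2 (fs_anti h 1 _ _ hij))
          (sub_nonpos.2 (fs_anti h N _ _ hij))
    have hm : ∀ i j, al w y i * al w y j *
        ((fs w y 1 i - fs w y 1 j) * (fs w y N i - fs w y N j)) =
        (al w y i * (fs w y 1 i * fs w y N i)) * al w y j -
        (al w y i * fs w y 1 i) * (al w y j * fs w y N j) -
        (al w y i * fs w y N i) * (al w y j * fs w y 1 j) +
        al w y i * (al w y j * (fs w y 1 j * fs w y N j)) := by
      intro i j; ring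
    simp only [hm, sum_add_distrib, sum_sub_distrib, ← sum_mul_sum, ← Pw_fs, ← Pw_add_fs,
      al_sum h] at hc
    rw [zero_add, Pw_zero h]
    nlinarith
  | succ k =>
    have hl := lor (x := al w y) (f := fs w y k) (g := fs w y N) (al_nonneg h)
      (fun i j hij => fs_anti h k i j hij) (fun i j hij => fs_anti h N i j hij)
    rw [← Pw_one h, ← Pw_fs, ← Pw_fs] at hl
    have e1 : ∀ j, (∑ i, al w y i) * Pw w y j - ∑ i, al w y i ^ 2 * fs w y j i = Pw w y (1 + j) := by
      intro j
      rw [Pw_add_fs, Pw_fs w y j, mul_sum, ← sum_sub_distrib]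
      refine sum_congr rfl fun i _ => ?_
      have e := fs_step w y 0 i
      rw [zero_add, Pw_zero h, f0] at e
      rw [e, al_sum h]
      ring
    have e2 : Pw w y k * Pw w y N - ∑ i, al w y i ^ 2 * (fs w y k i * fs w y N i) =
        Pw w y (k + 1 + N) := by
      rw [Pw_add_fs, Pw_fs w y N, mul_sum, ← sum_sub_distrib]
      refine sum_congr rfl fun i _ => ?_
      rw [fs_step]
      ring
    rw [e1, e1, e2] at hl
    rw [show k + 1 = 1 + k by ring] at hl ⊢
    linarith [mul_comm (Pw w y (1 + k)) (Pw w y (1 + N))]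

/-! ### certificates -/

theorem size_R (J : List ℕ) : (R J).size = J.sum + J.length := by
  induction J with
  | nil => rfl
  | cons j J ih => simp only [R, B.size, B.size_path, ih, List.sum_cons, List.length_cons]; omega

variable (w y)

/-- value of the message of the spider at the smallest part -/
noncomputable def sa (J : List ℕ) : ℝ := L w (st w y (R J)).p

/-- message of the spider -/
noncomputable def sf (J : List ℕ) : Fin q → ℝ :=
  fun i => y * (st w y (R J)).a + K' w (hat w (st w y (R J)).p) i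

variable {w y}

theorem Z_sp (A : ℝ) (Λ : ℝ[X]) (J : List ℕ) :
    Z w y A Λ (.cons (R J) .nil) = y * A * sa w y J + E w (fun i => hat w Λ i * sf w y J i) := by
  rw [Z, st_one]
  simp only
  rw [L_mul]
  congr 1
  congr 1
  funext i
  rw [map_add, hat_C, hat_X_mul]
  rfl

theorem Z_nil (A : ℝ) (Λ : ℝ[X]) : Z w y A Λ .nil = y * A + E w (hat w Λ) := by
  rw [Z]
  have e1 : (st w y B.nil).a = 1 := rfl
  have e2 : (st w y B.nil).p = 1 := rfl
  rw [e1, e2, mul_one, mul_one]
  rfl

theorem Z_path (A : ℝ) (Λ : ℝ[X]) (j : ℕ) : Z w y A Λ (B.path j) =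
    l w y j * (y * A + E w (hat w Λ)) - E w (fun i => hat w Λ i * kap w y j i) := by
  have e : (fun i => hat w Λ i * hat w (psi w y j) i) =
      fun i => l w y j * hat w Λ i - hat w Λ i * kap w y j i := by
    funext i; rw [hat_psi_kap]; ring
  rw [Z, st_path]
  simp only
  rw [L_mul, e, E_sub, E_const_mul]
  ring

/-- a spider with at least two legs may be replaced by a leg of the same size -/
theorem Lt_path (J : List ℕ) (hJ : 2 ≤ J.length) :
    Lt (B.path (J.sum + J.length + 1)) (.cons (R J) .nil) := by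
  refine ⟨?_, Or.inl ?_⟩
  · simp only [B.size, B.size_path, size_R]
    try omega
  · have h1 := lv_path (J.sum + J.length + 1)
    simp only [lv, lv_R]
    omega

/-- `tau2 * P_2` -/
theorem t2_eq (N : ℕ) : l w y N * Pw w y 1 - Pw w y (1 + N) =
    E w (fun i => hat w (psi w y 1) i * kap w y N i) := by
  have h1 := Pw_add w y 1 N
  have h2 : Pw w y 1 = y * l w y 1 + E w (hat w (psi w y 1)) := by
    rw [Pw_eq, l_succ w y 1, L_def]
  have e : (fun i => hat w (psi w y 1) i * hat w (psi w y N) i) =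
      fun i => l w y N * hat w (psi w y 1) i - hat w (psi w y 1) i * kap w y N i := by
    funext i; rw [hat_psi_kap w y N]; ring
  rw [h1, h2, e, E_sub, E_const_mul]
  ring

theorem kap_pos (h : Hyp w y) (j : ℕ) (i : Fin q) : 0 < kap w y (j + 1) i :=
  mul_pos (sub_pos.2 (h.lt i)) (ch_pos h j i)

theorem psi_pos (h : Hyp w y) (j : ℕ) (i : Fin q) : 0 < hat w (psi w y j) i := by
  rw [hat_psi']
  exact add_pos_of_pos_of_nonneg (ch_pos h j i)
    (mul_nonneg h.hy.le ((Cone.ch h.nn h.hy.le j).nn i))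

theorem E_pos (h : Hyp w y) {f : Fin q → ℝ} (hf : ∀ i, 0 < f i) : 0 < E w f := by
  have : Nonempty (Fin q) := ⟨⟨0, lt_of_lt_of_le two_pos h.two⟩⟩
  exact sum_pos (fun i _ => mul_pos (h.pos i) (hf i)) univ_nonempty

theorem t2_pos (h : Hyp w y) (N : ℕ) : 0 < l w y (N + 1) * Pw w y 1 - Pw w y (N + 2) := by
  rw [show N + 2 = 1 + (N + 1) by ring, t2_eq]
  exact E_pos h fun i => mul_pos (psi_pos h 1 i) (kap_pos h N i)

/-- helper20's and helper6's deletion certificate: `w` good -/
theorem good_of_F1' (h : Hyp w y) (J : List ℕ) (hJ : 2 ≤ J.length)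
    (hgood : Pw w y (J.sum + J.length + 2) ≤ sa w y J * Pw w y 1)
    (hup : sa w y J ≤ l w y (J.sum + J.length + 1))
    (hF1 : ∀ Λ : ℝ[X], NN Λ → 0 ≤
      (l w y (J.sum + J.length + 1) * Pw w y 1 - Pw w y (J.sum + J.length + 2)) *
        (E w (fun i => hat w Λ i * sf w y J i) - sa w y J * E w (hat w Λ)) +
      (sa w y J * Pw w y 1 - Pw w y (J.sum + J.length + 2)) *
        E w (fun i => hat w Λ i * kap w y (J.sum + J.length + 1) i)) :
    Good w y (.cons (R J) .nil) := by
  intro A Λ k hA hΛ h1 h2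
  set N := J.sum + J.length + 1 with hN
  have hsize : (B.cons (R J) .nil).size = N := by
    simp only [B.size, size_R]; omega
  have hZ0 := h1 .nil (by rw [hsize]; simp only [B.size]; omega)
  have hZN := h2 (B.path N) (Lt_path J hJ)
  rw [B.size_path] at hZN
  rw [B.size, add_zero] at hZ0
  rw [hsize, Z_sp]
  rw [Z_nil] at hZ0
  rw [Z_path] at hZN
  have hF := hF1 Λ hΛ
  have hr := Pw_ratio h k N
  rw [show 1 + N = J.sum + J.length + 2 by omega] at hr
  have p1 := Pw_pos h 1
  set r := Pw w y (J.sum + J.length + 2)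
  set G := hat w Λ
  set a := sa w y J
  set EG := E w G
  set K := E w (fun i => G i * kap w y N i)
  set F := E w (fun i => G i * sf w y J i)
  set P := Pw w y (k + N)
  set l := l w y N
  have ht0 : 0 < l * Pw w y 1 - r := t2_pos h (J.sum + J.length)
  refine le_of_mul_le_mul_left ?_ ht0
  have c1 : 0 ≤ a * Pw w y 1 - r := by linarith
  have c2 : 0 ≤ l - a := by linarith
  have r0 : 0 ≤ r := (Pw_pos h _).le
  have m1 := mul_le_mul_of_nonneg_left hZN c1
  have m2 := mul_le_mul_of_nonneg_left hZ0 (mul_nonneg r0 c2)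
  have m3 := mul_le_mul_of_nonneg_left hr c2
  linarith

/-- the same for all functions in the cone -/
theorem good_of_F1 (h : Hyp w y) (J : List ℕ) (hJ : 2 ≤ J.length)
    (hgood : Pw w y (J.sum + J.length + 2) ≤ sa w y J * Pw w y 1)
    (hup : sa w y J ≤ l w y (J.sum + J.length + 1))
    (hF1 : ∀ G : Fin q → ℝ, Cone w G → 0 ≤
      (l w y (J.sum + J.length + 1) * Pw w y 1 - Pw w y (J.sum + J.length + 2)) *
        (E w (fun i => G i * sf w y J i) - sa w y J * E w G) +
      (sa w y J * Pw w y 1 - Pw w y (J.sum + J.length + 2)) *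
        E w (fun i => G i * kap w y (J.sum + J.length + 1) i)) :
    Good w y (.cons (R J) .nil) :=
  good_of_F1' h J hJ hgood hup fun Λ hΛ => hF1 (hat w Λ) (Cone.hat h.nn hΛ)

end Pool.Agent.Helper4.SW
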