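import Pool.Agent.Helper4.SW.Real

/-!
S-world: contexts, rerooting, the measure, improvements, and the assembly of the S-world
inequality from local domination lemmas.
-/

set_option autoImplicit false

namespace Pool.Agent.Helper4.SW

open Pool.Agent.Helper6.HL hiding X
open Finset Polynomial


/-! ### The measure -/

/-- number of leaves strictly below the root -/
def lv : B → ℕ
  | .nil => 0
  | .cons c s => max 1 (lv c) + lv s

/-- total depth -/
def td : B → ℕ
  | .nil => 0
  | .cons c s => td c + (c.size + 1) + td s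

theorem lv_pos {F : B} (h : 0 < F.size) : 1 ≤ lv F := by
  cases F with
  | nil => simp [B.size] at h
  | cons c s => simp only [lv]; omega

theorem lv_app (F G : B) : lv (F.app G) = lv F + lv G := by
  induction F with
  | nil => simp [B.app, lv]
  | cons c s _ ih => simp only [B.app, lv, ih]; omega

theorem td_app (F G : B) : td (F.app G) = td F + td G := by
  induction F with
  | nil => simp [B.app, td]
  | cons c s _ ih => simp only [B.app, td, ih]; omega

/-- the order on rooted trees of the same size -/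
def Lt (F' F : B) : Prop := F'.size = F.size ∧ (lv F' < lv F ∨ (lv F' = lv F ∧ td F' < td F))

theorem Lt.app_right {F' F : B} (h : Lt F' F) (G : B) : Lt (F'.app G) (F.app G) := by
  obtain ⟨h1, h2⟩ := h
  refine ⟨by rw [B.size_app, B.size_app, h1], ?_⟩
  rw [lv_app, lv_app, td_app, td_app]
  omega

theorem Lt.cons_left {c' c : B} (h : Lt c' c) (s : B) : Lt (.cons c' s) (.cons c s) := by
  obtain ⟨h1, h2⟩ := h
  refine ⟨by simp only [B.size, h1], ?_⟩
  simp only [lv, td]
  have hc : 0 < c.size := by
    rcases Nat.eq_zero_or_pos c.size with h0 | h0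
    · have e1 : c = .nil := by cases c with
        | nil => rfl
        | cons _ _ => simp [B.size] at h0
      have e2 : c' = .nil := by cases c' with
        | nil => rfl
        | cons _ _ => rw [h0] at h1; simp [B.size] at h1
      subst e1 e2
      simp at h2
    · exact h0
  have l1 := lv_pos hc
  have l2 := lv_pos (h1 ▸ hc : 0 < c'.size)
  omega

variable {q : ℕ} (w : Fin q → ℝ) (y : ℝ)

/-- polynomials with nonnegative coefficients -/
def NN (p : ℝ[X]) : Prop := ∀ n, 0 ≤ p.coeff n

theorem NN.add {p r : ℝ[X]} (hp : NN p) (hr : NN r) : NN (p + r) := fun n => by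
  rw [coeff_add]; exact add_nonneg (hp n) (hr n)

theorem NN.mul {p r : ℝ[X]} (hp : NN p) (hr : NN r) : NN (p * r) := fun n => by
  rw [coeff_mul]; exact sum_nonneg fun i _ => mul_nonneg (hp _) (hr _)

theorem NN.C {a : ℝ} (ha : 0 ≤ a) : NN (C a) := fun n => by
  rw [coeff_C]; split_ifs <;> [exact ha; exact le_rfl]

theorem NN.X : NN (Polynomial.X : ℝ[X]) := fun n => by
  rw [coeff_X]; split_ifs <;> [exact zero_le_one; exact le_rfl]

theorem NN.one : NN (1 : ℝ[X]) := fun n => by
  rw [coeff_one]; split_ifs <;> [exact zero_le_one; exact le_rfl]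

/-- value of a rooted tree in a context -/
noncomputable def Z (A : ℝ) (Λ : ℝ[X]) (F : B) : ℝ :=
  y * A * (st w y F).a + L w (Λ * (st w y F).p)

theorem W_eq_Z (F : B) : W w y F = Z w y 1 1 F := by
  rw [W, Z, mul_one, one_mul]

theorem L_C_mul (r : ℝ) (p : ℝ[X]) : L w (C r * p) = r * L w p := by
  rw [← smul_eq_C_mul, map_smul]; rfl

theorem st_app (F G : B) : st w y (F.app G) =
    ⟨(st w y F).a * (st w y G).a, (st w y F).p * (st w y G).p⟩ := by
  induction F with
  | nil => ext1 <;> simp [B.app, st]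
  | cons c s _ ih =>
    ext1
    · simp only [B.app, st, ih]; ring
    · simp only [B.app, st, ih]; ring

/-- the context seen by the first child -/
theorem Z_cons (A : ℝ) (Λ : ℝ[X]) (c s : B) : Z w y A Λ (.cons c s) =
    Z w y (L w (Λ * (st w y s).p)) (C (y * A * (st w y s).a) +
      Polynomial.X * Λ * (st w y s).p) c := by
  simp only [Z, st]
  have e1 : Λ * ((C (y * (st w y c).a) + Polynomial.X * (st w y c).p) * (st w y s).p) =
      C (y * (st w y c).a) * (Λ * (st w y s).p) +
        Polynomial.X * Λ * (st w y s).p * (st w y c).p := by ring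
  rw [e1, add_mul, map_add, map_add, L_C_mul, L_C_mul]
  ring

theorem Z_app (A : ℝ) (Λ : ℝ[X]) (F G : B) : Z w y A Λ (F.app G) =
    Z w y (A * (st w y G).a) (Λ * (st w y G).p) F := by
  simp only [Z, st_app]
  have e1 : Λ * ((st w y F).p * (st w y G).p) = Λ * (st w y G).p * (st w y F).p := by ring
  rw [e1]
  ring

/-- edge flip -/
theorem W_flip (c s : B) : W w y (.cons c s) = W w y (.cons s c) := by
  simp only [W, st]
  have e1 : (C (y * (st w y c).a) + Polynomial.X * (st w y c).p) * (st w y s).p =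
      C (y * (st w y c).a) * (st w y s).p +
        Polynomial.X * ((st w y c).p * (st w y s).p) := by ring
  have e2 : (C (y * (st w y s).a) + Polynomial.X * (st w y s).p) * (st w y c).p =
      C (y * (st w y s).a) * (st w y c).p +
        Polynomial.X * ((st w y c).p * (st w y s).p) := by ring
  rw [e1, e2, map_add, map_add, L_C_mul, L_C_mul]
  ring

variable {w y}

theorem L_nonneg (hw : ∀ i, 0 ≤ w i) {p : ℝ[X]} (hp : NN p) : 0 ≤ L w p := by
  rw [← Polynomial.sum_monomial_eq p, Polynomial.sum, map_sum]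
  refine sum_nonneg fun n _ => ?_
  rw [← C_mul_X_pow_eq_monomial, L_base]
  exact mul_nonneg (hp n) (X_nonneg hw hw _)

theorem st_nonneg (hw : ∀ i, 0 ≤ w i) (hy : 0 ≤ y) (F : B) :
    0 ≤ (st w y F).a ∧ NN (st w y F).p := by
  induction F with
  | nil => exact ⟨zero_le_one, NN.one⟩
  | cons c s ihc ihs =>
    refine ⟨mul_nonneg (L_nonneg hw ihc.2) ihs.1, ?_⟩
    exact ((NN.C (mul_nonneg hy ihc.1)).add (NN.X.mul ihc.2)).mul ihs.2

variable (w y)

/-- equivalence of rooted trees -/
def Sim (F G : B) : Prop := F.size = G.size ∧ lv F = lv G ∧ td F = td G ∧ st w y F = st w y G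

variable {w y}

theorem Sim.refl (F : B) : Sim w y F F := ⟨rfl, rfl, rfl, rfl⟩

theorem Sim.symm {F G : B} (h : Sim w y F G) : Sim w y G F :=
  ⟨h.1.symm, h.2.1.symm, h.2.2.1.symm, h.2.2.2.symm⟩

theorem Sim.trans {F G H : B} (h : Sim w y F G) (h' : Sim w y G H) : Sim w y F H :=
  ⟨h.1.trans h'.1, h.2.1.trans h'.2.1, h.2.2.1.trans h'.2.2.1, h.2.2.2.trans h'.2.2.2⟩

theorem Sim.app_comm (F G : B) : Sim w y (F.app G) (G.app F) := by
  refine ⟨by rw [B.size_app, B.size_app, add_comm], by rw [lv_app, lv_app, add_comm],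
    by rw [td_app, td_app, add_comm], ?_⟩
  rw [st_app, st_app]
  ext1
  · exact mul_comm _ _
  · exact mul_comm _ _

theorem Sim.app {F F' G G' : B} (h : Sim w y F F') (h' : Sim w y G G') :
    Sim w y (F.app G) (F'.app G') := by
  refine ⟨by rw [B.size_app, B.size_app, h.1, h'.1],
    by rw [lv_app, lv_app, h.2.1, h'.2.1], by rw [td_app, td_app, h.2.2.1, h'.2.2.1], ?_⟩
  rw [st_app, st_app, h.2.2.2, h'.2.2.2]

theorem Sim.cons {c c' s s' : B} (h : Sim w y c c') (h' : Sim w y s s') :
    Sim w y (.cons c s) (.cons c' s') := by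
  refine ⟨by simp only [B.size, h.1, h'.1], by simp only [lv, h.2.1, h'.2.1],
    by simp only [td, h.1, h.2.2.1, h'.2.2.1], ?_⟩
  simp only [st, h.2.2.2, h'.2.2.2]

theorem app_nil (F : B) : F.app .nil = F := by
  induction F with
  | nil => rfl
  | cons c s _ ih => rw [B.app, ih]

theorem app_assoc (F G H : B) : (F.app G).app H = F.app (G.app H) := by
  induction F with
  | nil => rfl
  | cons c s _ ih => rw [B.app, B.app, B.app, ih]

theorem Sim.swap (c d s : B) : Sim w y (.cons c (.cons d s)) (.cons d (.cons c s)) := by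
  have h := Sim.app (Sim.app_comm (w := w) (y := y) (.cons c .nil) (.cons d .nil)) (Sim.refl s)
  simpa only [B.app] using h

theorem Sim.Z_eq {F G : B} (h : Sim w y F G) (A : ℝ) (Λ : ℝ[X]) :
    Z w y A Λ F = Z w y A Λ G := by
  rw [Z, Z, h.2.2.2]

variable (w y)

/-- `F` can be improved in every nonnegative context -/
def Imp (F : B) : Prop := ∀ (A : ℝ) (Λ : ℝ[X]), 0 ≤ A → NN Λ →
  ∃ F', Lt F' F ∧ Z w y A Λ F' ≤ Z w y A Λ F

variable {w y}

theorem Imp.sim {F G : B} (h : Sim w y F G) (hF : Imp w y F) : Imp w y G := by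
  intro A Λ hA hΛ
  obtain ⟨F', h1, h2⟩ := hF A Λ hA hΛ
  refine ⟨F', ?_, ?_⟩
  · obtain ⟨h3, h4⟩ := h1
    exact ⟨h3.trans h.1, by rw [← h.2.1, ← h.2.2.1]; exact h4⟩
  · rw [← h.Z_eq]; exact h2

theorem Imp.app_right (hw : ∀ i, 0 ≤ w i) (hy : 0 ≤ y) {F : B} (hF : Imp w y F) (G : B) :
    Imp w y (F.app G) := by
  intro A Λ hA hΛ
  obtain ⟨h1, h2⟩ := st_nonneg hw hy G
  obtain ⟨F', h3, h4⟩ := hF _ _ (mul_nonneg hA h1) (hΛ.mul h2)
  refine ⟨F'.app G, h3.app_right G, ?_⟩
  rw [Z_app, Z_app]
  exact h4

theorem Imp.app_left (hw : ∀ i, 0 ≤ w i) (hy : 0 ≤ y) {F : B} (hF : Imp w y F) (G : B) :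
    Imp w y (G.app F) := (hF.app_right hw hy G).sim (Sim.app_comm _ _)

theorem Imp.cons_left (hw : ∀ i, 0 ≤ w i) (hy : 0 ≤ y) {c : B} (hF : Imp w y c) (s : B) :
    Imp w y (.cons c s) := by
  intro A Λ hA hΛ
  obtain ⟨h1, h2⟩ := st_nonneg hw hy s
  obtain ⟨c', h3, h4⟩ := hF (L w (Λ * (st w y s).p))
    (C (y * A * (st w y s).a) + Polynomial.X * Λ * (st w y s).p) (L_nonneg hw (hΛ.mul h2))
    ((NN.C (mul_nonneg (mul_nonneg hy hA) h1)).add ((NN.X.mul hΛ).mul h2))
  refine ⟨.cons c' s, h3.cons_left s, ?_⟩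
  rw [Z_cons, Z_cons]
  exact h4

theorem Imp.cons_right (hw : ∀ i, 0 ≤ w i) (hy : 0 ≤ y) {s : B} (hF : Imp w y s) (c : B) :
    Imp w y (.cons c s) := hF.app_left hw hy (.cons c .nil)

/-! ### Legs and spiders -/

/-- the vertex all of whose children are legs; entry `j` is a leg with `j + 1` vertices -/
def R : List ℕ → B
  | [] => .nil
  | j :: J => .cons (.path j) (R J)

/-- the vertex all of whose children are spiders -/
def Sp : List (List ℕ) → B
  | [] => .nil
  | J :: Js => .cons (R J) (Sp Js)

theorem R_append (J J' : List ℕ) : R (J ++ J') = (R J).app (R J') := by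
  induction J with
  | nil => rfl
  | cons j J ih => rw [List.cons_append, R, R, ih]; rfl

theorem Sp_append (J J' : List (List ℕ)) : Sp (J ++ J') = (Sp J).app (Sp J') := by
  induction J with
  | nil => rfl
  | cons j J ih => rw [List.cons_append, Sp, Sp, ih]; rfl

theorem R_short {J : List ℕ} (h : J.length < 2) : ∃ k, R J = .path k := by
  match J, h with
  | [], _ => exact ⟨0, rfl⟩
  | [j], _ => exact ⟨j + 1, rfl⟩
  | _ :: _ :: _, h => simp only [List.length_cons] at h; omega

variable (w y)

/-- `F` is a vertex with leg and terminal spider children -/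
def G2 (F : B) : Prop := ∃ (Js : List (List ℕ)) (J : List ℕ), Js ≠ [] ∧
  (∀ K ∈ Js, 2 ≤ K.length) ∧ Sim w y F ((Sp Js).app (R J))

variable {w y}

/-- the three possibilities for a rooted tree, if every vertex of type `G2` can be improved -/
theorem trichotomy (hw : ∀ i, 0 ≤ w i) (hy : 0 ≤ y)
    (hG : ∀ g, G2 w y g → Imp w y (.cons g .nil)) (F : B) :
    (∃ J, Sim w y F (R J)) ∨ G2 w y F ∨ Imp w y F := by
  induction F with
  | nil => exact Or.inl ⟨[], Sim.refl _⟩
  | cons c s ihc ihs =>
    rcases ihc with ⟨J, hJ⟩ | hc | hc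
    · rcases ihs with ⟨J', hJ'⟩ | ⟨Js, J', h0, h1, h2⟩ | hs
      · by_cases hl : J.length < 2
        · obtain ⟨k, hk⟩ := R_short hl
          refine Or.inl ⟨k :: J', ?_⟩
          rw [R, ← hk]
          exact Sim.cons hJ hJ'
        · refine Or.inr (Or.inl ⟨[J], J', by simp, ?_, ?_⟩)
          · intro K hK
            rw [List.mem_singleton] at hK
            subst hK
            omega
          · exact Sim.cons hJ hJ'
      · by_cases hl : J.length < 2
        · obtain ⟨k, hk⟩ := R_short hl
          refine Or.inr (Or.inl ⟨Js, k :: J', h0, h1, ?_⟩)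
          have e1 : Sim w y (.cons c s) (.cons (.path k) ((Sp Js).app (R J'))) :=
            Sim.cons (hk ▸ hJ) h2
          have e2 : Sim w y (.cons (.path k) ((Sp Js).app (R J')))
              ((Sp Js).app (R (k :: J'))) := by
            have e3 : (B.cons (.path k) ((Sp Js).app (R J'))) =
                (B.app (.cons (.path k) .nil) (Sp Js)).app (R J') := by
              rw [app_assoc]; rfl
            have e4 : (Sp Js).app (R (k :: J')) =
                ((Sp Js).app (.cons (.path k) .nil)).app (R J') := by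
              rw [app_assoc]; rfl
            rw [e3, e4]
            exact Sim.app (Sim.app_comm _ _) (Sim.refl _)
          exact e1.trans e2
        · refine Or.inr (Or.inl ⟨J :: Js, J', by simp, ?_, ?_⟩)
          · intro K hK
            rw [List.mem_cons] at hK
            rcases hK with hK | hK
            · subst hK; omega
            · exact h1 K hK
          · exact Sim.cons hJ h2
      · exact Or.inr (Or.inr (hs.cons_right hw hy c))
    · exact Or.inr (Or.inr ((hG c hc).app_right hw hy s))
    · exact Or.inr (Or.inr (hc.cons_left hw hy s))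

/-! ### Rerooting at a leaf -/

/-- number of leaves of the unrooted tree with root edge `c - s` -/
theorem reroot (c : B) : ∀ s : B, ∃ d : B, (B.cons d .nil).size = (B.cons c s).size ∧
    W w y (.cons d .nil) = W w y (.cons c s) ∧ max 1 (lv d) + 1 = max 1 (lv c) + max 1 (lv s) := by
  induction c with
  | nil =>
    intro s
    refine ⟨s, by simp only [B.size]; omega, W_flip w y _ _, by simp only [lv]; omega⟩
  | cons a t iha _ =>
    intro s
    obtain ⟨d, h1, h2, h3⟩ := iha (.cons s t)
    refine ⟨d, ?_, ?_, ?_⟩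
    · rw [h1]; simp only [B.size]; omega
    · rw [h2, W_flip w y (.cons a t) s, W_eq_Z, W_eq_Z]
      exact (Sim.swap a s t).Z_eq 1 1
    · rw [h3]
      simp only [lv]
      omega

end Pool.Agent.Helper4.SW
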