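import Mathlib

/-!
S-world: polynomial inequalities for two parts (`s` the smaller, `T` the larger, `y <= s`,
`T >= s + y`, `s T <= y`), in the variables `d = s - y`, `e = y - d`, `g = T - s - y`.
-/

set_option autoImplicit false

namespace Pool.Agent.Helper4.SW

theorem polF2 {y s T d e g : ℝ} (hd : 0 ≤ d) (he : 0 ≤ e) (hg : 0 ≤ g) (hy : y = d + e)
    (hs : s = y + d) (hT : T = s + y + g) : 0 ≤ (3*(s*T)*(T+s)-y*(T+s)^2-2*(s*T)*y)*(s*T+y*(T+s)+y*s)-(2*(s*T)-y*(T+s))*(s*T*(T+s)+y*(T+s)^2+4*(s*T)*y+y^2*(T+s)) := by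
  have h2 : (3*(s*T)*(T+s)-y*(T+s)^2-2*(s*T)*y)*(s*T+y*(T+s)+y*s)-(2*(s*T)-y*(T+s))*(s*T*(T+s)+y*(T+s)^2+4*(s*T)*y+y^2*(T+s)) =
      2*e^2*g^3 + 8*e^3*g^2 + 10*e^4*g + 4*e^5 + 7*d*e*g^3 + 40*d*e^2*g^2 + 66*d*e^3*g + 33*d*e^4
       + 6*d^2*g^3 + 69*d^2*e*g^2 + 176*d^2*e^2*g + 124*d^2*e^3 + 41*d^3*g^2 + 219*d^3*e*g
       + 249*d^3*e^2 + 104*d^4*g + 253*d^4*e + 101*d^5 := by
    rw [hT, hs, hy]; ring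
  rw [h2]; positivity

theorem polF3 {y s T d e g : ℝ} (hd : 0 ≤ d) (he : 0 ≤ e) (hg : 0 ≤ g) (hy : y = d + e)
    (hs : s = y + d) (hT : T = s + y + g) (hQ : s * T ≤ y * (T + s)) :
    0 ≤ (3*(s*T)*(T+s)-y*(T+s)^2-2*(s*T)*y)*(s*T*(s+y)+2*(s*T)*y+y^2*(T+s)+y*s*(T+s))-(2*(s*T)-y*(T+s))*(2*(s*T)^2+6*(s*T)*y*(T+s)+2*y^2*(T+s)^2+2*(s*T)*y^2) := by
  have hQ' : 0 ≤ y * (T + s) - s * T := sub_nonneg.2 hQ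
  have h1 : 0 ≤ d^2*g^2*(y * (T + s) - s * T) := by positivity
  have h2 : (3*(s*T)*(T+s)-y*(T+s)^2-2*(s*T)*y)*(s*T*(s+y)+2*(s*T)*y+y^2*(T+s)+y*s*(T+s))-(2*(s*T)-y*(T+s))*(2*(s*T)^2+6*(s*T)*y*(T+s)+2*y^2*(T+s)^2+2*(s*T)*y^2) =
      d^2*g^2*(y * (T + s) - s * T) + (2*e^3*g^3 + 8*e^4*g^2 + 10*e^5*g + 4*e^6 + 6*d*e^2*g^3 + 34*d*e^3*g^2 + 55*d*e^4*g
       + 27*d*e^5 + 4*d^2*e*g^3 + 51*d^2*e^2*g^2 + 140*d^2*e^3*g + 105*d^2*e^4 + 34*d^3*e*g^2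
       + 231*d^3*e^2*g + 301*d^3*e^3 + 10*d^4*g^2 + 234*d^4*e*g + 541*d^4*e^2 + 101*d^5*g
       + 507*d^5*e + 187*d^6) := by
    rw [hT, hs, hy]; ring
  rw [h2]; positivity

theorem polGi {y s T d e g : ℝ} (hd : 0 ≤ d) (he : 0 ≤ e) (hg : 0 ≤ g) (hy : y = d + e)
    (hs : s = y + d) (hT : T = s + y + g) (hQ : s * T ≤ y * (T + s)) :
    0 ≤ (T-y)*(s*T*(T-y)-2*T^2*(s-y))+(s-y)*s*(s*T+y*(T-2*s)) := by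
  have hQ' : 0 ≤ y * (T + s) - s * T := sub_nonneg.2 hQ
  have h1 : 0 ≤ 2*(d^2+d*g)*(y * (T + s) - s * T) := by positivity
  have h2 : (T-y)*(s*T*(T-y)-2*T^2*(s-y))+(s-y)*s*(s*T+y*(T-2*s)) =
      2*(d^2+d*g)*(y * (T + s) - s * T) + (e*g^3 + 4*e^2*g^2 + 5*e^3*g + 2*e^4 + 5*d*e*g^2 + 12*d*e^2*g + 9*d*e^3 + 5*d^2*e*g
       + 10*d^2*e^2 + d^3*e) := by
    rw [hT, hs, hy]; ring
  rw [h2]; positivity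

theorem polE0 {y s T d e g : ℝ} (hd : 0 ≤ d) (he : 0 ≤ e) (hg : 0 ≤ g) (hy : y = d + e)
    (hs : s = y + d) (hT : T = s + y + g) : 0 ≤ s*T*(T+s)+y*(T+s)^2-6*(s*T)*y := by
  have h2 : s*T*(T+s)+y*(T+s)^2-6*(s*T)*y =
      2*e*g^2 + 5*e^2*g + 3*e^3 + 3*d*g^2 + 16*d*e*g + 16*d*e^2 + 14*d^2*g + 30*d^2*e + 19*d^3 := by
    rw [hT, hs, hy]; ring
  rw [h2]; positivity

theorem polE1 {y s T d e g : ℝ} (hd : 0 ≤ d) (he : 0 ≤ e) (hg : 0 ≤ g) (hy : y = d + e)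
    (hs : s = y + d) (hT : T = s + y + g) : 0 ≤ s*T*(s*T*(T+s)+y*(T+s)^2-6*(s*T)*y)*(2*(s*T)+y*(T+s))+(s*(3*(s*T)*(T+s)-y*(T+s)^2-2*(s*T)*y)-(2*(s*T)-y*(T+s))*(2*(s*T)+y*(T+s)))*(s*T+y*(T+s))*(T+s) := by
  have h2 : s*T*(s*T*(T+s)+y*(T+s)^2-6*(s*T)*y)*(2*(s*T)+y*(T+s))+(s*(3*(s*T)*(T+s)-y*(T+s)^2-2*(s*T)*y)-(2*(s*T)-y*(T+s))*(2*(s*T)+y*(T+s)))*(s*T+y*(T+s))*(T+s) =
      4*e^3*g^4 + 24*e^4*g^3 + 50*e^5*g^2 + 42*e^6*g + 12*e^7 + 18*d*e^2*g^4 + 138*d*e^3*g^3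
       + 343*d*e^4*g^2 + 322*d*e^5*g + 93*d*e^6 + 28*d^2*e*g^4 + 314*d^2*e^2*g^3
       + 1022*d^2*e^3*g^2 + 1182*d^2*e^4*g + 402*d^2*e^5 + 15*d^3*g^4 + 340*d^3*e*g^3
       + 1696*d^3*e^2*g^2 + 2778*d^3*e^3*g + 1370*d^3*e^4 + 148*d^4*g^3 + 1556*d^4*e*g^2
       + 4226*d^4*e^2*g + 3330*d^4*e^3 + 610*d^5*g^2 + 3644*d^5*e*g + 4906*d^5*e^2 + 1316*d^6*g
       + 3840*d^6*e + 1223*d^7 := by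
    rw [hT, hs, hy]; ring
  rw [h2]; positivity

theorem polA {y s T d e g : ℝ} (hd : 0 ≤ d) (he : 0 ≤ e) (hg : 0 ≤ g) (hy : y = d + e)
    (hs : s = y + d) (hT : T = s + y + g) : 0 ≤ 2*(s*T)-y*(T+s) := by
  have h2 : 2*(s*T)-y*(T+s) =
      e*g + e^2 + 3*d*g + 6*d*e + 7*d^2 := by
    rw [hT, hs, hy]; ring
  rw [h2]; positivity

theorem polD0 {y s T d e g : ℝ} (hd : 0 ≤ d) (he : 0 ≤ e) (hg : 0 ≤ g) (hy : y = d + e)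
    (hs : s = y + d) (hT : T = s + y + g) : 0 ≤ T ^ 2 + s ^ 2 - y * (T + s) := by
  have h2 : T ^ 2 + s ^ 2 - y * (T + s) = g^2 + 3*e*g + 2*e^2 + 5*d*g + 8*d*e + 8*d^2 := by
    rw [hT, hs, hy]; ring
  rw [h2]; positivity

theorem polD2 {y s T d e g : ℝ} (hd : 0 ≤ d) (he : 0 ≤ e) (hg : 0 ≤ g) (hy : y = d + e)
    (hs : s = y + d) (hT : T = s + y + g) : 0 ≤ s*T*(T+s)^2+y*(T+s)^3+2*(s*T)*y*(T+s)-(2*(s*T)+y*(T+s))^2 := by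
  have h2 : s*T*(T+s)^2+y*(T+s)^3+2*(s*T)*y*(T+s)-(2*(s*T)+y*(T+s))^2 = 
      2*e*g^3 + 10*e^2*g^2 + 16*e^3*g + 8*e^4 + 3*d*g^3 + 29*d*e*g^2 + 71*d*e^2*g
      + 51*d*e^3 + 20*d^2*g^2 + 102*d^2*e*g + 120*d^2*e^2 + 47*d^3*g + 123*d^3*e + 46*d^4 := by
    rw [hT, hs, hy]; ring
  rw [h2]; positivity

end Pool.Agent.Helper4.SW
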