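import Pool.Agent.Helper4.SW.Two
import Pool.Agent.Helper4.SW.EEPol
import Pool.Agent.Helper20.SW.Asm3

/-!
S-world, two parts with `w t * (1 - w t) <= y`: every spider with two legs is good in contexts with
at least two further vertices.  Certificate: delete the spider / straighten the spider.
-/

set_option autoImplicit false

namespace Pool.Agent.Helper4.SW

open Pool.Agent.Helper6.HL hiding X
open Pool.Agent.Helper20.SW (GoodFrom)
open Finset Polynomial

variable {q : ℕ} {w : Fin q → ℝ} {y : ℝ}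

/-- the deletion certificate with the context size taken into account -/
theorem goodFrom_of_F1 (h : Hyp w y) (m : ℕ) (J : List ℕ) (hJ : 2 ≤ J.length)
    (hgood : ¬ Bad w y J) (hup : sa w y J ≤ l w y (J.sum + J.length + 1))
    (hF1 : ∀ k, m ≤ k → ∀ G : Fin q → ℝ, Cone w G → 0 ≤
      (l w y (J.sum + J.length + 1) * Pw w y k - Pw w y (k + (J.sum + J.length + 1))) *
        (E w (fun i => G i * sf w y J i) - sa w y J * E w G) +
      (sa w y J * Pw w y k - Pw w y (k + (J.sum + J.length + 1))) *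
        E w (fun i => G i * kap w y (J.sum + J.length + 1) i))
    (hpos : ∀ k, 0 < l w y (J.sum + J.length + 1) * Pw w y k -
      Pw w y (k + (J.sum + J.length + 1))) :
    GoodFrom w y m (.cons (R J) .nil) := by
  intro A Λ k hk hA hΛ h1 h2
  set N := J.sum + J.length + 1 with hN
  have hsize : (B.cons (R J) .nil).size = N := by
    simp only [B.size, size_R]; omega
  have hZ0 := h1 .nil (by rw [hsize]; simp only [B.size]; omega)
  have hZN := h2 (B.path N) (Lt_path J hJ)
  rw [B.size_path] at hZN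
  rw [B.size, add_zero] at hZ0
  rw [hsize, Z_sp]
  rw [Z_nil] at hZ0
  rw [Z_path] at hZN
  have hF := hF1 k hk (hat w Λ) (Cone.hat h.nn hΛ)
  have ht0 := hpos k
  have hc1 : 0 ≤ sa w y J * Pw w y k - Pw w y (k + N) := by
    have h3 : Pw w y (J.sum + J.length + 2) ≤ sa w y J * Pw w y 1 := not_lt.1 hgood
    have h4 := Pw_ratio h k N
    rw [show 1 + N = J.sum + J.length + 2 by omega] at h4
    have p1 := Pw_pos h 1
    have pk := Pw_pos h k
    have h5 : Pw w y (k + N) * Pw w y 1 ≤ (sa w y J * Pw w y k) * Pw w y 1 := by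
      have := mul_le_mul_of_nonneg_right h3 pk.le
      linarith
    exact sub_nonneg.2 (le_of_mul_le_mul_right h5 p1)
  set G := hat w Λ
  set a := sa w y J
  set EG := E w G
  set K := E w (fun i => G i * kap w y N i)
  set F := E w (fun i => G i * sf w y J i)
  have hP : 0 ≤ Pw w y (k + N) := (Pw_pos h _).le
  set P := Pw w y (k + N)
  set l := l w y N
  refine le_of_mul_le_mul_left ?_ ht0
  have c2 : 0 ≤ l - a := by linarith
  have m1 := mul_le_mul_of_nonneg_left hZN hc1
  have m2 := mul_le_mul_of_nonneg_left hZ0 (mul_nonneg hP c2)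
  linarith

theorem tau_eq (k N : ℕ) : l w y N * Pw w y k - Pw w y (k + N) =
    E w (fun i => hat w (psi w y k) i * kap w y N i) := by
  have h1 := Pw_add w y k N
  have h2 : Pw w y k = y * l w y k + E w (hat w (psi w y k)) := by
    rw [Pw_eq, l_succ w y k, L_def]
  have e : (fun i => hat w (psi w y k) i * hat w (psi w y N) i) =
      fun i => l w y N * hat w (psi w y k) i - hat w (psi w y k) i * kap w y N i := by
    funext i; rw [hat_psi_kap w y N]; ring
  rw [h1, h2, e, E_sub, E_const_mul]
  ring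

theorem tau_pos (h : Hyp w y) (k N : ℕ) :
    0 < l w y (N + 1) * Pw w y k - Pw w y (k + (N + 1)) := by
  rw [tau_eq]
  exact E_pos h fun i => mul_pos (psi_pos h k i) (kap_pos h N i)

section two

variable {t i : Fin q}

theorem E_pair (hti : t ≠ i) (hall : ∀ j, j = t ∨ j = i) (f : Fin q → ℝ) :
    E w f = w t * f t + w i * f i := by
  have hu : (univ : Finset (Fin q)) = {t, i} := by
    ext j; simpa using hall j
  rw [E, hu, sum_pair hti]

theorem w_pair (h : Hyp w y) (hti : t ≠ i) (hall : ∀ j, j = t ∨ j = i) : w i = 1 - w t := by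
  have h1 := E_pair (w := w) hti hall (fun _ => 1)
  rw [E_one h] at h1
  linarith

theorem psi_step2 (h : Hyp w y) (hti : t ≠ i) (hall : ∀ j, j = t ∨ j = i) (k : ℕ) (c : Fin q) :
    hat w (psi w y (k + 2)) c = w t * w i * hat w (psi w y k) c + y * l w y (k + 1) +
      y * l w y k * (1 - w c) := by
  have hw := w_pair h hti hall
  have s1 : ∀ (k : ℕ) (c : Fin q), hat w (psi w y (k + 1)) c = y * l w y k +
      (E w (hat w (psi w y k)) - w c * hat w (psi w y k) c) := by
    intro k c
    rw [psi_succ, map_add, Pi.add_apply, hat_C, hat_X_mul, K'_apply]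
  rcases hall c with rfl | rfl
  · rw [s1 (k + 1) c, E_pair hti hall, s1 k i, s1 k c, E_pair hti hall, hw]
    ring
  · rw [s1 (k + 1) c, E_pair hti hall, s1 k t, s1 k c, E_pair hti hall, hw]
    ring

theorem E_psi_step2 (h : Hyp w y) (hti : t ≠ i) (hall : ∀ j, j = t ∨ j = i) (k : ℕ)
    (f : Fin q → ℝ) : E w (fun c => hat w (psi w y (k + 2)) c * f c) =
      w t * w i * E w (fun c => hat w (psi w y k) c * f c) + y * l w y (k + 1) * E w f +
      y * l w y k * (E w f - E w (fun c => w c * f c)) := by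
  rw [E_pair hti hall, E_pair hti hall, E_pair hti hall f, E_pair hti hall,
    psi_step2 h hti hall, psi_step2 h hti hall]
  ring

theorem l_step3 (h : Hyp w y) (hti : t ≠ i) (hall : ∀ j, j = t ∨ j = i) (k : ℕ) :
    l w y (k + 3) = (w t * w i + y) * l w y (k + 1) + 2 * (w t * w i) * y * l w y k := by
  have h1 := E_psi_step2 h hti hall k (fun _ => 1)
  simp only [mul_one] at h1
  rw [E_one h, E_pair hti hall w] at h1
  have e1 : l w y (k + 3) = E w (hat w (psi w y (k + 2))) := by rw [← L_def, ← l_succ]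
  have e2 : l w y (k + 1) = E w (hat w (psi w y k)) := by rw [← L_def, ← l_succ]
  have hw := w_pair h hti hall
  have e3 : w t * w t + w i * w i = 1 - 2 * (w t * w i) := by rw [hw]; ring
  rw [e3, ← e2] at h1
  rw [e1]
  change E w (fun c => hat w (psi w y (k + 2)) c) = _
  rw [h1]
  ring

theorem l_one' (h : Hyp w y) : l w y 1 = 1 := by
  rw [l_succ' w y 0, zero_add, ch_one, ch_zero, E_one h]
  simp [E]

theorem l_two2 (h : Hyp w y) (hti : t ≠ i) (hall : ∀ j, j = t ∨ j = i) :
    l w y 2 = 2 * (w t * w i) + y := by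
  rw [l_two h, E_pair hti hall, w_pair h hti hall]
  ring

/-- facts on the two parts -/
theorem pair_facts (h : Hyp w y) (ht : Top w t) (hti : t ≠ i) (hall : ∀ j, j = t ∨ j = i)
    (hθ : w t * (1 - w t) ≤ y) : ∃ d e g : ℝ, 0 ≤ d ∧ 0 ≤ e ∧ 0 ≤ g ∧ y = d + e ∧
      w i = y + d ∧ w t = w i + y + g ∧ w i * w t ≤ y * (w t + w i) ∧ w t + w i = 1 := by
  have hw := w_pair h hti hall
  have h1 := top_half h ht
  have h2 := h.lt i
  have hs : w t + w i = 1 := by rw [hw]; ring
  have hQ : w i * w t ≤ y * (w t + w i) := by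
    rw [hs, mul_one, hw]
    linarith
  have hT : w i + y ≤ w t := by linarith
  have hy := h.hy
  refine ⟨w i - y, 2 * y - w i, w t - w i - y, by linarith, ?_, by linarith, by ring, by ring,
    by ring, hQ, hs⟩
  by_contra hc
  push Not at hc
  -- w i > 2 y, so w i * w t > 2 y w t >= y
  nlinarith [mul_lt_mul_of_pos_right (show 2 * y < w i by linarith) (h.pos t)]

theorem l_mono2 (h : Hyp w y) (ht : Top w t) (hti : t ≠ i) (hall : ∀ j, j = t ∨ j = i)
    (hθ : w t * (1 - w t) ≤ y) (k : ℕ) :
    (2 * (w t * w i) + y) * l w y k ≤ l w y (k + 1) := by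
  obtain ⟨d, e, g, hd, he, hg, hy, hs, hT, hQ, h1⟩ := pair_facts h ht hti hall hθ
  have hμ : 0 ≤ w t * w i := mul_nonneg (h.nn t) (h.nn i)
  have hy0 := h.hy.le
  have main : ∀ k, (2 * (w t * w i) + y) * l w y k ≤ l w y (k + 1) ∧
      (2 * (w t * w i) + y) * l w y (k + 1) ≤ l w y (k + 2) ∧
      (2 * (w t * w i) + y) * l w y (k + 2) ≤ l w y (k + 3) := by
    intro k
    induction k with
    | zero =>
      have p0 := polD0 hd he hg hy hs hT
      have p2 := polD2 hd he hg hy hs hT
      rw [h1] at p0 p2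
      refine ⟨?_, ?_, ?_⟩
      · rw [zero_add, l_one' h, l_zero]
        have : w t ^ 2 + w i ^ 2 = 1 - 2 * (w t * w i) := by
          have : (w t + w i) ^ 2 = 1 := by rw [h1]; ring
          linarith [this]
        linarith
      · rw [zero_add, zero_add, l_one' h, l_two2 h hti hall]
        linarith
      · rw [zero_add, zero_add, l_step3 h hti hall 0, l_two2 h hti hall, zero_add, l_one' h,
          l_zero]
        linarith
    | succ k ih =>
      obtain ⟨i1, i2, i3⟩ := ih
      refine ⟨i2, i3, ?_⟩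
      rw [show k + 1 + 3 = k + 1 + 3 from rfl, l_step3 h hti hall (k + 1),
        show k + 1 + 2 = k + 3 by ring, l_step3 h hti hall k, show k + 1 + 1 = k + 2 by ring]
      have a1 := mul_le_mul_of_nonneg_left i2 (add_nonneg hμ hy0)
      have a2 := mul_le_mul_of_nonneg_left i1 (mul_nonneg (mul_nonneg zero_le_two hμ) hy0)
      rw [show k + 1 + 1 = k + 2 by ring] at a1
      linarith
  exact (main k).1

/-- the bracket of the two-step recursion -/
theorem br_aux {μ y s L0 L1 L2 : ℝ} (hμ : 0 < μ) (hy : 0 < y) (hA : 0 ≤ 2 * μ - y)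
    (h1 : 0 ≤ L1) (h2 : 0 ≤ L2) (h21 : (2 * μ + y) * L1 ≤ L2)
    (h20 : (μ + y) * L0 ≤ L2) (hE0 : 0 ≤ μ + y - 6 * μ * y)
    (hE1 : 0 ≤ μ * (μ + y - 6 * μ * y) * (2 * μ + y) +
      (s * (3 * μ - y - 2 * μ * y) - (2 * μ - y) * (2 * μ + y)) * (μ + y)) :
    (2 * μ - y) * (L2 + (2 * μ + y) * L1 + 2 * μ * y * L0) ≤
      (3 * μ - y - 2 * μ * y) * (L2 + s * L1) := by
  set e1 := s * (3 * μ - y - 2 * μ * y) - (2 * μ - y) * (2 * μ + y) with he1
  have hp : 0 < μ + y := by linarith
  have hp2 : 0 < 2 * μ + y := by linarith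
  have k1 : (2 * μ - y) * (2 * μ * y) * ((μ + y) * L0) ≤ (2 * μ - y) * (2 * μ * y) * L2 :=
    mul_le_mul_of_nonneg_left h20 (mul_nonneg hA (by positivity))
  have k2 : 0 ≤ μ * (μ + y - 6 * μ * y) * L2 + e1 * (μ + y) * L1 := by
    rcases le_total 0 e1 with he | he
    · have a1 : 0 ≤ μ * (μ + y - 6 * μ * y) * L2 := mul_nonneg (mul_nonneg hμ.le hE0) h2
      have a2 : 0 ≤ e1 * (μ + y) * L1 := mul_nonneg (mul_nonneg he hp.le) h1
      linarith
    · have a1 : 0 ≤ -e1 * (μ + y) * (L2 - (2 * μ + y) * L1) :=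
        mul_nonneg (mul_nonneg (neg_nonneg.2 he) hp.le) (sub_nonneg.2 h21)
      have a2 := mul_nonneg hE1 h2
      have a3 : 0 ≤ (2 * μ + y) * (μ * (μ + y - 6 * μ * y) * L2 + e1 * (μ + y) * L1) := by
        linarith
      exact nonneg_of_mul_nonneg_right a3 hp2
  have k3 : 0 ≤ (μ + y) * ((3 * μ - y - 2 * μ * y) * (L2 + s * L1) -
      (2 * μ - y) * (L2 + (2 * μ + y) * L1 + 2 * μ * y * L0)) := by
    have e : (μ + y) * ((3 * μ - y - 2 * μ * y) * (L2 + s * L1) -
        (2 * μ - y) * (L2 + (2 * μ + y) * L1 + 2 * μ * y * L0)) =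
        (μ * (μ + y - 6 * μ * y) * L2 + e1 * (μ + y) * L1) +
        ((2 * μ - y) * (2 * μ * y) * L2 - (2 * μ - y) * (2 * μ * y) * ((μ + y) * L0)) := by
      rw [he1]; ring
    rw [e]
    linarith
  exact sub_nonneg.1 (nonneg_of_mul_nonneg_right k3 hp)

/-- one step from bounds -/
theorem step_aux {A B H V W P κ : ℝ} (hA : 0 < A) (hH : 0 ≤ H)
    (hV : B * H ≤ A * (V + H)) (hW : 0 ≤ W) (hP : A * P ≤ B * κ) (hκ : κ ≤ W) (hB : 0 ≤ B) :
    H * P ≤ (V + H) * W := by
  have h1 : A * (H * P) ≤ A * ((V + H) * W) := by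
    have a1 := mul_le_mul_of_nonneg_left hP hH
    have a2 := mul_le_mul_of_nonneg_left hκ (mul_nonneg hB hH)
    have a3 := mul_le_mul_of_nonneg_right hV hW
    linarith
  exact le_of_mul_le_mul_left h1 hA

theorem G1_two (h : Hyp w y) (ht : Top w t) (hti : t ≠ i) (hall : ∀ j, j = t ∨ j = i)
    (hθ : w t * (1 - w t) ≤ y) {f : Fin q → ℝ} (hf : ∀ c, 0 ≤ f c) {H V : ℝ} (hH : 0 ≤ H)
    (hV : w i * w t * (1 - 2 * y) * H ≤ (2 * (w i * w t) - y) * V) (k : ℕ) (hk : 2 ≤ k) :
    H * Pw w y k * E w f ≤ (V + H) * E w (fun c => hat w (psi w y k) c * f c) := by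
  obtain ⟨d, e, g, hd, he, hg, hy, hs, hT, hQ, h1⟩ := pair_facts h ht hti hall hθ
  have hy0 := h.hy
  have hwt := h.pos t
  have hwi := h.pos i
  set T := w t with hTd
  set s := w i with hsd
  have hμ0 : 0 < s * T := mul_pos hwi hwt
  have hμc : T * s = s * T := mul_comm _ _
  have pF2 := polF2 hd he hg hy hs hT
  have pF3 := polF3 hd he hg hy hs hT hQ
  have pE0 := polE0 hd he hg hy hs hT
  have pE1 := polE1 hd he hg hy hs hT
  rw [h1] at pF2 pF3 pE0 pE1
  have hA : 0 < 2 * (s * T) - y := by
    have h3 := top_half h ht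
    have h4 := h.lt i
    rw [← hTd] at h3
    rw [← hsd] at h4
    nlinarith [mul_pos hwi (show 0 < 2 * T - (1 + y) by linarith), mul_pos hwi hy0]
  have hB : 0 ≤ 3 * (s * T) - y - 2 * (s * T) * y := by
    have : 0 ≤ (s * T) * (1 - 2 * y) := by
      refine mul_nonneg hμ0.le ?_
      linarith
    linarith
  have hV' : (3 * (s * T) - y - 2 * (s * T) * y) * H ≤ (2 * (s * T) - y) * (V + H) := by linarith
  -- averages
  set κ := E w f with hκd
  have hκ0 : 0 ≤ κ := E_nonneg h.nn hf
  have hκw : E w (fun c => w c * f c) ≤ T * κ := by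
    rw [← E_const_mul]
    exact E_mono h.nn fun c => mul_le_mul_of_nonneg_right (ht c) (hf c)
  have hκw' : s * κ ≤ κ - E w (fun c => w c * f c) := by
    have : s = 1 - T := by linarith
    rw [this]; linarith
  have hl1 := l_one' h
  have hl2 := l_two2 h hti hall
  have hl3 := l_step3 h hti hall 0
  have hl4 := l_step3 h hti hall 1
  rw [zero_add, zero_add, hl1, l_zero] at hl3
  rw [show 1 + 3 = 4 from rfl, show 1 + 1 = 2 from rfl, hl1] at hl4
  simp only [← hTd, ← hsd, hμc] at hl2 hl3 hl4
  have hst : ∀ k, E w (fun c => hat w (psi w y (k + 2)) c * f c) =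
      s * T * E w (fun c => hat w (psi w y k) c * f c) + y * l w y (k + 1) * κ +
      y * l w y k * (κ - E w (fun c => w c * f c)) := by
    intro k
    rw [E_psi_step2 h hti hall k f, ← hTd, ← hsd, hμc]
  have ht0 : E w (fun c => hat w (psi w y 0) c * f c) = κ := by
    rw [psi_zero, hat_one]
    simp only [one_mul]
    rfl
  have ht1 : E w (fun c => hat w (psi w y 1) c * f c) = y * κ + (κ - E w (fun c => w c * f c)) := by
    have e : (fun c => hat w (psi w y 1) c * f c) = fun c => y * f c + (f c - w c * f c) := by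
      funext c
      rw [hat_psi' w y 1, ch_two h, ch_one]
      ring
    rw [e, E_add', E_const_mul, E_sub]
  obtain ⟨κw, hκwd⟩ : ∃ κw, κw = E w (fun c => w c * f c) := ⟨_, rfl⟩
  rw [← hκwd] at hκw hκw' hst ht1
  have main : ∀ j, H * Pw w y (j + 2) * κ ≤
        (V + H) * E w (fun c => hat w (psi w y (j + 2)) c * f c) ∧
      H * Pw w y (j + 3) * κ ≤ (V + H) * E w (fun c => hat w (psi w y (j + 3)) c * f c) := by
    intro j
    induction j with
    | zero =>
      constructor
      · rw [zero_add, hst 0, zero_add, ht0, hl1, l_zero, Pw_eq, hl2, hl3]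
        rw [mul_assoc]
        refine step_aux (κ := (s * T + y + y * s) * κ) hA hH hV' ?_ ?_ ?_ hB
        · have a1 : 0 ≤ s * T * κ := mul_nonneg hμ0.le hκ0
          have a2 : 0 ≤ y * κ := mul_nonneg hy0.le hκ0
          have a3 : 0 ≤ y * (κ - κw) := mul_nonneg hy0.le
            ((mul_nonneg hwi.le hκ0).trans hκw')
          linarith
        · have := mul_nonneg pF2 hκ0
          linarith
        · have := mul_le_mul_of_nonneg_left hκw' hy0.le
          linarith
      · rw [show 0 + 3 = 1 + 2 from rfl, hst 1, ht1, show 1 + 1 = 2 from rfl, hl1, Pw_eq,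
          show 1 + 2 = 3 from rfl, show 3 + 1 = 4 from rfl, hl3, hl4, hl2]
        rw [mul_assoc]
        refine step_aux (κ := (s * T * (s + y) + 2 * (s * T) * y + y ^ 2 + y * s) * κ)
          hA hH hV' ?_ ?_ ?_ hB
        · have b0 : 0 ≤ κ - κw := (mul_nonneg hwi.le hκ0).trans hκw'
          have a1 : 0 ≤ s * T * (y * κ + (κ - κw)) :=
            mul_nonneg hμ0.le (add_nonneg (mul_nonneg hy0.le hκ0) b0)
          have a2 : 0 ≤ y * (2 * (s * T) + y) * κ := by positivity
          have a3 : 0 ≤ y * 1 * (κ - κw) := mul_nonneg (by linarith) b0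
          linarith
        · have := mul_nonneg pF3 hκ0
          linarith
        · have a1 := mul_le_mul_of_nonneg_left hκw' hy0.le
          have a2 := mul_le_mul_of_nonneg_left hκw' hμ0.le
          linarith
    | succ j ih =>
      refine ⟨by rw [show j + 1 + 2 = j + 3 by ring]; exact ih.2, ?_⟩
      have i1 := ih.1
      rw [show j + 1 + 3 = j + 2 + 2 by ring, hst (j + 2)]
      set L0 := l w y (j + 1) with hL0
      set L1 := l w y (j + 2) with hL1
      set L2 := l w y (j + 3) with hL2
      have e3 := l_step3 h hti hall (j + 1)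
      have e4 := l_step3 h hti hall (j + 2)
      rw [show j + 1 + 3 = j + 4 by ring, show j + 1 + 1 = j + 2 by ring] at e3
      rw [show j + 2 + 3 = j + 5 by ring, show j + 2 + 1 = j + 3 by ring] at e4
      simp only [← hTd, ← hsd, hμc] at e3 e4
      have b2 : (s * T + y) * L0 ≤ L2 := by
        have e5 := l_step3 h hti hall j
        simp only [← hTd, ← hsd, hμc] at e5
        rw [hL2, e5]
        have : 0 ≤ 2 * (s * T) * y * l w y j :=
          mul_nonneg (mul_nonneg (by linarith) hy0.le) (l_nonneg h.nn hy0.le j)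
        linarith
      have b1 : (2 * (s * T) + y) * L1 ≤ L2 := by
        have := l_mono2 h ht hti hall hθ (j + 2)
        rw [← hTd, ← hsd, hμc] at this
        exact this
      have hbr := br_aux (s := s) (L0 := L0) (L1 := L1) (L2 := L2) hμ0 hy0 hA.le
        (l_nonneg h.nn hy0.le _) (l_nonneg h.nn hy0.le _) b1 b2
        (by linarith) (by linarith)
      have hP : Pw w y (j + 2 + 2) = s * T * Pw w y (j + 2) +
          y * (L2 + (2 * (s * T) + y) * L1 + 2 * (s * T) * y * L0) := by
        rw [Pw_eq, Pw_eq, show j + 2 + 2 = j + 4 by ring, show j + 4 + 1 = j + 5 by ring, e3, e4,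
          show j + 2 + 1 = j + 3 by ring]
        ring
      have hstep : H * ((L2 + (2 * (s * T) + y) * L1 + 2 * (s * T) * y * L0) * κ) ≤
          (V + H) * (L2 * κ + L1 * (κ - κw)) := by
        have c0 : 0 ≤ L1 := l_nonneg h.nn hy0.le _
        have c2 : 0 ≤ L2 := l_nonneg h.nn hy0.le _
        refine step_aux (κ := (L2 + s * L1) * κ) hA hH hV' ?_ ?_ ?_ hB
        · have a1 : 0 ≤ L2 * κ := mul_nonneg c2 hκ0
          have a3 : 0 ≤ L1 * (κ - κw) := mul_nonneg c0 ((mul_nonneg hwi.le hκ0).trans hκw')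
          linarith
        · have := mul_le_mul_of_nonneg_right hbr hκ0
          linarith
        · have := mul_le_mul_of_nonneg_left hκw' c0
          linarith
      rw [hP]
      have d1 := mul_le_mul_of_nonneg_left i1 hμ0.le
      have d2 := mul_le_mul_of_nonneg_left hstep hy0.le
      linarith
  obtain ⟨j, rfl⟩ : ∃ j, k = j + 2 := ⟨k - 2, by omega⟩
  exact (main j).1

/-- comparison at the smaller part -/
theorem Gi_two (h : Hyp w y) (ht : Top w t) (hti : t ≠ i) (hall : ∀ j, j = t ∨ j = i)
    (hθ : w t * (1 - w t) ≤ y) (N : ℕ) {X : Fin q → ℝ} (hX : 0 ≤ X t)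
    (hXi : (w i - y) * X t ≤ (w t - y) * X i) :
    kap w y (N + 1) i * (E w (fun c => w c * X c) + E w X) ≤
      E w (kap w y (N + 1)) * (w i * X i + E w X) := by
  obtain ⟨d, e, g, hd, he, hg, hy, hs, hT, hQ, h1⟩ := pair_facts h ht hti hall hθ
  have hy0 := h.hy
  have hwt := h.pos t
  have hwi := h.pos i
  have hyi := h.lt i
  have hyt := h.lt t
  have hR := R2_le h ht N i
  have hct := ch_pos h N t
  rw [E_pair hti hall, E_pair hti hall X, E_pair hti hall (kap w y (N + 1))]
  simp only [kap]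
  set T := w t with hTd
  set s := w i with hsd
  have pGi := polGi hd he hg hy hs hT hQ
  have hT1 : 1 - T = s := by linarith
  have hs1 : 1 - s = T := by linarith
  rw [hT1, hs1] at hR
  set u := ch w y (N + 1) t
  set v := ch w y (N + 1) i
  set Xt := X t
  set Xi := X i
  have hXi0 : 0 ≤ Xi := by
    have : 0 ≤ (T - y) * Xi := (mul_nonneg (by linarith) hX).trans hXi
    exact nonneg_of_mul_nonneg_right this (by linarith)
  -- reduce to  (s-y) v (2 T Xt + s Xi) <= (T-y) u (T Xt + 2 s Xi)
  have hkey : (s - y) * v * (2 * T * Xt + s * Xi) ≤ (T - y) * u * (T * Xt + 2 * s * Xi) := by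
    have a1 : (s - y) * (v * s) * (2 * T * Xt + s * Xi) ≤
        (s - y) * (u * T) * (2 * T * Xt + s * Xi) := by
      refine mul_le_mul_of_nonneg_right (mul_le_mul_of_nonneg_left hR (by linarith)) ?_
      have := mul_nonneg hwt.le hX
      have := mul_nonneg hwi.le hXi0
      linarith
    have b0 : 0 ≤ s * (s * T + y * (T - 2 * s)) := by
      refine mul_nonneg hwi.le ?_
      have hsT : s ≤ T := by linarith
      have := mul_le_mul_of_nonneg_left hsT hy0.le
      have := mul_le_mul_of_nonneg_right (show y ≤ T by linarith) hwi.le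
      linarith
    have a2 : 0 ≤ (T - y) * (Xt * (s * T * (T - y) - 2 * T ^ 2 * (s - y)) +
        Xi * (s * (s * T + y * (T - 2 * s)))) := by
      have c1 := mul_le_mul_of_nonneg_right hXi b0
      have c2 := mul_nonneg pGi hX
      linarith
    have a3 := nonneg_of_mul_nonneg_right a2 (show 0 < T - y by linarith)
    have a4 := mul_nonneg a3 hct.le
    have a5 : s * ((s - y) * v * (2 * T * Xt + s * Xi)) ≤
        s * ((T - y) * u * (T * Xt + 2 * s * Xi)) := by
      change 0 ≤ _ * u at a4
      linarith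
    exact le_of_mul_le_mul_left a5 hwi
  have hk2 := mul_le_mul_of_nonneg_left hkey hwt.le
  have e1 : (T * ((T - y) * u) + s * ((s - y) * v)) * (s * Xi + (T * Xt + s * Xi)) -
      (s - y) * v * (T * (T * Xt) + s * (s * Xi) + (T * Xt + s * Xi)) =
      T * ((T - y) * u * (T * Xt + 2 * s * Xi)) - T * ((s - y) * v * (2 * T * Xt + s * Xi)) := by
    have : T = 1 - s := by linarith
    rw [this]; ring
  linarith

theorem EE_A (h : Hyp w y) (ht : Top w t) (hti : t ≠ i) (hall : ∀ j, j = t ∨ j = i)
    (hθ : w t * (1 - w t) ≤ y) (a b : ℕ) : GoodFrom w y 2 (.cons (R [a, b]) .nil) := by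
  have hN : [a, b].sum + [a, b].length + 1 = a + b + 3 := by
    simp only [List.sum_cons, List.sum_nil, List.length_cons, List.length_nil]; ring
  obtain ⟨d, e, g, hd, he, hg, hy, hs, hT, hQ, h1⟩ := pair_facts h ht hti hall hθ
  refine goodFrom_of_F1 h 2 [a, b] (by simp) (notBadTwo h a b) (sa_le h a [b]) ?_ fun k => by
    rw [hN]; exact tau_pos h k (a + b + 2)
  intro k hk G hG
  rw [hN, tau_eq, sa_two]
  set X : Fin q → ℝ := fun i => (w i - y) * ch w y (a + 1) i * ch w y (b + 1) i with hX
  have hX0 : ∀ c, 0 ≤ X c := fun c => (X_pos h a b c).le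
  set κ := kap w y (a + b + 3) with hκ
  have hκ0 : ∀ c, 0 ≤ κ c := fun c => kap_nonneg h _ c
  have hyi := h.lt i
  have hyt := h.lt t
  have hwi := h.pos i
  have hwt := h.pos t
  -- bounds on X
  have hXi : (w i - y) * X t ≤ (w t - y) * X i := by
    have m1 : ch w y (a + 1) t ≤ ch w y (a + 1) i := (Cone.ch h.nn h.hy.le _).anti i t (ht i)
    have m2 : ch w y (b + 1) t ≤ ch w y (b + 1) i := (Cone.ch h.nn h.hy.le _).anti i t (ht i)
    have m3 := mul_le_mul m1 m2 (ch_pos h b t).le (ch_pos h a i).le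
    have m4 : 0 ≤ (w i - y) * (w t - y) := mul_nonneg (by linarith) (by linarith)
    have m5 := mul_le_mul_of_nonneg_left m3 m4
    simp only [hX]
    linarith
  have hV : w i * w t * (1 - 2 * y) * E w X ≤ (2 * (w i * w t) - y) * E w (fun c => w c * X c) := by
    have r1 := R2_le h ht a i
    have r2 := R2_le h ht b i
    rw [show 1 - w t = w i by linarith, show 1 - w i = w t by linarith] at r1 r2
    have r3 := mul_le_mul r1 r2 (mul_nonneg (ch_pos h b i).le hwi.le)
      (mul_nonneg (ch_pos h a t).le hwt.le)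
    have m4 : 0 ≤ (w i - y) * (w t - y) := mul_nonneg (by linarith) (by linarith)
    have m5 := mul_le_mul_of_nonneg_left r3 m4
    have hTs : 0 ≤ w t - w i := by linarith [h.hy]
    have m6 := mul_le_mul_of_nonneg_left m5 hTs
    rw [E_pair hti hall, E_pair hti hall (fun c => w c * X c)]
    simp only [hX]
    have e1 : w t = 1 - w i := by linarith
    have e2 : (2 * (w i * w t) - y) *
        (w t * (w t * ((w t - y) * ch w y (a + 1) t * ch w y (b + 1) t)) +
          w i * (w i * ((w i - y) * ch w y (a + 1) i * ch w y (b + 1) i))) -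
        w i * w t * (1 - 2 * y) * (w t * ((w t - y) * ch w y (a + 1) t * ch w y (b + 1) t) +
          w i * ((w i - y) * ch w y (a + 1) i * ch w y (b + 1) i)) =
        (w t - w i) * ((w i - y) * (w t - y) *
          (ch w y (a + 1) t * w t * (ch w y (b + 1) t * w t))) -
        (w t - w i) * ((w i - y) * (w t - y) *
          (ch w y (a + 1) i * w i * (ch w y (b + 1) i * w i))) := by
      rw [e1]; ring
    linarith
  have hG1 := G1_two h ht hti hall hθ hκ0 (E_nonneg h.nn hX0) hV k hk
  have hGi' := Gi_two h ht hti hall hθ (a + b + 2) (hX0 t) hXi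
  rw [show a + b + 2 + 1 = a + b + 3 by ring, ← hκ] at hGi'
  set τ := E w (fun c => hat w (psi w y k) c * κ c) with hτ
  have hτ0 : 0 < τ := E_pos h fun c => mul_pos (psi_pos h k c) (kap_pos h (a + b + 2) c)
  set H := E w X with hH
  set V := E w (fun c => w c * X c) with hVd
  have hEκ : 0 < E w κ := E_pos h fun c => kap_pos h (a + b + 2) c
  have hH0 : 0 ≤ H := E_nonneg h.nn hX0
  have hP := (Pw_pos h k).le
  -- at the smaller part
  have hGi : H * Pw w y k * κ i ≤ τ * (w i * X i + H) := by
    have a1 := mul_le_mul_of_nonneg_right hG1 (hκ0 i)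
    have a2 := mul_le_mul_of_nonneg_left hGi' hτ0.le
    have a3 : E w κ * (H * Pw w y k * κ i) ≤ E w κ * (τ * (w i * X i + H)) := by linarith
    exact le_of_mul_le_mul_left a3 hEκ
  -- the function
  set F : Fin q → ℝ := fun c => τ * (w c * X c + H) - H * Pw w y k * κ c with hF
  have hF1 : 0 ≤ E w F := by
    have : E w F = τ * (V + H) - H * Pw w y k * E w κ := by
      rw [hF, E_sub, E_const_mul, E_const_mul, E_add', E_const h]
    rw [this]
    linarith
  have hFi : 0 ≤ F i := sub_nonneg.2 hGi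
  have hGF : 0 ≤ E w (fun c => G c * F c) := by
    rw [E_pair hti hall]
    rw [E_pair hti hall] at hF1
    have g1 := hG.anti i t (ht i)
    have g2 := mul_nonneg (hG.nn t) hF1
    have g3 := mul_nonneg (sub_nonneg.2 g1) (mul_nonneg hwi.le hFi)
    linarith
  have hsf : E w (fun c => G c * sf w y [a, b] c) = l w y (a + b + 3) * E w G -
      E w (fun c => G c * κ c) + y * E w (fun c => G c * (w c * X c)) := by
    have e : (fun c => G c * sf w y [a, b] c) = fun c => (l w y (a + b + 3) * G c -
        G c * κ c) + y * (G c * (w c * X c)) := by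
      funext c
      rw [sf_two, hat_psi_kap]
      ring
    rw [e, E_add', E_sub, E_const_mul, E_const_mul]
  have hGF' : E w (fun c => G c * F c) = τ * (E w (fun c => G c * (w c * X c)) + H * E w G) -
      H * Pw w y k * E w (fun c => G c * κ c) := by
    have e : (fun c => G c * F c) = fun c => (τ * (G c * (w c * X c)) + (τ * H) * G c) -
        H * Pw w y k * (G c * κ c) := by
      funext c
      simp only [hF]
      ring
    rw [e, E_sub, E_add', E_const_mul, E_const_mul, E_const_mul]
    ring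
  rw [hGF'] at hGF
  have hPk : Pw w y (k + (a + b + 3)) = l w y (a + b + 3) * Pw w y k - τ := by
    have := tau_eq (w := w) (y := y) k (a + b + 3)
    rw [hτ, hκ, ← this]; ring
  rw [hsf, hPk]
  have := mul_nonneg h.hy.le hGF
  linarith

end two

end Pool.Agent.Helper4.SW
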