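import Pool.Agent.Helper4.SW.Base
import Pool.Agent.Helper66.HL.Code

/-!
Reduction of the Hoffman-London property of complete multipartite graphs to the S-world
inequality, by induction on the number of parts (the smallest part is singled out).
-/

set_option autoImplicit false

namespace Pool.Agent.Helper4.SW

open Pool.Agent.Helper6.HL hiding X
open Finset Polynomial


variable {q : ℕ} (w : Fin q → ℝ)

/-- all weights: the smallest part first -/
noncomputable def al (y : ℝ) : Fin (q + 1) → ℝ := Fin.cons y w

/-- the messages for the colours of `G` -/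
noncomputable def ff (y : ℝ) (F : B) : Fin q → ℝ := fun i => M (al w y) F i.succ

/-- the message for the colour `y` -/
noncomputable def aa (y : ℝ) (F : B) : ℝ := M (al w y) F 0

theorem HX_al (y : ℝ) (F : B) : Pool.Agent.Helper6.HL.X (al w y) (al w y) F = y * aa w y F + E w (ff w y F) := by
  rw [Pool.Agent.Helper6.HL.X, Fin.sum_univ_succ]
  rfl

theorem aa_cons (y : ℝ) (c s : B) : aa w y (.cons c s) = E w (ff w y c) * aa w y s := by
  rw [aa, M_cons', HX_al]
  have : al w y 0 = y := rfl
  rw [this, ← aa, ← aa]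
  ring

theorem ff_cons (y : ℝ) (c s : B) (i : Fin q) :
    ff w y (.cons c s) i = (y * aa w y c + K' w (ff w y c) i) * ff w y s i := by
  rw [ff, M_cons', HX_al, K'_apply]
  have : al w y i.succ = w i := rfl
  rw [this]
  simp only [ff]
  ring

theorem aa_nil (y : ℝ) : aa w y .nil = 1 := rfl

theorem ff_nil (y : ℝ) : ff w y .nil = fun _ => 1 := rfl

/-- a function on `G` above a polynomial: the same clusters, with larger coefficients -/
inductive Rel : (Fin q → ℝ) → ℝ[X] → Prop
  | zero : Rel (fun _ => 0) 0
  | add {f g : Fin q → ℝ} {p r : ℝ[X]} : Rel f p → Rel g r → Rel (fun i => f i + g i) (p + r)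
  | base (β β' : ℝ) (D : B) : 0 ≤ β' → β' ≤ β →
      Rel (fun i => β * M w D i) (C β' * Polynomial.X ^ D.size)

variable {w}

theorem Rel.mul {f g : Fin q → ℝ} {p r : ℝ[X]} (hf : Rel w f p) (hg : Rel w g r) :
    Rel w (fun i => f i * g i) (p * r) := by
  induction hf with
  | zero => simpa using Rel.zero
  | add _ _ h1 h2 =>
    have h3 := h1.add h2
    rw [← add_mul] at h3
    refine (congrArg (fun h => Rel w h _) ?_).mp h3
    funext i
    ring
  | base β β' D h0 h1 =>
    induction hg with
    | zero => simpa using Rel.zero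
    | add _ _ h3 h4 =>
      have h5 := h3.add h4
      rw [← mul_add] at h5
      refine (congrArg (fun h => Rel w h _) ?_).mp h5
      funext i
      ring
    | base γ γ' D' g0 g1 =>
      have h5 := Rel.base (w := w) (β * γ) (β' * γ') (B.app D D') (mul_nonneg h0 g0)
        (mul_le_mul h1 g1 g0 (h0.trans h1))
      have e1 : (C (β' * γ') * Polynomial.X ^ (B.app D D').size : ℝ[X]) =
          C β' * Polynomial.X ^ D.size * (C γ' * Polynomial.X ^ D'.size) := by
        rw [B.size_app, pow_add, C_mul]; ring
      rw [e1] at h5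
      refine (congrArg (fun h => Rel w h _) ?_).mp h5
      funext i
      rw [M_app]
      ring

theorem Rel.K {f : Fin q → ℝ} {p : ℝ[X]} (hf : Rel w f p) :
    Rel w (K' w f) (Polynomial.X * p) := by
  induction hf with
  | zero =>
    have : K' w (fun _ => 0) = fun _ => (0 : ℝ) := map_zero (K' w)
    rw [this, mul_zero]
    exact Rel.zero
  | @add f g p r _ _ h1 h2 =>
    have h3 := h1.add h2
    rw [← mul_add] at h3
    refine (congrArg (fun h => Rel w h _) ?_).mp h3
    have : K' w (fun i => f i + g i) = K' w f + K' w g := map_add (K' w) f g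
    rw [this]
    rfl
  | base β β' D h0 h1 =>
    have h3 := Rel.base (w := w) β β' (.cons D .nil) h0 h1
    have e1 : (C β' * Polynomial.X ^ (B.cons D .nil).size : ℝ[X]) =
        Polynomial.X * (C β' * Polynomial.X ^ D.size) := by
      simp only [B.size, add_zero, pow_succ]; ring
    rw [e1] at h3
    refine (congrArg (fun h => Rel w h _) ?_).mp h3
    funext i
    rw [M_cons', M_nil, K'_apply, E, Pool.Agent.Helper6.HL.X]
    have : ∑ j, w j * (β * M w D j) = β * ∑ j, w j * M w D j := by
      rw [mul_sum]; exact sum_congr rfl fun j _ => by ring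
    rw [this]
    ring

theorem L_base (β' : ℝ) (n : ℕ) :
    L w (C β' * Polynomial.X ^ n) = β' * Pool.Agent.Helper6.HL.X w w (B.path n) := by
  rw [← smul_eq_C_mul, map_smul, L_X_pow]
  rfl

/-- the real weight of `G`-clusters is at least the path weight -/
theorem Rel.le (hw : ∀ i, 0 ≤ w i) (hHL : ∀ F : B, Pool.Agent.Helper6.HL.X w w (B.path F.size) ≤ Pool.Agent.Helper6.HL.X w w F)
    {f : Fin q → ℝ} {p : ℝ[X]} (hf : Rel w f p) : 0 ≤ L w p ∧ L w p ≤ E w f := by
  induction hf with
  | zero =>
    rw [map_zero]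
    simp [E]
  | @add f g p r _ _ h1 h2 =>
    rw [map_add]
    have : E w (fun i => f i + g i) = E w f + E w g := E_add w f g
    rw [this]
    exact ⟨add_nonneg h1.1 h2.1, add_le_add h1.2 h2.2⟩
  | base β β' D h0 h1 =>
    rw [L_base]
    have e : E w (fun i => β * M w D i) = β * Pool.Agent.Helper6.HL.X w w D := E_smul w β (M w D)
    rw [e]
    have hp : 0 ≤ Pool.Agent.Helper6.HL.X w w (B.path D.size) := X_nonneg hw hw _
    refine ⟨mul_nonneg h0 hp, ?_⟩
    exact mul_le_mul h1 (hHL D) hp (h0.trans h1)

theorem real_main (hw : ∀ i, 0 ≤ w i) (hHL : ∀ F : B, Pool.Agent.Helper6.HL.X w w (B.path F.size) ≤ Pool.Agent.Helper6.HL.X w w F)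
    {y : ℝ} (hy : 0 ≤ y) (F : B) :
    (0 ≤ (st w y F).a ∧ (st w y F).a ≤ aa w y F) ∧ Rel w (ff w y F) (st w y F).p := by
  induction F with
  | nil =>
    refine ⟨⟨zero_le_one, le_rfl⟩, ?_⟩
    have h := Rel.base (w := w) 1 1 .nil zero_le_one le_rfl
    have e1 : (C 1 * Polynomial.X ^ (B.nil).size : ℝ[X]) = 1 := by simp [B.size]
    rw [e1] at h
    refine (congrArg (fun h => Rel w h _) ?_).mp h
    funext i
    rw [ff_nil, M_nil, mul_one]
  | cons c s ihc ihs =>
    have hc := ihc.2.le hw hHL
    constructor
    · rw [aa_cons]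
      exact ⟨mul_nonneg hc.1 ihs.1.1, mul_le_mul hc.2 ihs.1.2 ihs.1.1 (hc.1.trans hc.2)⟩
    · have h1 := Rel.base (w := w) (y * aa w y c) (y * (st w y c).a) .nil
        (mul_nonneg hy ihc.1.1) (mul_le_mul_of_nonneg_left ihc.1.2 hy)
      have e1 : (C (y * (st w y c).a) * Polynomial.X ^ (B.nil).size : ℝ[X]) =
          C (y * (st w y c).a) := by simp [B.size]
      rw [e1] at h1
      have h2 := (h1.add ihc.2.K).mul ihs.2
      refine (congrArg (fun h => Rel w h _) ?_).mp h2
      funext i
      rw [ff_cons, M_nil, mul_one]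

/-- the real weight is at least the S-world weight -/
theorem W_le_real (hw : ∀ i, 0 ≤ w i) (hHL : ∀ F : B, Pool.Agent.Helper6.HL.X w w (B.path F.size) ≤ Pool.Agent.Helper6.HL.X w w F)
    {y : ℝ} (hy : 0 ≤ y) (F : B) : W w y F ≤ Pool.Agent.Helper6.HL.X (al w y) (al w y) F := by
  have h := real_main hw hHL hy F
  rw [W, HX_al]
  exact add_le_add (mul_le_mul_of_nonneg_left h.1.2 hy) (h.2.le hw hHL).2

theorem path_main (y : ℝ) (k : ℕ) :
    (st w y (B.path k)).a = aa w y (B.path k) ∧
      hat w (st w y (B.path k)).p = ff w y (B.path k) := by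
  induction k with
  | zero => exact ⟨rfl, hat_one w⟩
  | succ k ih =>
    constructor
    · rw [B.path, aa_cons, aa_nil, ← ih.2]
      rfl
    · funext i
      rw [B.path, ff_cons, ff_nil, ← ih.1, ← ih.2]
      show hat w ((C (y * (st w y (B.path k)).a) + Polynomial.X * (st w y (B.path k)).p) * 1) i = _
      rw [mul_one, map_add, hat_C, hat_X_mul, Pi.add_apply, mul_one]

theorem W_path (y : ℝ) (k : ℕ) :
    W w y (B.path k) = Pool.Agent.Helper6.HL.X (al w y) (al w y) (B.path k) := by
  have h := path_main (w := w) y k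
  rw [W, HX_al, h.1, ← h.2, L_def]

/-! ### Scaling and permutation -/

theorem M_scale (x : Fin q → ℝ) (t : ℝ) (F : B) (i : Fin q) :
    M (fun j => t * x j) F i = t ^ F.size * M x F i := by
  induction F generalizing i with
  | nil => simp [M_nil, B.size]
  | cons c s ihc ihs =>
    rw [M_cons, M_cons, ihs]
    have : ∑ j ∈ univ.erase i, t * x j * M (fun j => t * x j) c j =
        t * t ^ c.size * ∑ j ∈ univ.erase i, x j * M x c j := by
      rw [mul_sum]
      exact sum_congr rfl fun j _ => by rw [ihc]; ring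
    rw [this]
    simp only [B.size, pow_add, pow_one]
    ring

theorem X_scale (x : Fin q → ℝ) (t : ℝ) (F : B) :
    Pool.Agent.Helper6.HL.X (fun j => t * x j) (fun j => t * x j) F = t ^ (F.size + 1) * Pool.Agent.Helper6.HL.X x x F := by
  rw [Pool.Agent.Helper6.HL.X, Pool.Agent.Helper6.HL.X, mul_sum]
  refine sum_congr rfl fun i _ => ?_
  rw [M_scale, pow_succ]
  ring

theorem M_perm (x : Fin q → ℝ) (σ : Equiv.Perm (Fin q)) (F : B) (i : Fin q) :
    M (fun j => x (σ j)) F i = M x F (σ i) := by
  induction F generalizing i with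
  | nil => rfl
  | cons c s ihc ihs =>
    rw [M_cons', M_cons', ihs, ihc]
    have h : Pool.Agent.Helper6.HL.X (fun j => x (σ j)) (fun j => x (σ j)) c = Pool.Agent.Helper6.HL.X x x c := by
      rw [Pool.Agent.Helper6.HL.X, Pool.Agent.Helper6.HL.X,
        ← Equiv.sum_comp σ (fun j => x j * M x c j)]
      exact sum_congr rfl fun j _ => by rw [ihc]
    rw [h]

theorem X_perm (x : Fin q → ℝ) (σ : Equiv.Perm (Fin q)) (F : B) :
    Pool.Agent.Helper6.HL.X (fun j => x (σ j)) (fun j => x (σ j)) F = Pool.Agent.Helper6.HL.X x x F := by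
  rw [Pool.Agent.Helper6.HL.X, Pool.Agent.Helper6.HL.X,
    ← Equiv.sum_comp σ (fun j => x j * M x F j)]
  exact sum_congr rfl fun j _ => by rw [M_perm]

/-- the S-world inequality, for distinct sizes, one of which is more than half of the total -/
def SWIneq : Prop := ∀ (q : ℕ) (w : Fin q → ℝ) (y : ℝ), Function.Injective w → 0 < y →
  (∀ i, y < w i) → ∑ i, w i = 1 → (∃ i, 1 + y < 2 * w i) →
  ∀ F : B, W w y (B.path F.size) ≤ W w y F

theorem HL_inj_of_SW (h : SWIneq) (q : ℕ) : ∀ x : Fin q → ℝ, Function.Injective x →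
    (∀ i, 0 < x i) → (∃ i, ∑ l, x l < 2 * x i) →
    ∀ F : B, Pool.Agent.Helper6.HL.X x x (B.path F.size) ≤ Pool.Agent.Helper6.HL.X x x F := by
  induction q with
  | zero =>
    intro x _ _ _ F
    simp [Pool.Agent.Helper6.HL.X]
  | succ q ih =>
    intro x hinj hx hhalf F
    obtain ⟨i0, hi0⟩ := Finite.exists_min x
    -- put the smallest part first
    set σ : Equiv.Perm (Fin (q + 1)) := Equiv.swap 0 i0 with hσ
    rw [← X_perm x σ, ← X_perm x σ]
    set x' : Fin (q + 1) → ℝ := fun j => x (σ j) with hx'
    have hx'pos : ∀ i, 0 < x' i := fun i => hx _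
    have hx'inj : Function.Injective x' := hinj.comp σ.injective
    have hx'min : ∀ i : Fin q, x' 0 < x' i.succ := fun i => by
      refine lt_of_le_of_ne ?_ (hx'inj.ne (Fin.succ_ne_zero i).symm)
      simp only [hx', hσ, Equiv.swap_apply_left]
      exact hi0 _
    have hx'half : ∃ i, ∑ l, x' l < 2 * x' i := by
      obtain ⟨i, hi⟩ := hhalf
      refine ⟨σ.symm i, ?_⟩
      have e1 : ∑ l, x' l = ∑ l, x l := Equiv.sum_comp σ x
      rw [e1]
      simp only [hx', Equiv.apply_symm_apply]
      exact hi
    rcases Nat.eq_zero_or_pos q with hq | hq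
    · -- a single part
      subst hq
      cases F with
      | nil => exact le_rfl
      | cons c s =>
        have h1 : Pool.Agent.Helper6.HL.X x' x' (B.path (B.cons c s).size) = 0 := by
          obtain ⟨m, hm⟩ : ∃ m, (B.cons c s).size = m + 1 := ⟨c.size + s.size, by
            simp only [B.size]; omega⟩
          rw [hm, Pool.Agent.Helper6.HL.X]
          refine sum_eq_zero fun i _ => ?_
          have hi : (univ : Finset (Fin (0 + 1))).erase i = ∅ := by
            ext j
            simp only [mem_erase, mem_univ, and_true, Finset.notMem_empty, iff_false, not_not]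
            exact Fin.ext (by omega)
          rw [B.path, M_cons, hi]
          simp
        rw [h1]
        exact X_nonneg (fun i => (hx'pos i).le) (fun i => (hx'pos i).le) _
    · -- the largest part is not the smallest one
      have hhalf' : ∃ i : Fin q, ∑ l, x' l < 2 * x' i.succ := by
        obtain ⟨i, hi⟩ := hx'half
        rcases Fin.eq_zero_or_eq_succ i with rfl | ⟨j, rfl⟩
        · exfalso
          rw [Fin.sum_univ_succ] at hi
          have h1 : x' 0 < ∑ l : Fin q, x' l.succ := by
            calc x' 0 < x' (⟨0, hq⟩ : Fin q).succ := hx'min _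
              _ ≤ ∑ l : Fin q, x' l.succ :=
                single_le_sum (f := fun l : Fin q => x' l.succ) (fun l _ => (hx'pos _).le)
                  (mem_univ (⟨0, hq⟩ : Fin q))
          linarith
        · exact ⟨j, hi⟩
      -- scaling
      set S : ℝ := ∑ i : Fin q, x' i.succ with hS
      have hSpos : 0 < S := by
        have : Nonempty (Fin q) := ⟨⟨0, hq⟩⟩
        exact sum_pos (fun i _ => hx'pos _) univ_nonempty
      have ht : 0 < S⁻¹ := inv_pos.2 hSpos
      have hinj' : Function.Injective (fun i : Fin q => S⁻¹ * x' i.succ) := fun i j hij =>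
        Fin.succ_injective _ (hx'inj (mul_left_cancel₀ ht.ne' hij))
      have hsum1 : ∑ i : Fin q, S⁻¹ * x' i.succ = 1 := by
        rw [← mul_sum]
        exact inv_mul_cancel₀ hSpos.ne'
      have key : Pool.Agent.Helper6.HL.X (fun j => S⁻¹ * x' j) (fun j => S⁻¹ * x' j) (B.path F.size) ≤
          Pool.Agent.Helper6.HL.X (fun j => S⁻¹ * x' j) (fun j => S⁻¹ * x' j) F := by
        have e : (fun j => S⁻¹ * x' j) =
            al (fun i : Fin q => S⁻¹ * x' i.succ) (S⁻¹ * x' 0) := by
          funext j
          refine Fin.cases rfl (fun i => rfl) j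
        rw [e, ← W_path]
        refine le_trans (h q _ _ hinj' (mul_pos ht (hx'pos 0)) ?_ hsum1 ?_ F)
          (W_le_real ?_ ?_ ?_ F)
        · intro i
          exact mul_lt_mul_of_pos_left (hx'min _) ht
        · obtain ⟨i, hi⟩ := hhalf'
          refine ⟨i, ?_⟩
          rw [Fin.sum_univ_succ] at hi
          have h2 := mul_lt_mul_of_pos_left hi ht
          rw [mul_add, ← hS, inv_mul_cancel₀ hSpos.ne'] at h2
          linarith
        · intro i
          exact (mul_pos ht (hx'pos _)).le
        · refine ih _ hinj' (fun i => mul_pos ht (hx'pos _)) ?_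
          obtain ⟨i, hi⟩ := hhalf'
          refine ⟨i, ?_⟩
          rw [hsum1]
          rw [Fin.sum_univ_succ] at hi
          have h2 := mul_lt_mul_of_pos_left hi ht
          rw [mul_add, ← hS, inv_mul_cancel₀ hSpos.ne'] at h2
          have h3 := mul_pos ht (hx'pos 0)
          linarith
        · exact (mul_pos ht (hx'pos 0)).le
      rw [X_scale, X_scale, B.size_path] at key
      exact le_of_mul_le_mul_left key (pow_pos ht _)

theorem continuous_M (F : B) (i : Fin q) : Continuous fun x : Fin q → ℝ => M x F i := by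
  induction F generalizing i with
  | nil => exact continuous_const
  | cons c s ihc ihs =>
    have : (fun x : Fin q → ℝ => M x (B.cons c s) i) =
        fun x => (Pool.Agent.Helper6.HL.X x x c - x i * M x c i) * M x s i := by
      funext x
      rw [M_cons']
    rw [this]
    have h1 : Continuous fun x : Fin q → ℝ => Pool.Agent.Helper6.HL.X x x c :=
      continuous_finsetSum _ fun j _ => (continuous_apply j).mul (ihc j)
    exact (h1.sub ((continuous_apply i).mul (ihc i))).mul (ihs i)

theorem continuous_X (F : B) : Continuous fun x : Fin q → ℝ => Pool.Agent.Helper6.HL.X x x F :=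
  continuous_finsetSum _ fun j _ => (continuous_apply j).mul (continuous_M F j)

theorem HL_of_SW (h : SWIneq) (q : ℕ) (x : Fin q → ℝ) (hx : ∀ i, 0 < x i)
    (hhalf : ∃ i, ∑ l, x l < 2 * x i) (F : B) : Pool.Agent.Helper6.HL.X x x (B.path F.size) ≤ Pool.Agent.Helper6.HL.X x x F := by
  set f : ℝ → Fin q → ℝ := fun t i => x i + t * ((i : ℕ) : ℝ) with hf
  have hf0 : f 0 = x := by funext i; simp [hf]
  have hcont : Continuous f := by
    refine continuous_pi fun i => ?_
    exact continuous_const.add (continuous_id.mul continuous_const)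
  have hev : ∀ᶠ t in nhdsWithin (0 : ℝ) (Set.Ioi 0), Function.Injective (f t) := by
    have hbad : ∀ i j : Fin q, i ≠ j → ∀ᶠ t in nhdsWithin (0 : ℝ) (Set.Ioi 0), f t i ≠ f t j := by
      intro i j hij
      have hd : ((i : ℕ) : ℝ) - ((j : ℕ) : ℝ) ≠ 0 := by
        rw [sub_ne_zero]
        exact fun hh => hij (Fin.ext (by exact_mod_cast hh))
      set t0 : ℝ := (x j - x i) / (((i : ℕ) : ℝ) - ((j : ℕ) : ℝ)) with ht0
      have hmem : ∀ᶠ t in nhdsWithin (0 : ℝ) (Set.Ioi 0), t ≠ t0 := by
        rcases le_or_gt t0 0 with h0 | h0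
        · filter_upwards [self_mem_nhdsWithin] with t ht
          exact (lt_of_le_of_lt h0 ht).ne'
        · filter_upwards [nhdsWithin_le_nhds (Iio_mem_nhds h0)] with t ht
          exact ne_of_lt ht
      filter_upwards [hmem] with t ht hh
      apply ht
      rw [ht0, eq_div_iff hd]
      simp only [hf] at hh
      linarith
    have hall : ∀ᶠ t in nhdsWithin (0 : ℝ) (Set.Ioi 0), ∀ i j : Fin q, i ≠ j → f t i ≠ f t j := by
      rw [Filter.eventually_all]
      intro i
      rw [Filter.eventually_all]
      intro j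
      by_cases hij : i = j
      · exact Filter.Eventually.of_forall fun t hne => absurd hij hne
      · filter_upwards [hbad i j hij] with t ht _ using ht
    filter_upwards [hall] with t ht i j hij
    by_contra hne
    exact ht i j hne hij
  have hle : ∀ᶠ t in nhdsWithin (0 : ℝ) (Set.Ioi 0),
      Pool.Agent.Helper6.HL.X (f t) (f t) (B.path F.size) ≤ Pool.Agent.Helper6.HL.X (f t) (f t) F := by
    have hreg : ∀ᶠ t in nhdsWithin (0 : ℝ) (Set.Ioi 0), ∃ i, ∑ l, f t l < 2 * f t i := by
      obtain ⟨i, hi⟩ := hhalf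
      have hc : Continuous fun t => 2 * f t i - ∑ l, f t l := by
        refine (continuous_const.mul ((continuous_apply i).comp hcont)).sub ?_
        exact continuous_finsetSum _ fun l _ => (continuous_apply l).comp hcont
      have h0 : 0 < 2 * f 0 i - ∑ l, f 0 l := by
        rw [hf0]; linarith
      have := nhdsWithin_le_nhds (s := Set.Ioi 0) (hc.continuousAt.eventually (lt_mem_nhds h0))
      filter_upwards [this] with t ht
      exact ⟨i, by linarith⟩
    filter_upwards [hev, hreg, self_mem_nhdsWithin] with t ht hr h0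
    refine HL_inj_of_SW h q _ ht (fun i => ?_) hr F
    have h0' : (0 : ℝ) < t := h0
    exact add_pos_of_pos_of_nonneg (hx i) (mul_nonneg h0'.le (Nat.cast_nonneg _))
  have l1 : Filter.Tendsto (fun t => Pool.Agent.Helper6.HL.X (f t) (f t) (B.path F.size))
      (nhdsWithin (0 : ℝ) (Set.Ioi 0)) (nhds (Pool.Agent.Helper6.HL.X x x (B.path F.size))) := by
    have := ((continuous_X (q := q) (B.path F.size)).comp hcont).tendsto 0
    simp only [Function.comp_apply, hf0] at this
    exact this.mono_left nhdsWithin_le_nhds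
  have l2 : Filter.Tendsto (fun t => Pool.Agent.Helper6.HL.X (f t) (f t) F)
      (nhdsWithin (0 : ℝ) (Set.Ioi 0)) (nhds (Pool.Agent.Helper6.HL.X x x F)) := by
    have := ((continuous_X (q := q) F).comp hcont).tendsto 0
    simp only [Function.comp_apply, hf0] at this
    exact this.mono_left nhdsWithin_le_nhds
  exact le_of_tendsto_of_tendsto l1 l2 hle

theorem card_eq_sum (r : ℕ) (W : Type) [Fintype W] (p : W → Fin r) :
    ∑ i, (Nat.card {x : W // p x = i} : ℝ) = (Fintype.card W : ℝ) := by
  classical
  have h1 : (Finset.univ : Finset W).card = ∑ i, (univ.filter fun x => p x = i).card :=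
    Finset.card_eq_sum_card_fiberwise fun x _ => mem_coe.2 (mem_univ _)
  rw [← Finset.card_univ, h1, Nat.cast_sum]
  refine sum_congr rfl fun i _ => ?_
  simp only [Nat.card_eq_fintype_card, Fintype.card_subtype]

end Pool.Agent.Helper4.SW
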