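import Pool.Agent.Helper4.SW.Real
import Pool.Agent.Helper56.HLA.Half.Main

/-!
The frozen statement from the S-world inequality; the case of no part larger than half is
helper56's theorem.  Kept apart from `Real.lean` so that the S-world files do not wait for
`Half.Main` in a parallel build.
-/

set_option autoImplicit false

namespace Pool.Agent.Helper4.SW

open Pool.Agent.Helper6.HL hiding X
open Finset Polynomial

open Pool.Agent.Helper56.HLA Pool.Agent.Helper66.HL Classical in
/-- the case of no part larger than half (helper56) -/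
theorem half_case (r : ℕ) (W : Type) [Fintype W] (p : W → Fin r)
    (h2 : ∀ i, 2 * Nat.card {x : W // p x = i} ≤ Fintype.card W)
    (n : ℕ) (T : SimpleGraph (Fin n)) (hT : T.IsTree) :
    Nat.card {f : Fin n → W // ∀ u v : Fin n,
        (SimpleGraph.pathGraph n).Adj u v → p (f u) ≠ p (f v)}
      ≤ Nat.card {f : Fin n → W // ∀ u v : Fin n, T.Adj u v → p (f u) ≠ p (f v)} := by
  refine hl_of_cond r W p h2 (fun t x ht hx hsize => Half.cond_half hx fun i => ?_) n T hT
  have hsum : ∑ i, t * x i = (Fintype.card W : ℝ) := by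
    have h1 : (Finset.univ : Finset W).card = ∑ i, (univ.filter fun x => p x = i).card :=
      Finset.card_eq_sum_card_fiberwise fun x _ => mem_coe.2 (mem_univ _)
    rw [← Finset.card_univ, h1, Nat.cast_sum]
    refine sum_congr rfl fun i _ => ?_
    rw [← hsize i]
    simp only [Nat.card_eq_fintype_card, Fintype.card_subtype]
  have h3 : (2 : ℝ) * (Nat.card {x : W // p x = i} : ℝ) ≤ (Fintype.card W : ℝ) := by
    exact_mod_cast h2 i
  rw [hsize i, ← hsum, ← mul_sum] at h3
  refine le_of_mul_le_mul_left ?_ ht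
  linarith

theorem frozen_of_SW (h : SWIneq) :
    ∀ r : ℕ, 3 ≤ r → ∀ (W : Type) [Fintype W] (p : W → Fin r), Function.Surjective p →
      ∀ (n : ℕ) (T : SimpleGraph (Fin n)), T.IsTree →
        Nat.card {f : Fin n → W // ∀ a b : Fin n, (SimpleGraph.pathGraph n).Adj a b → p (f a) ≠ p (f b)}
          ≤ Nat.card {f : Fin n → W // ∀ a b : Fin n, T.Adj a b → p (f a) ≠ p (f b)} := by
  intro r _ W _ p hp n T hT
  by_cases hcap : ∀ i, 2 * Nat.card {x : W // p x = i} ≤ Fintype.card W
  · exact half_case r W p hcap n T hT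
  obtain ⟨H, hH, hY⟩ := exists_B' (fun i => (Nat.card {x : W // p x = i} : ℝ)) T hT
  obtain rfl : H.size + 1 = n := hH
  have hpos : ∀ i, 0 < (Nat.card {x : W // p x = i} : ℝ) := fun i => by
    obtain ⟨x, hx⟩ := hp i
    have : Nonempty {x : W // p x = i} := ⟨⟨x, hx⟩⟩
    exact_mod_cast Nat.card_pos
  have hhalf : ∃ i, ∑ l, (Nat.card {x : W // p x = l} : ℝ) <
      2 * (Nat.card {x : W // p x = i} : ℝ) := by
    rw [not_forall] at hcap
    obtain ⟨i, hi⟩ := hcap
    rw [not_le] at hi
    refine ⟨i, ?_⟩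
    rw [card_eq_sum]
    exact_mod_cast hi
  have h1 := HL_of_SW h r _ hpos hhalf H
  rw [← hY, ← Y_path'] at h1
  have e1 := card_eq_Y p (SimpleGraph.pathGraph (H.size + 1))
  have e2 := card_eq_Y p T
  have h2 : ((Nat.card {f : Fin (H.size + 1) → W // ∀ a b : Fin (H.size + 1),
      (SimpleGraph.pathGraph (H.size + 1)).Adj a b → p (f a) ≠ p (f b)} : ℕ) : ℝ) ≤
      ((Nat.card {f : Fin (H.size + 1) → W // ∀ a b : Fin (H.size + 1),
        T.Adj a b → p (f a) ≠ p (f b)} : ℕ) : ℝ) := by
    rw [e1, e2]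
    exact h1
  exact_mod_cast h2

end Pool.Agent.Helper4.SW
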