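import Pool.Agent.Helper4.SW.CaseA

/-!
S-world: the explicit formula (helper66's T1) for the hat of a product of polynomials, for distinct
weights.
-/

set_option autoImplicit false

namespace Pool.Agent.Helper4.SW

open Pool.Agent.Helper6.HL hiding X
open Finset Polynomial

variable {q : ℕ} (w : Fin q → ℝ)

/-- the star product on functions (the term `d = c` is zero) -/
noncomputable def star (f g : Fin q → ℝ) : Fin q → ℝ := fun c =>
  f c * g c + ∑ d, w d * ((f c - f d) * (g c - g d) / (w c - w d))

theorem star_comm (f g : Fin q → ℝ) : star w f g = star w g f := by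
  funext c
  simp only [star]
  rw [mul_comm (f c)]
  congr 1
  exact sum_congr rfl fun d _ => by rw [mul_comm (f c - f d)]

theorem star_one (f : Fin q → ℝ) : star w f (fun _ => 1) = f := by
  funext c
  simp [star]

theorem star_add (f g h : Fin q → ℝ) :
    star w f (fun i => g i + h i) = fun i => star w f g i + star w f h i := by
  funext c
  simp only [star]
  have : ∀ d, w d * ((f c - f d) * (g c + h c - (g d + h d)) / (w c - w d)) =
      w d * ((f c - f d) * (g c - g d) / (w c - w d)) +
      w d * ((f c - f d) * (h c - h d) / (w c - w d)) := fun d => by ring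
  simp only [this, sum_add_distrib]
  ring

theorem star_smul (f g : Fin q → ℝ) (r : ℝ) :
    star w f (fun i => r * g i) = fun i => r * star w f g i := by
  funext c
  simp only [star]
  rw [mul_add, mul_sum]
  congr 1
  · ring
  · exact sum_congr rfl fun d _ => by ring

theorem star_sub (f g h : Fin q → ℝ) :
    star w f (fun i => g i - h i) = fun i => star w f g i - star w f h i := by
  have h1 := star_add w f g (fun i => (-1) * h i)
  have h2 := star_smul w f h (-1)
  rw [h2] at h1
  have e : (fun i => g i - h i) = fun i => g i + -1 * h i := by funext i; ring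
  rw [e, h1]
  funext i
  ring

/-- the trilinear form -/
noncomputable def tri (f g h : Fin q → ℝ) : ℝ := E w (fun c => f c * g c * h c) +
  (∑ c, ∑ d, w c * w d * ((f c - f d) * (g c - g d) * (h c - h d) / (w c - w d))) / 2

theorem E_star_mul (f g h : Fin q → ℝ) : E w (fun c => star w f g c * h c) = tri w f g h := by
  set A : Fin q → Fin q → ℝ := fun c d =>
    w c * w d * ((f c - f d) * (g c - g d) * h c / (w c - w d)) with hA
  have h1 : E w (fun c => star w f g c * h c) = E w (fun c => f c * g c * h c) +
      ∑ c, ∑ d, A c d := by
    simp only [E]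
    rw [← sum_add_distrib]
    refine sum_congr rfl fun c _ => ?_
    simp only [star, hA]
    rw [add_mul, mul_add, sum_mul, mul_sum]
    congr 1
    exact sum_congr rfl fun d _ => by ring
  have h2 : ∑ c, ∑ d, A c d = ∑ c, ∑ d, A d c := sum_comm
  have h3 : ∀ c d, A c d + A d c =
      w c * w d * ((f c - f d) * (g c - g d) * (h c - h d) / (w c - w d)) := by
    intro c d
    simp only [hA]
    rcases eq_or_ne (w c) (w d) with he | he
    · simp [he]
    · have h4 : w c - w d ≠ 0 := sub_ne_zero.2 he
      have h5 : w d - w c ≠ 0 := sub_ne_zero.2 he.symm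
      have h6 : (f d - f c) * (g d - g c) * h d / (w d - w c) =
          - ((f c - f d) * (g c - g d) * h d / (w c - w d)) := by
        rw [eq_neg_iff_add_eq_zero]
        field_simp
        ring
      rw [h6]
      ring
  have h4 : ∑ c, ∑ d, A c d = (∑ c, ∑ d,
      w c * w d * ((f c - f d) * (g c - g d) * (h c - h d) / (w c - w d))) / 2 := by
    have : 2 * ∑ c, ∑ d, A c d = ∑ c, ∑ d, (A c d + A d c) := by
      simp only [sum_add_distrib]
      linarith
    simp only [h3] at this
    linarith
  rw [h1, h4, tri]

theorem tri_comm12 (f g h : Fin q → ℝ) : tri w f g h = tri w g f h := by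
  rw [← E_star_mul, ← E_star_mul, star_comm]

theorem tri_comm23 (f g h : Fin q → ℝ) : tri w f g h = tri w f h g := by
  simp only [tri]
  congr 1
  · congr 1; funext c; ring
  · congr 1
    exact sum_congr rfl fun c _ => sum_congr rfl fun d _ => by ring

theorem E_star (f g : Fin q → ℝ) : E w (star w f g) = E w (fun c => f c * g c) := by
  have h := E_star_mul w f g (fun _ => 1)
  simp only [mul_one] at h
  rw [show (fun c => star w f g c) = star w f g from rfl] at h
  rw [h, tri]
  simp

variable {w}

/-- `K'` is a star multiplication operator -/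
theorem K'_star (hw : Function.Injective w) (f g : Fin q → ℝ) :
    K' w (star w f g) = star w f (K' w g) := by
  funext c
  rw [K'_apply, E_star]
  simp only [star, K'_apply]
  have h1 : ∀ d, w d * ((f c - f d) * (E w g - w c * g c - (E w g - w d * g d)) / (w c - w d)) =
      - w c * (w d * ((f c - f d) * (g c - g d) / (w c - w d))) - w d * (g d * (f c - f d)) := by
    intro d
    rcases eq_or_ne d c with rfl | hd
    · simp
    · have h2 : w c - w d ≠ 0 := sub_ne_zero.2 (hw.ne hd.symm)
      field_simp
      ring
  simp only [h1, sum_sub_distrib, ← mul_sum]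
  have h2 : ∑ d, w d * (g d * (f c - f d)) = f c * E w g - E w (fun c => f c * g c) := by
    simp only [E]
    rw [mul_sum, ← sum_sub_distrib]
    exact sum_congr rfl fun d _ => by ring
  rw [h2]
  ring

/-- the hat of a product -/
theorem aeval_eq_star (hw : Function.Injective w) (p : ℝ[X]) (g : Fin q → ℝ) :
    aeval (K' w) p g = star w g (hat w p) := by
  induction p using Polynomial.induction_on' with
  | add p r hp hr =>
    rw [map_add, LinearMap.add_apply, hp, hr, map_add]
    exact (star_add w g (hat w p) (hat w r)).symm
  | monomial n r =>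
    rw [← C_mul_X_pow_eq_monomial, hat_C_mul]
    have h1 : ∀ n : ℕ, ((K' w) ^ n) g = star w g (hat w (X ^ n)) := by
      intro n
      induction n with
      | zero => rw [pow_zero, pow_zero, hat_one, star_one]; rfl
      | succ n ih =>
        rw [pow_succ', pow_succ', hat_X_mul, ← K'_star hw, ← ih]
        rfl
    have h2 := star_smul w g (hat w (X ^ n)) r
    have h3 : star w g (r • hat w (X ^ n)) = fun i => r * star w g (hat w (X ^ n)) i := h2
    rw [h3, ← h1 n, map_mul, aeval_C, map_pow, aeval_X]
    rfl

theorem hat_mul_star (hw : Function.Injective w) (p r : ℝ[X]) :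
    hat w (p * r) = star w (hat w p) (hat w r) := by
  rw [hat_mul, aeval_eq_star hw, star_comm]

theorem L_mul_mul (hw : Function.Injective w) (p r s : ℝ[X]) :
    L w (p * r * s) = tri w (hat w p) (hat w r) (hat w s) := by
  rw [L_mul, hat_mul_star hw, E_star_mul]

end Pool.Agent.Helper4.SW
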