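import Pool.Agent.Helper4.SW.Ctx

/-!
S-world toolkit: the cone of functions `f ≥ 0`, `f` decreasing, `x f` increasing; leg messages
`(l j; psi j)`, the functions `ch`, and the merge identities.
-/

set_option autoImplicit false

namespace Pool.Agent.Helper4.SW

open Pool.Agent.Helper6.HL hiding X
open Finset Polynomial

variable {q : ℕ} (w : Fin q → ℝ) (y : ℝ)

/-- the standing hypotheses -/
structure Hyp : Prop where
  two : 2 ≤ q
  inj : Function.Injective w
  hy : 0 < y
  lt : ∀ i, y < w i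
  one : ∑ i, w i = 1
  half : ∃ i, 1 + y < 2 * w i

variable {w y}

theorem Hyp.pos (h : Hyp w y) (i : Fin q) : 0 < w i := h.hy.trans (h.lt i)

theorem Hyp.nn (h : Hyp w y) (i : Fin q) : 0 ≤ w i := (h.pos i).le

theorem E_nonneg (hw : ∀ i, 0 ≤ w i) {f : Fin q → ℝ} (hf : ∀ i, 0 ≤ f i) : 0 ≤ E w f :=
  sum_nonneg fun i _ => mul_nonneg (hw i) (hf i)

theorem E_mono (hw : ∀ i, 0 ≤ w i) {f g : Fin q → ℝ} (hf : ∀ i, f i ≤ g i) : E w f ≤ E w g :=
  sum_le_sum fun i _ => mul_le_mul_of_nonneg_left (hf i) (hw i)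

theorem E_sub (f g : Fin q → ℝ) : E w (fun i => f i - g i) = E w f - E w g := by
  simp only [E, mul_sub, sum_sub_distrib]

theorem E_add' (f g : Fin q → ℝ) : E w (fun i => f i + g i) = E w f + E w g := by
  simp only [E, mul_add, sum_add_distrib]

theorem E_const_mul (r : ℝ) (f : Fin q → ℝ) : E w (fun i => r * f i) = r * E w f :=
  E_smul w r f

theorem E_one (h : Hyp w y) : E w (fun _ => 1) = 1 := by
  simp only [E, mul_one]
  exact h.one

theorem E_const (h : Hyp w y) (r : ℝ) : E w (fun _ => r) = r := by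
  have := E_const_mul (w := w) r (fun _ => 1)
  simp only [mul_one] at this
  rw [this, E_one h, mul_one]

/-- `E f ≥ x_i f_i` -/
theorem le_E (hw : ∀ i, 0 ≤ w i) {f : Fin q → ℝ} (hf : ∀ i, 0 ≤ f i) (i : Fin q) :
    w i * f i ≤ E w f :=
  single_le_sum (f := fun i => w i * f i) (fun i _ => mul_nonneg (hw i) (hf i)) (mem_univ i)

theorem le_E2 (hw : ∀ i, 0 ≤ w i) {f : Fin q → ℝ} (hf : ∀ i, 0 ≤ f i) {i j : Fin q}
    (hij : i ≠ j) : w i * f i + w j * f j ≤ E w f := by
  have h := sum_le_sum_of_subset_of_nonneg (subset_univ ({i, j} : Finset (Fin q)))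
    (f := fun i => w i * f i) (fun k _ _ => mul_nonneg (hw k) (hf k))
  rw [sum_pair hij] at h
  exact h

theorem K'_nonneg (hw : ∀ i, 0 ≤ w i) {f : Fin q → ℝ} (hf : ∀ i, 0 ≤ f i) (i : Fin q) :
    0 ≤ K' w f i := by
  rw [K'_apply]
  exact sub_nonneg.2 (le_E hw hf i)

/-- the operator of a nonnegative polynomial is a nonnegative matrix -/
theorem aeval_nonneg (hw : ∀ i, 0 ≤ w i) {p : ℝ[X]} (hp : NN p) {f : Fin q → ℝ}
    (hf : ∀ i, 0 ≤ f i) (i : Fin q) : 0 ≤ aeval (K' w) p f i := by
  have hpow : ∀ n : ℕ, ∀ i, 0 ≤ ((K' w) ^ n) f i := by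
    intro n
    induction n with
    | zero => exact hf
    | succ n ih =>
      intro i
      rw [pow_succ']
      exact K'_nonneg hw ih i
  rw [aeval_eq_sum_range, LinearMap.sum_apply, Finset.sum_apply]
  exact sum_nonneg fun n _ => by
    rw [LinearMap.smul_apply, Pi.smul_apply, smul_eq_mul]
    exact mul_nonneg (hp n) (hpow n i)

theorem aeval_mono (hw : ∀ i, 0 ≤ w i) {p : ℝ[X]} (hp : NN p) {f g : Fin q → ℝ}
    (hf : ∀ i, f i ≤ g i) (i : Fin q) : aeval (K' w) p f i ≤ aeval (K' w) p g i := by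
  have h := aeval_nonneg hw hp (f := g - f) (fun i => sub_nonneg.2 (hf i)) i
  rw [map_sub, Pi.sub_apply] at h
  exact sub_nonneg.1 h

variable (w)

/-- nonnegative, decreasing, `x f` increasing -/
structure Cone (f : Fin q → ℝ) : Prop where
  nn : ∀ i, 0 ≤ f i
  anti : ∀ i j, w i ≤ w j → f j ≤ f i
  mono : ∀ i j, w i ≤ w j → w i * f i ≤ w j * f j

variable {w}

theorem Cone.const (hw : ∀ i, 0 ≤ w i) {r : ℝ} (hr : 0 ≤ r) : Cone w (fun _ => r) :=
  ⟨fun _ => hr, fun _ _ _ => le_rfl, fun _ _ h => mul_le_mul_of_nonneg_right h hr⟩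

theorem Cone.add {f g : Fin q → ℝ} (hf : Cone w f) (hg : Cone w g) :
    Cone w (fun i => f i + g i) :=
  ⟨fun i => add_nonneg (hf.nn i) (hg.nn i),
    fun i j h => add_le_add (hf.anti i j h) (hg.anti i j h), fun i j h => by
      rw [mul_add, mul_add]; exact add_le_add (hf.mono i j h) (hg.mono i j h)⟩

theorem Cone.smul {f : Fin q → ℝ} (hf : Cone w f) {r : ℝ} (hr : 0 ≤ r) :
    Cone w (fun i => r * f i) :=
  ⟨fun i => mul_nonneg hr (hf.nn i), fun i j h => mul_le_mul_of_nonneg_left (hf.anti i j h) hr,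
    fun i j h => by
      have := mul_le_mul_of_nonneg_left (hf.mono i j h) hr
      nlinarith⟩

theorem Cone.K' (hw : ∀ i, 0 ≤ w i) {f : Fin q → ℝ} (hf : Cone w f) : Cone w (K' w f) := by
  refine ⟨K'_nonneg hw hf.nn, fun i j h => ?_, fun i j h => ?_⟩
  · rw [K'_apply, K'_apply]
    exact sub_le_sub_left (hf.mono i j h) _
  · rw [K'_apply, K'_apply]
    rcases eq_or_ne i j with rfl | hij
    · exact le_rfl
    · have h1 := le_E2 hw hf.nn hij
      have h2 := hf.anti i j h
      have h3 : 0 ≤ w j - w i := sub_nonneg.2 h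
      have h4 := mul_le_mul_of_nonneg_left h1 h3
      have h5 := mul_nonneg (mul_nonneg (hw i) (hw j)) (sub_nonneg.2 h2)
      nlinarith

theorem Cone.aeval (hw : ∀ i, 0 ≤ w i) {f : Fin q → ℝ} (hf : Cone w f) {p : ℝ[X]} (hp : NN p) :
    Cone w (aeval (SW.K' w) p f) := by
  have hpow : ∀ n : ℕ, Cone w (((SW.K' w) ^ n) f) := by
    intro n
    induction n with
    | zero => exact hf
    | succ n ih =>
      rw [pow_succ']
      exact ih.K' hw
  rw [aeval_eq_sum_range]
  have : ∀ s : Finset ℕ, Cone w ((∑ n ∈ s, p.coeff n • (SW.K' w) ^ n) f) := by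
    intro s
    induction s using Finset.induction_on with
    | empty =>
      rw [sum_empty]
      exact Cone.const hw le_rfl
    | insert a s ha ih =>
      rw [sum_insert ha, LinearMap.add_apply]
      exact ((hpow a).smul (hp a)).add ih
  exact this _

theorem Cone.hat (hw : ∀ i, 0 ≤ w i) {p : ℝ[X]} (hp : NN p) : Cone w (hat w p) :=
  (Cone.const hw zero_le_one).aeval hw hp

variable (w y)

/-- leg weights -/
noncomputable def l (j : ℕ) : ℝ := (st w y (B.path j)).a

/-- leg polynomials -/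
noncomputable def psi (j : ℕ) : ℝ[X] := (st w y (B.path j)).p

/-- `ch (s+1)` is the function `chi_s`; `ch 0 = 0` -/
noncomputable def ch : ℕ → Fin q → ℝ
  | 0 => fun _ => 0
  | s + 1 => fun i => l w y s - w i * ch s i

theorem l_zero : l w y 0 = 1 := rfl

theorem psi_zero : psi w y 0 = 1 := rfl

theorem l_succ (j : ℕ) : l w y (j + 1) = L w (psi w y j) := by
  simp only [l, psi, B.path, st, mul_one]

theorem psi_succ (j : ℕ) : psi w y (j + 1) = C (y * l w y j) + Polynomial.X * psi w y j := by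
  simp only [l, psi, B.path, st, mul_one]

theorem ch_zero : ch w y 0 = fun _ => 0 := rfl

theorem ch_succ (s : ℕ) (i : Fin q) : ch w y (s + 1) i = l w y s - w i * ch w y s i := rfl

theorem ch_one : ch w y 1 = fun _ => 1 := by
  funext i
  rw [ch_succ, ch_zero, l_zero]
  ring

theorem hat_psi (s : ℕ) (i : Fin q) :
    hat w (psi w y s) i = l w y s - (w i - y) * ch w y s i := by
  induction s generalizing i with
  | zero => rw [psi_zero, hat_one, l_zero, ch_zero]; ring
  | succ s ih =>
    rw [psi_succ, map_add, hat_C, hat_X_mul, Pi.add_apply, K'_apply, l_succ, L_def, ih, ch_succ]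
    ring

theorem hat_psi' (s : ℕ) (i : Fin q) :
    hat w (psi w y s) i = ch w y (s + 1) i + y * ch w y s i := by
  rw [hat_psi, ch_succ]; ring

theorem l_succ' (s : ℕ) : l w y (s + 1) = E w (ch w y (s + 1)) + y * E w (ch w y s) := by
  rw [l_succ, L_def, ← E_const_mul, ← E_add']
  congr 1
  funext i
  exact hat_psi' w y s i

theorem ch_succ_succ (s : ℕ) : ch w y (s + 2) =
    fun i => y * E w (ch w y s) + K' w (ch w y (s + 1)) i := by
  funext i
  rw [ch_succ, l_succ', K'_apply]
  ring

variable {w y}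

theorem l_nonneg (hw : ∀ i, 0 ≤ w i) (hy : 0 ≤ y) (j : ℕ) : 0 ≤ l w y j :=
  (st_nonneg hw hy _).1

theorem psi_NN (hw : ∀ i, 0 ≤ w i) (hy : 0 ≤ y) (j : ℕ) : NN (psi w y j) :=
  (st_nonneg hw hy _).2

theorem ch_cone (hw : ∀ i, 0 ≤ w i) (hy : 0 ≤ y) (s : ℕ) :
    Cone w (ch w y s) ∧ Cone w (ch w y (s + 1)) := by
  induction s with
  | zero =>
    refine ⟨Cone.const hw le_rfl, ?_⟩
    rw [zero_add, ch_one]
    exact Cone.const hw zero_le_one
  | succ s ih =>
    refine ⟨ih.2, ?_⟩
    rw [ch_succ_succ]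
    exact (Cone.const hw (mul_nonneg hy (E_nonneg hw ih.1.nn))).add (ih.2.K' hw)

theorem Cone.ch (hw : ∀ i, 0 ≤ w i) (hy : 0 ≤ y) (s : ℕ) : Cone w (ch w y s) :=
  (ch_cone hw hy s).1

/-- `(x - y) f` is increasing for `f` in the cone -/
theorem Cone.sub_mono {f : Fin q → ℝ} (hf : Cone w f) (hy : 0 ≤ y) (i j : Fin q)
    (h : w i ≤ w j) : (w i - y) * f i ≤ (w j - y) * f j := by
  have h1 := hf.mono i j h
  have h2 := mul_le_mul_of_nonneg_left (hf.anti i j h) hy
  nlinarith

variable (w y)

/-- the merge identities: with `D = (x-y) ch i ch j`,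
`(psi i * psi j)^ - psi (i+j)^ = - y D` and `l i * l j - l (i+j) = E D` -/
theorem merge_id (i j : ℕ) :
    (∀ k, hat w (psi w y i * psi w y j) k = hat w (psi w y (i + j)) k -
      y * ((w k - y) * ch w y i k * ch w y j k)) ∧
    l w y i * l w y j = l w y (i + j) + E w (fun k => (w k - y) * ch w y i k * ch w y j k) := by
  induction i with
  | zero =>
    refine ⟨fun k => ?_, ?_⟩
    · rw [psi_zero, one_mul, ch_zero, zero_add]; ring
    · have : (fun k => (w k - y) * ch w y 0 k * ch w y j k) = fun _ => 0 := by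
        funext k; rw [ch_zero]; ring
      rw [this, l_zero, zero_add]
      simp [E]
  | succ i ih =>
    have hA : l w y (i + 1) * l w y j = l w y (i + 1 + j) +
        E w (fun k => (w k - y) * ch w y (i + 1) k * ch w y j k) := by
      have h1 : l w y (i + 1 + j) = L w (psi w y (i + j)) := by
        rw [show i + 1 + j = (i + j) + 1 by ring, l_succ]
      have h2 : L w (psi w y (i + j)) = E w (fun k => hat w (psi w y i * psi w y j) k +
          y * ((w k - y) * ch w y i k * ch w y j k)) := by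
        rw [L_def]
        congr 1
        funext k
        rw [ih.1 k]
        ring
      have h3 : E w (hat w (psi w y i * psi w y j)) =
          E w (fun k => hat w (psi w y i) k * hat w (psi w y j) k) := by
        rw [← L_def, L_mul]
      rw [h1, h2, E_add', h3, l_succ, L_def, mul_comm, ← E_const_mul, ← E_add', ← E_add']
      congr 1
      funext k
      rw [hat_psi w y j, hat_psi' w y i]
      ring
    refine ⟨fun k => ?_, hA⟩
    rw [show i + 1 + j = (i + j) + 1 by ring, psi_succ, psi_succ, add_mul, mul_assoc, map_add,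
      map_add, hat_C_mul, hat_C, hat_X_mul, hat_X_mul, Pi.add_apply, Pi.add_apply, Pi.smul_apply,
      smul_eq_mul, K'_apply, K'_apply, ih.1 k]
    have h4 : E w (hat w (psi w y i * psi w y j)) = E w (hat w (psi w y (i + j))) -
        y * E w (fun k => (w k - y) * ch w y i k * ch w y j k) := by
      rw [← E_const_mul, ← E_sub]
      congr 1
      funext k
      exact ih.1 k
    have h5 := ih.2
    rw [h4, hat_psi w y j, ch_succ]
    linear_combination y * h5

/-- the merge identity in a context -/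
theorem Z_merge (A : ℝ) (Λ : ℝ[X]) (i j : ℕ) (s : B) :
    Z w y A Λ (.cons (.path i) (.cons (.path j) s)) =
      Z w y A Λ (.cons (.path (i + j + 1)) s) +
      y * E w (fun k => (w k - y) * ch w y (i + 1) k * ch w y (j + 1) k *
        (A * (st w y s).a - hat w (Λ * (st w y s).p) k)) := by
  have e1 : (B.cons (.path i) (.cons (.path j) s)) = (B.app (.cons (.path i) (.path (j + 1))) s) := rfl
  have e2 : (B.cons (.path (i + j + 1)) s) = (B.app (.path (i + j + 2)) s) := rfl
  rw [e1, e2, Z_app, Z_app]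
  set A' := A * (st w y s).a
  set Λ' := Λ * (st w y s).p
  obtain ⟨h1, h2⟩ := merge_id w y (i + 1) (j + 1)
  have e3 : (st w y (B.cons (.path i) (.path (j + 1)))) =
      ⟨l w y (i + 1) * l w y (j + 1), psi w y (i + 1) * psi w y (j + 1)⟩ := by
    have : (B.cons (.path i) (.path (j + 1))) = (B.path (i + 1)).app (B.path (j + 1)) := rfl
    rw [this, st_app]
    rfl
  have e4 : (st w y (B.path (i + j + 2))) =
      ⟨l w y (i + 1 + (j + 1)), psi w y (i + 1 + (j + 1))⟩ := by
    rw [show i + j + 2 = i + 1 + (j + 1) by ring]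
    rfl
  rw [Z, Z, e3, e4]
  simp only
  rw [h2, L_mul, L_mul]
  have e5 : E w (fun k => hat w Λ' k * hat w (psi w y (i + 1) * psi w y (j + 1)) k) =
      E w (fun k => hat w Λ' k * hat w (psi w y (i + 1 + (j + 1))) k) -
      y * E w (fun k => (w k - y) * ch w y (i + 1) k * ch w y (j + 1) k * hat w Λ' k) := by
    rw [← E_const_mul, ← E_sub]
    congr 1
    funext k
    rw [h1 k]
    ring
  have e6 : E w (fun k => (w k - y) * ch w y (i + 1) k * ch w y (j + 1) k *
        (A' - hat w Λ' k)) =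
      A' * E w (fun k => (w k - y) * ch w y (i + 1) k * ch w y (j + 1) k) -
      E w (fun k => (w k - y) * ch w y (i + 1) k * ch w y (j + 1) k * hat w Λ' k) := by
    rw [← E_const_mul, ← E_sub]
    congr 1
    funext k
    ring
  rw [e5, e6]
  ring

variable {w y}

/-- messages of legs: `a - p^ ≥ 0` for products of legs -/
theorem R_defect (h : Hyp w y) (J : List ℕ) (k : Fin q) :
    0 ≤ (st w y (R J)).a - hat w (st w y (R J)).p k := by
  induction J generalizing k with
  | nil =>
    have : hat w (st w y (R [])).p = fun _ => 1 := hat_one w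
    rw [this]
    have : (st w y (R [])).a = 1 := rfl
    rw [this]
    simp
  | cons j J ih =>
    have e : R (j :: J) = (B.path (j + 1)).app (R J) := rfl
    rw [e, st_app]
    simp only
    set a := (st w y (R J)).a
    set p := (st w y (R J)).p
    have hp : NN p := (st_nonneg h.nn h.hy.le _).2
    have e1 : (st w y (B.path (j + 1))).a = l w y (j + 1) := rfl
    have e2 : (st w y (B.path (j + 1))).p = psi w y (j + 1) := rfl
    rw [e1, e2]
    have e3 : l w y (j + 1) * a - hat w (psi w y (j + 1) * p) k =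
        l w y (j + 1) * (a - hat w p k) +
          aeval (K' w) p (fun i => l w y (j + 1) - hat w (psi w y (j + 1)) i) k := by
      have : (fun i => l w y (j + 1) - hat w (psi w y (j + 1)) i) =
          (l w y (j + 1)) • (fun _ => (1 : ℝ)) - hat w (psi w y (j + 1)) := by
        funext i
        simp
      rw [this, map_sub, map_smul, ← hat_def, ← hat_mul, mul_comm p, Pi.sub_apply,
        Pi.smul_apply, smul_eq_mul]
      ring
    rw [e3]
    refine add_nonneg (mul_nonneg (l_nonneg h.nn h.hy.le _) (ih k)) (aeval_nonneg h.nn hp ?_ k)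
    intro i
    rw [hat_psi, sub_sub_cancel]
    exact mul_nonneg (sub_nonneg.2 (h.lt i).le) ((Cone.ch h.nn h.hy.le _).nn i)

/-- merging two legs of a spider at its centre -/
theorem spider_merge (h : Hyp w y) (a b : ℕ) (J : List ℕ) :
    Z w y 1 1 (R ((a + b + 1) :: J)) ≤ Z w y 1 1 (R (a :: b :: J)) := by
  rw [R, R, R, Z_merge]
  refine le_add_of_nonneg_right (mul_nonneg h.hy.le (E_nonneg h.nn fun k => ?_))
  refine mul_nonneg (mul_nonneg (mul_nonneg (sub_nonneg.2 (h.lt k).le)
    ((Cone.ch h.nn h.hy.le _).nn k)) ((Cone.ch h.nn h.hy.le _).nn k)) ?_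
  rw [one_mul, one_mul]
  exact R_defect h J k

end Pool.Agent.Helper4.SW
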